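import Pool.Agent.Arb3.Count3
import Pool.Agent.Arb2.Auto

/-!
# Points whose valuations are not divisible by the multiplicity
-/

set_option autoImplicit false

open Polynomial NumberField IsDedekindDomain Module
open scoped WithZero

namespace Pool.Agent.Arb3

open Pool.Agent.TameArb
open Pool.Agent.Arb2 (fib mem_fib card_fib HE mem_HE exists_HE exists_big itp_add itp_sub_ne_zero
  split_level norm_sub overComap Un itp_lc)

/-- a cycle from a value with a valuation that is not divisible by the multiplicity -/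
theorem cyc_point {K E F L : Type} [Field K] [CharZero K] [Field E] [Field F] [NumberField F]
    [Field L] [NumberField L] [Algebra K E] [Algebra K F] [Algebra K L] [Algebra E F]
    [Algebra E L] [Algebra F L] [IsScalarTower K E F] [IsScalarTower K E L]
    [IsScalarTower K F L] [IsScalarTower E F L] [IsGalois K L]
    {φ : K[X]} {c : K} {e B : ℕ} {D : Finset K}
    (hD : DP φ c e B D) (hd : 2 ≤ φ.natDegree) (hs : (derivative φ).Splits)
    (hc : (derivative φ).eval c = 0) (he2 : 2 ≤ e)
    (hl : ∀ i, 0 < i → i < e → (hasseDeriv i φ).eval c = 0) {h : ℕ} (h1 : 1 ≤ h) (hB : h ≤ B) {γ : K}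
    (hγD : γ ≠ 0 → γ ∈ D) {n1 N : ℕ} {w : L} (x0 : F) (hx0 : algebraMap F L x0 = (ph φ)^[N] w)
    (hw : (ph φ)^[n1 + N] w = algebraMap K L γ)
    (hsplit : ((itp φ h).map (algebraMap K L) - C w).Splits)
    (hdeg : (minpoly F w).natDegree = φ.natDegree ^ N)
    (hne : algebraMap K F ((ph φ)^[N + h] c) ≠ x0)
    (hodd : ¬ PowOff e D (algebraMap K F ((ph φ)^[N + h] c) - x0)) :
    ∃ t ∈ HE K E L, t w = w ∧ ∃ y1 : L, (ph φ)^[h] y1 = w ∧ t y1 ≠ y1 ∧
      (∀ z, (ph φ)^[h] z = w → t z ≠ z → ph φ z = ph φ y1) ∧
      (∀ ζ : K, IsPrimitiveRoot ζ e →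
        (∀ x : L, ph φ (algebraMap K L c + algebraMap K L ζ * (x - algebraMap K L c)) = ph φ x) →
        ∀ z, (ph φ)^[h] z = w → t z ≠ z → ∃ i : ℕ,
          z = algebraMap K L c + algebraMap K L ζ ^ i * (y1 - algebraMap K L c)) ∧
      (e.Prime → (t ^ e) y1 = y1 ∧
        ∀ z, (ph φ)^[h] z = w → t z ≠ z → ∃ j : ℕ, (t ^ j) y1 = z) := by
  classical
  have hfdL : FiniteDimensional F L := inferInstance
  have hint : IsIntegral F w := Algebra.IsIntegral.isIntegral w
  let M : IntermediateField F L := IntermediateField.adjoin F {w}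
  have hfdM : FiniteDimensional F M := IntermediateField.adjoin.finiteDimensional hint
  have hnfM : NumberField M := NumberField.of_module_finite F M
  have htow : IsScalarTower K M L := IsScalarTower.of_algebraMap_eq (fun x => rfl)
  have htow2 : IsScalarTower K F M := IsScalarTower.of_algebraMap_eq (fun x => by
    apply (algebraMap M L).injective
    rw [← IsScalarTower.algebraMap_apply K M L, ← IsScalarTower.algebraMap_apply F M L,
      ← IsScalarTower.algebraMap_apply K F L])
  have hgalM : IsGalois M L := IsGalois.tower_top_of_isGalois K M L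
  have hwM : w ∈ M := IntermediateField.subset_adjoin F _ (Set.mem_singleton w)
  set wM : M := ⟨w, hwM⟩ with hwMdef
  have hwMw : algebraMap M L wM = w := rfl
  have hitL : ∀ (n : ℕ) (y : M), algebraMap M L ((ph φ)^[n] y) = (ph φ)^[n] (algebraMap M L y) :=
    fun n y => iter_hom φ (IsScalarTower.toAlgHom K M L) n y
  have hinj := (algebraMap M L).injective
  -- the norm
  set P : F[X] := (itp φ N).map (algebraMap K F) - C x0 with hP
  have hPd : P.natDegree = φ.natDegree ^ N := by
    rw [hP, natDegree_sub_C, natDegree_map, itp_natDegree]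
  have hP0 : P ≠ 0 := itp_sub_ne_zero hd _ _
  have hmp : minpoly F wM = minpoly F w := by
    rw [← hwMw]
    exact (minpoly.algebraMap_eq hinj wM).symm
  have hfin : finrank F M = φ.natDegree ^ N := by
    rw [← hdeg]
    exact IntermediateField.adjoin.finrank hint
  have hPw : aeval wM P = 0 := by
    apply hinj
    rw [map_zero, ← aeval_algebraMap_apply, hwMw, hP, map_sub, aeval_C, aeval_map_algebraMap,
      itp_aeval, hx0, sub_self]
  have hnorm : ∀ a : F, P.eval a = P.leadingCoeff * Algebra.norm F (algebraMap F M a - wM) :=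
    fun a => norm_sub wM P hP0 hPw (by rw [hPd, hfin]) (by rw [hmp, hdeg, hfin]) a
  -- the critical point
  set a : F := algebraMap K F ((ph φ)^[h] c) with ha
  have hPa : P.eval a = algebraMap K F ((ph φ)^[N + h] c) - x0 := by
    rw [hP, eval_sub, eval_C, eval_map_algebraMap, itp_aeval, ha, ← iter_algebraMap,
      ← Function.iterate_add_apply]
  have haM : algebraMap F M a = (ph φ)^[h] (algebraMap K M c) := by
    rw [ha, ← IsScalarTower.algebraMap_apply, iter_algebraMap]
  have hα0 : algebraMap F M a - wM ≠ 0 := by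
    intro h0
    have h2 := hnorm a
    rw [h0, Algebra.norm_zero, mul_zero, hPa, sub_eq_zero] at h2
    exact hne h2
  have hnotev : ¬ PowOff e D (algebraMap F M a - wM) := by
    intro hev
    apply hodd
    have h2 := hev.norm (F := F) (by omega) hα0
    intro v hv
    obtain ⟨m, hm⟩ := h2 v hv
    refine ⟨m, ?_⟩
    rw [← hPa, hnorm a, map_mul, hm]
    have h3 : v.valuation F P.leadingCoeff = 1 := by
      have h4 : P.leadingCoeff = algebraMap K F (itp φ N).leadingCoeff := by
        by_cases hN : N = 0
        · subst hN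
          have h5 : P = X - C x0 := by rw [hP]; simp [itp]
          rw [h5, leadingCoeff_X_sub_C]
          simp [itp]
        · rw [← leadingCoeff_map (algebraMap K F), hP]
          have h5 : ((itp φ N).map (algebraMap K F)).natDegree = φ.natDegree ^ N := by
            rw [natDegree_map, itp_natDegree]
          rw [leadingCoeff, leadingCoeff, natDegree_sub_C, coeff_sub, coeff_C_of_ne_zero,
            sub_zero]
          rw [h5]
          exact (pow_pos (by omega) _).ne'
      obtain ⟨e', he⟩ := itp_lc φ hd N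
      have hl : φ.coeff φ.natDegree ∈ D := hD.coeff _ (leadingCoeff_ne_zero.mpr
        (by rintro rfl; simp at hd))
      have hl2 := hv _ hl
      rw [coeff_natDegree] at hl2
      rw [h4, he, map_pow, map_pow, hl2, one_pow]
    rw [h3, one_mul]
  rw [PowOff] at hnotev
  push Not at hnotev
  obtain ⟨v, hv, hvodd⟩ := hnotev
  -- integrality
  have hvw : v.valuation M wM ≤ 1 := by
    have ho := overComap (K := K) (v.valuation M)
    have hg := hD.good hd hv
    apply ho.le_of_iter hg hd (n := n1 + N)
    have h2 : (ph φ)^[n1 + N] wM = algebraMap K M γ := by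
      apply hinj
      rw [hitL, hwMw, hw, ← IsScalarTower.algebraMap_apply]
    rw [h2]
    by_cases hγ : γ = 0
    · rw [hγ, map_zero, map_zero]; exact zero_le
    · exact (hv γ (hγD hγ)).le
  have hsplit' : ((itp φ h).map (algebraMap K L) - C (algebraMap M L wM)).Splits := hsplit
  obtain ⟨σ, y1, e1, e2, e3, e5, e4⟩ := cycL hD hd hs hc he2 hl h1 hB wM hsplit'
    (by rw [← haM]; exact sub_ne_zero.mp hα0) v hv hvw (by
      rw [← haM]
      rintro ⟨m, hm⟩
      exact hvodd m hm)
  have hpw : ∀ (j : ℕ) (y : L), ((σ.restrictScalars K) ^ j) y = (σ ^ j) y := by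
    intro j y
    induction j with
    | zero => rfl
    | succ j ih => rw [pow_succ', AlgEquiv.mul_apply, ih, pow_succ', AlgEquiv.mul_apply]; rfl
  refine ⟨σ.restrictScalars K, ?_, ?_, y1, e1, e2, e3, e5, ?_⟩
  · intro x
    have h2 : algebraMap E L x = algebraMap M L (algebraMap F M (algebraMap E F x)) := by
      rw [← IsScalarTower.algebraMap_apply F M L, ← IsScalarTower.algebraMap_apply E F L]
    change σ (algebraMap E L x) = _
    rw [h2, σ.commutes]
  · change σ w = w
    rw [← hwMw, σ.commutes]
  · intro hp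
    obtain ⟨h3, h4⟩ := e4 hp
    refine ⟨by rw [hpw]; exact h3, fun z hz1 hz2 => ?_⟩
    obtain ⟨j, hj⟩ := h4 z hz1 hz2
    exact ⟨j, by rw [hpw]; exact hj⟩

theorem exists_DP {K : Type} [Field K] [CharZero K] {φ : K[X]} (hd : 2 ≤ φ.natDegree) {c : K}
    {e : ℕ} (he : 2 ≤ e) (hc2 : (hasseDeriv e φ).eval c ≠ 0)
    (hinj : Function.Injective fun n : ℕ => (ph φ)^[n] c)
    (hdist : ∀ a : K, (derivative φ).eval a = 0 → a ≠ c → ∀ i j : ℕ, 1 ≤ i → i ≤ j →
      (ph φ)^[i] a ≠ (ph φ)^[j] c) (B : ℕ) (Γ : Finset K) :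
    ∃ D : Finset K, DP φ c e B D ∧ ∀ γ ∈ Γ, γ ≠ 0 → γ ∈ D := by
  classical
  have hd0 : derivative φ ≠ 0 := by
    intro h
    have h1 := natDegree_derivative φ
    rw [h, natDegree_zero] at h1
    omega
  set S : Finset K := (Finset.range (φ.natDegree + 1)).image φ.coeff ∪
    ({(φ.natDegree : K), (hasseDeriv e φ).eval c, (e : K)} ∪ ((derivative φ).roots.toFinset ∪
    (((derivative φ).roots.toFinset ×ˢ (Finset.Icc 1 B ×ˢ Finset.Icc 1 B)).image
      (fun p => (ph φ)^[p.2.1] p.1 - (ph φ)^[p.2.2] c) ∪ Γ))) with hS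
  refine ⟨S.filter (fun a => a ≠ 0), ⟨?_, ?_, ?_, ?_, ?_, ?_, ?_⟩, ?_⟩
  · intro a ha
    exact (Finset.mem_filter.mp ha).2
  · intro i hi
    refine Finset.mem_filter.mpr ⟨?_, hi⟩
    apply Finset.mem_union_left
    refine Finset.mem_image_of_mem _ (Finset.mem_range.mpr ?_)
    by_contra hcon
    exact hi (coeff_eq_zero_of_natDegree_lt (by omega))
  · refine Finset.mem_filter.mpr ⟨?_, ?_⟩
    · apply Finset.mem_union_right
      apply Finset.mem_union_left
      simp
    · exact Nat.cast_ne_zero.mpr (by omega)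
  · intro a ha ha0
    refine Finset.mem_filter.mpr ⟨?_, ha0⟩
    apply Finset.mem_union_right
    apply Finset.mem_union_right
    apply Finset.mem_union_left
    rw [Multiset.mem_toFinset, mem_roots hd0]
    exact ha
  · refine Finset.mem_filter.mpr ⟨?_, hc2⟩
    apply Finset.mem_union_right
    apply Finset.mem_union_left
    simp
  · refine Finset.mem_filter.mpr ⟨?_, ?_⟩
    · apply Finset.mem_union_right
      apply Finset.mem_union_left
      simp
    · exact Nat.cast_ne_zero.mpr (by omega)
  · intro a ha i j hi hiJ hjB hij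
    refine Finset.mem_filter.mpr ⟨?_, ?_⟩
    · apply Finset.mem_union_right
      apply Finset.mem_union_right
      apply Finset.mem_union_right
      apply Finset.mem_union_left
      refine Finset.mem_image.mpr ⟨(a, (i, j)), ?_, rfl⟩
      rw [Finset.mem_product, Finset.mem_product, Multiset.mem_toFinset, mem_roots hd0,
        Finset.mem_Icc, Finset.mem_Icc]
      exact ⟨ha, ⟨hi, le_trans hiJ hjB⟩, ⟨le_trans hi hiJ, hjB⟩⟩
    · rw [sub_ne_zero]
      by_cases hac : a = c
      · subst hac
        intro h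
        exact hij rfl (hinj h)
      · exact hdist a ha hac i j hi hiJ
  · intro γ hγ hγ0
    refine Finset.mem_filter.mpr ⟨?_, hγ0⟩
    apply Finset.mem_union_right
    apply Finset.mem_union_right
    apply Finset.mem_union_right
    apply Finset.mem_union_right
    exact hγ

end Pool.Agent.Arb3
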