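import Pool.Agent.Arb3.Cyc2
import Pool.Agent.Arb2.Tower

/-!
# Cycles in a large Galois group
-/

set_option autoImplicit false

open Polynomial NumberField IsDedekindDomain
open scoped WithZero

namespace Pool.Agent.Arb3

open Pool.Agent.TameArb
open Pool.Agent.Arb2 (Un)

theorem cycL {K M L : Type} [Field K] [CharZero K] [Field M] [NumberField M] [Field L]
    [NumberField L] [Algebra K M] [Algebra K L] [Algebra M L] [IsScalarTower K M L]
    [IsGalois M L] {φ : K[X]} {c : K} {e B : ℕ} {D : Finset K}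
    (hD : DP φ c e B D) (hd : 2 ≤ φ.natDegree) (hs : (derivative φ).Splits)
    (hc : (derivative φ).eval c = 0) (he : 2 ≤ e)
    (hl : ∀ i, 0 < i → i < e → (hasseDeriv i φ).eval c = 0) {h : ℕ} (h1 : 1 ≤ h) (hB : h ≤ B)
    (w : M)
    (hsplit : ((itp φ h).map (algebraMap K L) - C (algebraMap M L w)).Splits)
    (hcw : (ph φ)^[h] (algebraMap K M c) ≠ w)
    (v : HeightOneSpectrum (𝓞 M)) (hv : Un D v) (hvw : v.valuation M w ≤ 1)
    (hnd : ¬ ∃ m : ℤ, v.valuation M ((ph φ)^[h] (algebraMap K M c) - w) =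
      WithZero.exp (e * m)) :
    ∃ (σ : L ≃ₐ[M] L) (y1 : L), (ph φ)^[h] y1 = algebraMap M L w ∧ σ y1 ≠ y1 ∧
      (∀ z, (ph φ)^[h] z = algebraMap M L w → σ z ≠ z → ph φ z = ph φ y1) ∧
      (∀ ζ : K, IsPrimitiveRoot ζ e →
        (∀ x : L, ph φ (algebraMap K L c + algebraMap K L ζ * (x - algebraMap K L c)) = ph φ x) →
        ∀ z, (ph φ)^[h] z = algebraMap M L w → σ z ≠ z → ∃ i : ℕ,
          z = algebraMap K L c + algebraMap K L ζ ^ i * (y1 - algebraMap K L c)) ∧
      (e.Prime → (σ ^ e) y1 = y1 ∧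
        ∀ z, (ph φ)^[h] z = algebraMap M L w → σ z ≠ z → ∃ j, (σ ^ j) y1 = z) := by
  classical
  set P : M[X] := (itp φ h).map (algebraMap K M) - C w with hP
  have hPL : P.map (algebraMap M L) = (itp φ h).map (algebraMap K L) - C (algebraMap M L w) := by
    rw [hP, Polynomial.map_sub, map_C, map_map, ← IsScalarTower.algebraMap_eq]
  have hPs : (P.map (algebraMap M L)).Splits := by rw [hPL]; exact hsplit
  have hP0 : P ≠ 0 := by
    intro h0
    have h2 : P.natDegree = φ.natDegree ^ h := by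
      rw [hP, natDegree_sub_C, natDegree_map, itp_natDegree]
    rw [h0, natDegree_zero] at h2
    have : 0 < φ.natDegree ^ h := pow_pos (by omega) _
    omega
  let E : IntermediateField M L := IntermediateField.adjoin M (P.rootSet L)
  have hsf : P.IsSplittingField M E := IntermediateField.adjoin_rootSet_isSplittingField hPs
  have hnor : Normal M E := Normal.of_isSplittingField P
  have hgal : IsGalois M E := ⟨⟩
  have hfd : FiniteDimensional M E := IsSplittingField.finiteDimensional E P
  have hnf : NumberField E := NumberField.of_module_finite M E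
  have htow : IsScalarTower K E L := IsScalarTower.of_algebraMap_eq (fun x => rfl)
  obtain ⟨T, -, hT⟩ := exists_fibre φ hd h (algebraMap M E w)
  have hPE : P.map (algebraMap M E) = (itp φ h).map (algebraMap K E) - C (algebraMap M E w) := by
    rw [hP, Polynomial.map_sub, map_C, map_map, ← IsScalarTower.algebraMap_eq]
  have hae : ∀ y : E, aeval y P = (ph φ)^[h] y - algebraMap M E w := by
    intro y
    rw [hP, map_sub, aeval_C, aeval_map_algebraMap, itp_aeval]
  have hsplE : ((itp φ h).map (algebraMap K E) - C (algebraMap M E w)).Splits := by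
    rw [← hPE]; exact IsSplittingField.splits E P
  have hgen : ∀ σ : E ≃ₐ[M] E, (∀ y ∈ T, σ y = y) → σ = 1 := by
    intro σ hσ
    have h2 : (σ : E →ₐ[M] E) = ((1 : E ≃ₐ[M] E) : E →ₐ[M] E) := by
      apply AlgHom.ext_of_adjoin_eq_top (IsSplittingField.adjoin_rootSet E P)
      intro y hy
      have h3 : aeval y P = 0 := (mem_rootSet.mp hy).2
      rw [hae, sub_eq_zero] at h3
      exact hσ y ((hT y).mpr h3)
    ext y
    exact congrArg Subtype.val (congrArg (fun f : E →ₐ[M] E => f y) h2)
  obtain ⟨σ, y1, hy1, hne, hφ, hrot, hpr⟩ := cyc hD hd hs hc he hl h1 hB w T hT hsplE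
    hgen hcw v hv hvw hnd
  have hnorL : Normal M L := inferInstance
  obtain ⟨τ, hτ⟩ := AlgEquiv.restrictNormalHom_surjective (F := M) (K₁ := E) L σ
  have hτc : ∀ y : E, τ (algebraMap E L y) = algebraMap E L (σ y) := by
    intro y
    rw [← hτ]
    exact (AlgEquiv.restrictNormal_commutes τ E y).symm
  have hτj : ∀ (j : ℕ) (y : E), (τ ^ j) (algebraMap E L y) = algebraMap E L ((σ ^ j) y) := by
    intro j y
    induction j with
    | zero => rfl
    | succ j ih => rw [pow_succ', AlgEquiv.mul_apply, ih, hτc, pow_succ', AlgEquiv.mul_apply]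
  have hit : ∀ (n : ℕ) (y : E), algebraMap E L ((ph φ)^[n] y) = (ph φ)^[n] (algebraMap E L y) :=
    fun n y => iter_hom φ (IsScalarTower.toAlgHom K E L) n y
  have hwL : algebraMap E L (algebraMap M E w) = algebraMap M L w :=
    (IsScalarTower.algebraMap_apply M E L w).symm
  have hinj := (algebraMap E L).injective
  have hz : ∀ z, (ph φ)^[h] z = algebraMap M L w → ∃ z' ∈ T, algebraMap E L z' = z := by
    intro z hz
    have hzE : z ∈ E := by
      apply IntermediateField.subset_adjoin M
      rw [mem_rootSet]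
      refine ⟨hP0, ?_⟩
      rw [hP, map_sub, aeval_C, aeval_map_algebraMap, itp_aeval, hz, sub_self]
    refine ⟨⟨z, hzE⟩, ?_, rfl⟩
    rw [hT]
    apply hinj
    rw [hit, hwL]
    exact hz
  have hcE : ∀ a : K, algebraMap E L (algebraMap K E a) = algebraMap K L a := fun a =>
    (IsScalarTower.algebraMap_apply K E L a).symm
  refine ⟨τ, algebraMap E L y1, ?_, ?_, ?_, ?_, ?_⟩
  · rw [← hit, (hT y1).mp hy1, hwL]
  · rw [hτc]
    exact fun h2 => hne (hinj h2)
  · intro z hz1 hz2
    obtain ⟨z', hz', rfl⟩ := hz z hz1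
    rw [hτc] at hz2
    have h2 := hφ z' hz' (fun h3 => hz2 (by rw [h3]))
    have h3 := hit 1 z'
    have h4 := hit 1 y1
    rw [Function.iterate_one, Function.iterate_one] at h3 h4
    rw [← h3, ← h4, h2]
  · intro ζ hζ hrotL z hz1 hz2
    obtain ⟨z', hz', rfl⟩ := hz z hz1
    rw [hτc] at hz2
    obtain ⟨i, hi⟩ := hrot ζ hζ (by
      intro x
      apply hinj
      have h3 := hit 1 x
      have h4 := hit 1 (algebraMap K E c + algebraMap K E ζ * (x - algebraMap K E c))
      rw [Function.iterate_one, Function.iterate_one] at h3 h4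
      rw [h3, h4, map_add, map_mul, map_sub, hcE, hcE]
      exact hrotL _) z' hz' (fun h3 => hz2 (by rw [h3]))
    refine ⟨i, ?_⟩
    rw [hi, map_add, map_mul, map_pow, map_sub, hcE, hcE]
  · intro hp
    obtain ⟨h2, h3⟩ := hpr hp
    refine ⟨by rw [hτj, h2], ?_⟩
    intro z hz1 hz2
    obtain ⟨z', hz', rfl⟩ := hz z hz1
    rw [hτc] at hz2
    obtain ⟨j, hj⟩ := h3 z' hz' (fun h3 => hz2 (by rw [h3]))
    exact ⟨j, by rw [hτj, hj]⟩

end Pool.Agent.Arb3
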