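import Mathlib

/-!
# Derangements in cosets of groups with short cycles of prime length
-/

set_option autoImplicit false

namespace Pool.Agent.Arb3

open Finset

section

variable {G Ω : Type*} [Group G] [MulAction G Ω]

/-- `τ` acts on `F` as a cycle of length `e` with support `S`. -/
structure CycS (N : Subgroup G) (F : Finset Ω) (e : ℕ) (τ : G) (S : Finset Ω) : Prop where
  mem : τ ∈ N
  sub : S ⊆ F
  card : S.card = e
  out : ∀ z ∈ F, z ∉ S → τ • z = z
  inS : ∀ z ∈ S, τ • z ∈ S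
  per : ∀ z ∈ S, ∀ n : ℕ, τ ^ n • z = z ↔ e ∣ n

theorem inv_maps {S : Finset Ω} {g : G} (h : ∀ z ∈ S, g • z ∈ S) : ∀ z ∈ S, g⁻¹ • z ∈ S := by
  classical
  intro z hz
  have h1 : S.image (fun z => g • z) = S := by
    apply eq_of_subset_of_card_le
    · intro y hy
      obtain ⟨x, hx, rfl⟩ := mem_image.mp hy
      exact h x hx
    · rw [card_image_of_injective _ (MulAction.injective g)]
  rw [← h1] at hz
  obtain ⟨x, hx, rfl⟩ := mem_image.mp hz
  rw [inv_smul_smul]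
  exact hx

open Classical in
/-- the number of fixed points in `F` -/
noncomputable def nf (F : Finset Ω) (k : G) : ℕ := (F.filter (fun z => k • z = z)).card

variable {N : Subgroup G} {F : Finset Ω} {e : ℕ} {τ τ' k : G} {S S' : Finset Ω}

theorem CycS.powS (hC : CycS N F e τ S) {z : Ω} (hz : z ∈ S) (j : ℕ) : τ ^ j • z ∈ S := by
  induction j with
  | zero => simpa using hz
  | succ j ih => rw [pow_succ', mul_smul]; exact hC.inS _ ih

theorem CycS.outj (hC : CycS N F e τ S) {z : Ω} (hz : z ∈ F) (hzS : z ∉ S) (j : ℕ) :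
    τ ^ j • z = z := by
  induction j with
  | zero => simp
  | succ j ih => rw [pow_succ', mul_smul, ih]; exact hC.out z hz hzS

theorem CycS.inj (hC : CycS N F e τ S) {z : Ω} (hz : z ∈ S) {i j : ℕ} (hi : i < e) (hj : j < e)
    (h : τ ^ i • z = τ ^ j • z) : i = j := by
  wlog hij : i ≤ j generalizing i j
  · exact (this hj hi h.symm (by omega)).symm
  have h1 : τ ^ i • (τ ^ (j - i) • z) = τ ^ i • z := by
    rw [← mul_smul, ← pow_add, Nat.add_sub_cancel' hij, h]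
  have h2 := MulAction.injective _ h1
  rw [hC.per z hz] at h2
  have h3 := Nat.eq_zero_of_dvd_of_lt h2 (by omega)
  omega

theorem CycS.gen (hC : CycS N F e τ S) (hp : e.Prime) {z z' : Ω} (hz : z ∈ S) (hz' : z' ∈ S)
    {j : ℕ} (hj0 : 0 < j) (hj : j < e) : ∃ i : ℕ, (τ ^ j) ^ i • z = z' := by
  classical
  have hinj : Set.InjOn (fun i => (τ ^ j) ^ i • z) (range e : Set ℕ) := by
    intro a ha b hb hab
    rw [mem_coe, mem_range] at ha hb
    wlog hle : a ≤ b generalizing a b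
    · exact (this hb ha hab.symm (by omega)).symm
    simp only [← pow_mul] at hab
    have h1 : τ ^ (j * a) • (τ ^ (j * (b - a)) • z) = τ ^ (j * a) • z := by
      rw [← mul_smul, ← pow_add, ← mul_add, Nat.add_sub_cancel' hle, hab]
    have h2 := MulAction.injective _ h1
    rw [hC.per z hz, hp.dvd_mul] at h2
    rcases h2 with h2 | h2
    · exact absurd (Nat.eq_zero_of_dvd_of_lt h2 hj) (by omega)
    · have h3 := Nat.eq_zero_of_dvd_of_lt h2 (by omega)
      omega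
  have himg : (range e).image (fun i => (τ ^ j) ^ i • z) = S := by
    apply eq_of_subset_of_card_le
    · intro y hy
      obtain ⟨i, -, rfl⟩ := mem_image.mp hy
      rw [← pow_mul]
      exact hC.powS hz _
    · rw [card_image_of_injOn hinj, card_range, hC.card]
  rw [← himg] at hz'
  obtain ⟨i, -, hi⟩ := mem_image.mp hz'
  exact ⟨i, hi⟩

theorem CycS.conj (hC : CycS N F e τ S) (h : G) (hF : ∀ z ∈ F, h • z ∈ F)
    (hN : h * τ * h⁻¹ ∈ N) [DecidableEq Ω] :
    CycS N F e (h * τ * h⁻¹) (S.image (fun z => h • z)) := by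
  refine ⟨hN, ?_, ?_, ?_, ?_, ?_⟩
  · intro y hy
    obtain ⟨x, hx, rfl⟩ := mem_image.mp hy
    exact hF x (hC.sub hx)
  · rw [card_image_of_injective _ (MulAction.injective h), hC.card]
  · intro z hz hzS
    have h1 : τ • (h⁻¹ • z) = h⁻¹ • z := by
      apply hC.out _ (inv_maps hF z hz)
      intro h2
      exact hzS (mem_image.mpr ⟨_, h2, smul_inv_smul _ _⟩)
    rw [mul_smul, mul_smul, h1, smul_inv_smul]
  · intro z hz
    obtain ⟨x, hx, rfl⟩ := mem_image.mp hz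
    rw [mul_smul, mul_smul, inv_smul_smul]
    exact mem_image_of_mem _ (hC.inS x hx)
  · intro z hz n
    obtain ⟨x, hx, rfl⟩ := mem_image.mp hz
    rw [conj_pow, mul_smul, mul_smul, inv_smul_smul, ← hC.per x hx n]
    exact ⟨fun h2 => MulAction.injective h h2, fun h2 => by rw [h2]⟩

theorem CycS.mini (hC : CycS N F e τ S) (he : 0 < e)
    (hmin : ∀ n ∈ N, nf F k ≤ nf F (k * n)) {x : Ω} (hx : x ∈ S) (hkx : k • x = x) :
    (∀ z ∈ S, ∃ j < e, (k * τ ^ j) • z = z ∧ nf F (k * τ ^ j) = nf F k) ∧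
      ∀ z ∈ S, k • z = z → z = x := by
  classical
  set c : ℕ → ℕ := fun j => (S.filter (fun z => (k * τ ^ j) • z = z)).card with hc
  set b : ℕ := ((F \ S).filter (fun z => k • z = z)).card with hb
  have hnf : ∀ j, nf F (k * τ ^ j) = b + c j := by
    intro j
    have h1 : F.filter (fun z => (k * τ ^ j) • z = z) =
        ((F \ S).filter (fun z => k • z = z)) ∪ (S.filter (fun z => (k * τ ^ j) • z = z)) := by
      ext z
      rw [mem_union, mem_filter, mem_filter, mem_filter, mem_sdiff]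
      constructor
      · rintro ⟨hz, hzf⟩
        by_cases hzS : z ∈ S
        · exact Or.inr ⟨hzS, hzf⟩
        · refine Or.inl ⟨⟨hz, hzS⟩, ?_⟩
          rwa [mul_smul, hC.outj hz hzS] at hzf
      · rintro (⟨⟨hz, hzS⟩, hzf⟩ | ⟨hzS, hzf⟩)
        · exact ⟨hz, by rwa [mul_smul, hC.outj hz hzS]⟩
        · exact ⟨hC.sub hzS, hzf⟩
    rw [nf, h1, card_union_of_disjoint]
    rw [disjoint_left]
    intro z hz hz'
    exact (mem_sdiff.mp (mem_filter.mp hz).1).2 (mem_filter.mp hz').1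
  have hnf0 : nf F k = b + c 0 := by
    have := hnf 0
    rwa [pow_zero, mul_one] at this
  have hc0 : 1 ≤ c 0 := by
    apply card_pos.mpr
    exact ⟨x, mem_filter.mpr ⟨hx, by rw [pow_zero, mul_one, hkx]⟩⟩
  have hcj : ∀ j, c 0 ≤ c j := by
    intro j
    have h1 := hmin (τ ^ j) (N.pow_mem hC.mem j)
    rw [hnf, hnf0] at h1
    omega
  have hsum : ∑ j ∈ range e, c j =
      ∑ z ∈ S, ((range e).filter (fun j => (k * τ ^ j) • z = z)).card := by
    simp only [hc, card_filter]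
    rw [sum_comm]
  have hle : ∀ z ∈ S, ((range e).filter (fun j => (k * τ ^ j) • z = z)).card ≤ 1 := by
    intro z hz
    rw [card_le_one]
    intro i hi j hj
    rw [mem_filter, mem_range, mul_smul] at hi hj
    exact hC.inj hz hi.1 hj.1 (MulAction.injective k (hi.2.trans hj.2.symm))
  have hS1 : ∑ _z ∈ S, 1 = e := by rw [sum_const, smul_eq_mul, mul_one, hC.card]
  have hR1 : ∑ _j ∈ range e, 1 = e := by rw [sum_const, smul_eq_mul, mul_one, card_range]
  have h1 : ∑ z ∈ S, ((range e).filter (fun j => (k * τ ^ j) • z = z)).card ≤ e :=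
    (sum_le_sum hle).trans_eq hS1
  have h2 : ∀ j ∈ range e, 1 ≤ c j := fun j _ => hc0.trans (hcj j)
  have h3 : e ≤ ∑ j ∈ range e, c j := hR1.symm.trans_le (sum_le_sum h2)
  have h4 : ∑ j ∈ range e, c j = e := le_antisymm (hsum.trans_le h1) h3
  have h5 := (sum_eq_sum_iff_of_le h2).mp (hR1.trans h4.symm)
  have h6 := (sum_eq_sum_iff_of_le hle).mp ((hsum.symm.trans h4).trans hS1.symm)
  have hc01 : c 0 = 1 := (h5 0 (mem_range.mpr he)).symm
  constructor
  · intro z hz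
    have h7 := h6 z hz
    obtain ⟨j, hj⟩ := card_pos.mp (by rw [h7]; exact Nat.one_pos)
    rw [mem_filter, mem_range] at hj
    refine ⟨j, hj.1, hj.2, ?_⟩
    rw [hnf, hnf0, hc01, ← h5 j (mem_range.mpr hj.1)]
  · intro z hz hkz
    have h7 : c 0 ≤ 1 := hc01.le
    rw [hc] at h7
    simp only [pow_zero, mul_one] at h7
    rw [card_le_one] at h7
    exact h7 z (mem_filter.mpr ⟨hz, hkz⟩) x (mem_filter.mpr ⟨hx, hkx⟩)

theorem min_shift (hmin : ∀ n ∈ N, nf F k ≤ nf F (k * n)) {n : G} (hn : n ∈ N)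
    (h : nf F (k * n) = nf F k) : ∀ m ∈ N, nf F (k * n) ≤ nf F (k * n * m) := by
  intro m hm
  rw [h, mul_assoc]
  exact hmin _ (N.mul_mem hn hm)

theorem CycS.stab' (hC : CycS N F e τ S) (he : 0 < e)
    (hmin : ∀ n ∈ N, nf F k ≤ nf F (k * n)) {x : Ω} (hx : x ∈ S) (hkx : k • x = x) :
    ∀ z ∈ S, k⁻¹ • z ∈ S := by
  intro z hz
  obtain ⟨j, -, hj, -⟩ := (hC.mini he hmin hx hkx).1 z hz
  rw [mul_smul] at hj
  have h1 : k⁻¹ • z = τ ^ j • z := by rw [inv_smul_eq_iff, hj]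
  rw [h1]
  exact hC.powS hz j

theorem CycS.inter (hp : e.Prime) (hC : CycS N F e τ S) (hC' : CycS N F e τ' S')
    (hmin : ∀ n ∈ N, nf F k ≤ nf F (k * n)) {x : Ω} (hx : x ∈ S) (hx' : x ∈ S') (hkx : k • x = x)
    {z : Ω} (hz : z ∈ S) (hz' : z ∈ S') (hzx : z ≠ x) : S ⊆ S' := by
  obtain ⟨h1, h2⟩ := hC.mini hp.pos hmin hx hkx
  obtain ⟨j, hj, hjz, hjn⟩ := h1 z hz
  have hj0 : 0 < j := by
    rcases Nat.eq_zero_or_pos j with h0 | h0
    · rw [h0, pow_zero, mul_one] at hjz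
      exact absurd (h2 z hz hjz) hzx
    · exact h0
  have hmin' := min_shift hmin (N.pow_mem hC.mem j) hjn
  have h3 := hC'.stab' hp.pos hmin' hz' hjz
  have h4 := hC'.stab' hp.pos hmin hx' hkx
  have h5 : ∀ y ∈ S', (k * τ ^ j) • y ∈ S' := by
    have := inv_maps h3
    rwa [inv_inv] at this
  have h6 : ∀ y ∈ S', τ ^ j • y ∈ S' := by
    intro y hy
    have h7 := h4 _ (h5 y hy)
    rwa [mul_smul, inv_smul_smul] at h7
  have h7 : ∀ (i : ℕ), ∀ y ∈ S', (τ ^ j) ^ i • y ∈ S' := by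
    intro i
    induction i with
    | zero => intro y hy; simpa using hy
    | succ i ih =>
      intro y hy
      rw [pow_succ', mul_smul]
      exact h6 _ (ih y hy)
  intro y hy
  obtain ⟨i, hi⟩ := hC.gen hp hx hy hj0 hj
  rw [← hi]
  exact h7 i x hx'

theorem CycS.uniq (hp : e.Prime) (he : 3 ≤ e) (hC : CycS N F e τ S) (hC' : CycS N F e τ' S')
    (hN : ∀ n ∈ N, ∀ z ∈ F, n • z ∈ F)
    (hmin : ∀ n ∈ N, nf F k ≤ nf F (k * n)) {x : Ω} (hx : x ∈ S) (hx' : x ∈ S')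
    (hkx : k • x = x) : S = S' := by
  classical
  by_contra hne
  have hint : ∀ z ∈ S, z ∈ S' → z = x := by
    intro z hz hz'
    by_contra hzx
    have h1 := hC.inter hp hC' hmin hx hx' hkx hz hz' hzx
    exact hne (eq_of_subset_of_card_le h1 (by rw [hC.card, hC'.card]))
  have hC'' := hC.conj τ' (fun z hz => hN τ' hC'.mem z hz)
    (N.mul_mem (N.mul_mem hC'.mem hC.mem) (N.inv_mem hC'.mem))
  have h1 : 1 < (S.erase x).card := by
    rw [card_erase_of_mem hx, hC.card]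
    omega
  obtain ⟨y, hy, z, hz, hyz⟩ := one_lt_card.mp h1
  rw [mem_erase] at hy hz
  have hfixed : ∀ u ∈ S, u ≠ x → τ' • u = u := by
    intro u hu hux
    exact hC'.out u (hC.sub hu) (fun h2 => hux (hint u hu h2))
  have hin : ∀ u ∈ S, u ≠ x → u ∈ S.image (fun z => τ' • z) := by
    intro u hu hux
    exact mem_image.mpr ⟨u, hu, hfixed u hu hux⟩
  obtain ⟨j, hj, hjy, hjn⟩ := (hC.mini hp.pos hmin hx hkx).1 y hy.2
  have hmin' := min_shift hmin (N.pow_mem hC.mem j) hjn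
  have h2 := hC.inter hp hC'' hmin' hy.2 (hin y hy.2 hy.1) hjy hz.2 (hin z hz.2 hz.1)
    (Ne.symm hyz)
  obtain ⟨s, hs, hsx⟩ := mem_image.mp (h2 hx)
  by_cases hsx' : s = x
  · rw [hsx'] at hsx
    have h3 := (hC'.per x hx' 1).mp (by rw [pow_one]; exact hsx)
    have h4 := Nat.le_of_dvd Nat.one_pos h3
    omega
  · rw [hfixed s hs hsx'] at hsx
    exact hsx' hsx

theorem CycS.mk' (hp : e.Prime) (hN : ∀ n ∈ N, ∀ z ∈ F, n • z ∈ F) {x : Ω} (hx : x ∈ F)
    (hτ : τ ∈ N) (h1 : τ • x ≠ x) (h2 : τ ^ e • x = x)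
    (h3 : ∀ z ∈ F, τ • z ≠ z → ∃ j : ℕ, τ ^ j • x = z) :
    ∃ S, CycS N F e τ S ∧ x ∈ S := by
  classical
  have hper : ∀ n : ℕ, τ ^ n • x = x ↔ e ∣ n := by
    intro n
    rw [MulAction.pow_smul_eq_iff_period_dvd]
    have h4 := MulAction.pow_smul_eq_iff_period_dvd.mp h2
    rcases (Nat.dvd_prime hp).mp h4 with h5 | h5
    · exact absurd (MulAction.period_eq_one_iff.mp h5) h1
    · rw [h5]
  have hperj : ∀ j n : ℕ, τ ^ n • (τ ^ j • x) = τ ^ j • x ↔ e ∣ n := by
    intro j n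
    rw [← hper n, ← mul_smul, ← pow_add, add_comm, pow_add, mul_smul]
    exact ⟨fun h => MulAction.injective _ h, fun h => by rw [h]⟩
  have hmod : ∀ j : ℕ, τ ^ j • x = τ ^ (j % e) • x := by
    intro j
    conv_lhs => rw [← Nat.mod_add_div j e, pow_add, mul_smul, (hper _).mpr ⟨_, rfl⟩]
  have hinj : Set.InjOn (fun i => τ ^ i • x) (range e : Set ℕ) := by
    intro a ha b hb hab
    rw [mem_coe, mem_range] at ha hb
    wlog hle : a ≤ b generalizing a b
    · exact (this hb ha hab.symm (by omega)).symm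
    simp only at hab
    have h4 : τ ^ a • (τ ^ (b - a) • x) = τ ^ a • x := by
      rw [← mul_smul, ← pow_add, Nat.add_sub_cancel' hle, hab]
    have h5 := (hper _).mp (MulAction.injective _ h4)
    have h6 := Nat.eq_zero_of_dvd_of_lt h5 (by omega)
    omega
  have hall : ∀ j : ℕ, τ ^ j • x ∈ (range e).image (fun i => τ ^ i • x) := by
    intro j
    rw [hmod]
    exact mem_image.mpr ⟨_, mem_range.mpr (Nat.mod_lt _ hp.pos), rfl⟩
  refine ⟨(range e).image (fun i => τ ^ i • x), ⟨hτ, ?_, ?_, ?_, ?_, ?_⟩, ?_⟩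
  · intro y hy
    obtain ⟨j, -, rfl⟩ := mem_image.mp hy
    exact hN _ (N.pow_mem hτ j) x hx
  · rw [card_image_of_injOn hinj, card_range]
  · intro z hz hzS
    by_contra h4
    obtain ⟨j, rfl⟩ := h3 z hz h4
    exact hzS (hall j)
  · intro z hz
    obtain ⟨j, -, rfl⟩ := mem_image.mp hz
    rw [← mul_smul, ← pow_succ']
    exact hall _
  · intro z hz n
    obtain ⟨j, -, rfl⟩ := mem_image.mp hz
    exact hperj j n
  · have := hall 0
    rwa [pow_zero, one_smul] at this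

/-- a reduction step for derangements -/
theorem derange_step (N : Subgroup G) (F : Finset Ω) (g : G)
    (h : ∀ n ∈ N, ∀ x ∈ F, (g * n) • x = x → ∃ τ ∈ N, τ • x ≠ x ∧
      ∀ z ∈ F, (g * n * τ) • z = z → τ • z = z) : ∃ n ∈ N, ∀ z ∈ F, (g * n) • z ≠ z := by
  classical
  obtain ⟨n, hn, hmin⟩ := WellFounded.has_min
    (InvImage.wf (fun n : G => nf F (g * n)) wellFounded_lt) {n | n ∈ N} ⟨1, N.one_mem⟩
  refine ⟨n, hn, fun x hx hkx => ?_⟩
  obtain ⟨τ, hτ, hτx, hτz⟩ := h n hn x hx hkx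
  apply hmin (n * τ) (N.mul_mem hn hτ)
  change nf F (g * (n * τ)) < nf F (g * n)
  rw [← mul_assoc]
  apply card_lt_card
  rw [ssubset_iff_of_subset]
  · refine ⟨x, mem_filter.mpr ⟨hx, hkx⟩, fun hx' => ?_⟩
    exact hτx (hτz x hx (mem_filter.mp hx').2)
  · intro z hz
    obtain ⟨hzF, hz⟩ := mem_filter.mp hz
    have h1 := hτz z hzF hz
    rw [mul_smul, h1] at hz
    exact mem_filter.mpr ⟨hzF, hz⟩

/-- **Derangements in cosets.** -/
theorem derange (N : Subgroup G) (F : Finset Ω) (e : ℕ) (hp : e.Prime)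
    (hN : ∀ n ∈ N, ∀ z ∈ F, n • z ∈ F)
    (htr : ∀ x ∈ F, ∀ y ∈ F, ∃ h : G, h • x = y ∧ (∀ z ∈ F, h • z ∈ F) ∧
      ∀ n ∈ N, h * n * h⁻¹ ∈ N)
    (hcyc : ∀ x ∈ F, ∃ τ ∈ N, τ • x ≠ x ∧ τ ^ e • x = x ∧
      ∀ z ∈ F, τ • z ≠ z → ∃ j : ℕ, τ ^ j • x = z)
    (he : e = 2 ∨ ¬ e ∣ F.card) (g : G) : ∃ n ∈ N, ∀ z ∈ F, (g * n) • z ≠ z := by
  classical
  obtain ⟨n, hn, hmin⟩ := WellFounded.has_min
    (InvImage.wf (fun n : G => nf F (g * n)) wellFounded_lt) {n | n ∈ N} ⟨1, N.one_mem⟩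
  have hmin' : ∀ m ∈ N, nf F (g * n) ≤ nf F (g * n * m) := by
    intro m hm
    have h1 := hmin (n * m) (N.mul_mem hn hm)
    rw [mul_assoc]
    exact not_lt.mp h1
  have hcy : ∀ y ∈ F, ∃ S τ, CycS N F e τ S ∧ y ∈ S := by
    intro y hy
    obtain ⟨τ, hτ, h1, h2, h3⟩ := hcyc y hy
    obtain ⟨S, hS⟩ := CycS.mk' hp hN hy hτ h1 h2 h3
    exact ⟨S, τ, hS⟩
  refine ⟨n, hn, fun z hz hkz => ?_⟩
  by_cases he2 : e = 2
  · obtain ⟨S, τ, hC, hzS⟩ := hcy z hz
    obtain ⟨h1, h2⟩ := hC.mini hp.pos hmin' hzS hkz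
    have hcard := hC.card
    rw [he2, card_eq_two] at hcard
    have hz' : ∃ z' ∈ S, z' ≠ z := by
      obtain ⟨a, b, hab, hS⟩ := hcard
      by_cases ha : a = z
      · exact ⟨b, by rw [hS]; simp, fun h => hab (ha.trans h.symm)⟩
      · exact ⟨a, by rw [hS]; simp, ha⟩
    obtain ⟨z', hz'S, hzz'⟩ := hz'
    have hmem2 : ∀ y ∈ S, y = z ∨ y = z' := by
      intro y hy
      obtain ⟨a, b, hab, hS⟩ := hcard
      rw [hS] at hzS hz'S hy
      simp only [mem_insert, mem_singleton] at hzS hz'S hy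
      rcases hzS with rfl | rfl <;> rcases hz'S with rfl | rfl <;> rcases hy with rfl | rfl <;>
        simp_all
    obtain ⟨j, hj, hjz, -⟩ := h1 z' hz'S
    rw [he2] at hj
    have hj' : j = 0 ∨ j = 1 := by omega
    rcases hj' with rfl | rfl
    · rw [pow_zero, mul_one] at hjz
      exact hzz' (h2 z' hz'S hjz)
    · rw [pow_one, mul_smul] at hjz
      rcases hmem2 _ (hC.inS z' hz'S) with h3 | h3
      · rw [h3, hkz] at hjz
        exact hzz' hjz.symm
      · have h4 := (hC.per z' hz'S 1).mp (by rw [pow_one]; exact h3)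
        have h5 := Nat.le_of_dvd Nat.one_pos h4
        omega
  · have he3 : 3 ≤ e := by
      have := hp.two_le
      omega
    have hnd : ¬ e ∣ F.card := by
      rcases he with h | h
      · exact absurd h he2
      · exact h
    apply hnd
    have huniq : ∀ y ∈ F, ∀ S1 τ1 S2 τ2, CycS N F e τ1 S1 → CycS N F e τ2 S2 → y ∈ S1 →
        y ∈ S2 → S1 = S2 := by
      intro y hy S1 τ1 S2 τ2 hC1 hC2 hy1 hy2
      obtain ⟨h, hyz, hhF, hhN⟩ := htr y hy z hz
      have h1 := hC1.conj h hhF (hhN _ hC1.mem)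
      have h2 := hC2.conj h hhF (hhN _ hC2.mem)
      have h3 := CycS.uniq hp he3 h1 h2 hN hmin' (x := z) (mem_image.mpr ⟨y, hy1, hyz⟩)
        (mem_image.mpr ⟨y, hy2, hyz⟩) hkz
      exact image_injective (MulAction.injective h) h3
    have hch : ∀ y, ∃ S, y ∈ F → (∃ τ, CycS N F e τ S) ∧ y ∈ S := by
      intro y
      by_cases hy : y ∈ F
      · obtain ⟨S, τ, h1, h2⟩ := hcy y hy
        exact ⟨S, fun _ => ⟨⟨τ, h1⟩, h2⟩⟩
      · exact ⟨∅, fun h => absurd h hy⟩
    choose S hS using hch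
    rw [card_eq_sum_card_image S F]
    apply dvd_sum
    intro b hb
    obtain ⟨y, hy, rfl⟩ := mem_image.mp hb
    obtain ⟨⟨τ, hτ⟩, hyS⟩ := hS y hy
    have h1 : F.filter (fun a => S a = S y) = S y := by
      ext a
      rw [mem_filter]
      constructor
      · rintro ⟨ha, haS⟩
        rw [← haS]
        exact (hS a ha).2
      · intro ha
        have haF := hτ.sub ha
        obtain ⟨⟨τ', hτ'⟩, haS⟩ := hS a haF
        exact ⟨haF, huniq a haF _ _ _ _ hτ' hτ haS ha⟩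
    rw [h1, hτ.card]

end

end Pool.Agent.Arb3
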