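import Pool.Agent.Arb3.Kill2
import Pool.Agent.Arb3.Derange
import Pool.Agent.Arb3.CycL
import Pool.Agent.Arb2.Count

/-!
# The data of one level of the tree
-/

set_option autoImplicit false

open Polynomial NumberField IsDedekindDomain
open scoped WithZero

namespace Pool.Agent.Arb3

open Pool.Agent.TameArb
open Pool.Agent.Arb2 (fib mem_fib card_fib HE mem_HE exists_HE)

section gal

variable {K E L : Type} [Field K] [Field E] [Field L] [Algebra K E] [Algebra K L] [Algebra E L]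
  [IsScalarTower K E L]

/-- the data of one level -/
theorem exists_lvl2 [Normal E L] {φ : K[X]} (hd : 2 ≤ φ.natDegree) (w : L) (h e : ℕ)
    (c : K)
    (htr : ∀ y y' : L, (ph φ)^[h + 1] y = w → (ph φ)^[h + 1] y' = w →
      minpoly E y = minpoly E y')
    (htr0 : ∀ y y' : L, (ph φ)^[h] y = w → (ph φ)^[h] y' = w → minpoly E y = minpoly E y')
    (hsurj : ∀ v : L, (ph φ)^[h] v = w → ∃ z, ph φ z = v)
    (hsw : ∃ σ ∈ HE K E L, σ w = w ∧ ∃ y1 : L, (ph φ)^[h + 1] y1 = w ∧ σ y1 ≠ y1 ∧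
      (∀ z, (ph φ)^[h + 1] z = w → σ z ≠ z → ph φ z = ph φ y1) ∧
      (∀ ζ : K, IsPrimitiveRoot ζ e →
        (∀ x : L, ph φ (algebraMap K L c + algebraMap K L ζ * (x - algebraMap K L c)) = ph φ x) →
        ∀ z, (ph φ)^[h + 1] z = w → σ z ≠ z → ∃ i : ℕ,
          z = algebraMap K L c + algebraMap K L ζ ^ i * (y1 - algebraMap K L c)) ∧
      (e.Prime → (σ ^ e) y1 = y1 ∧
        ∀ z, (ph φ)^[h + 1] z = w → σ z ≠ z → ∃ j : ℕ, (σ ^ j) y1 = z))
    (hcase : (e.Prime ∧ (e = 2 ∨ (¬ e ∣ φ.natDegree ∧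
        ∀ u : L, (ph φ)^[h] u = w → (fib φ hd 1 u).card = φ.natDegree))) ∨
      ∃ ζ : K, IsPrimitiveRoot ζ e ∧ ∀ x : L,
        ph φ (algebraMap K L c + algebraMap K L ζ * (x - algebraMap K L c)) = ph φ x)
    (s : L ≃ₐ[K] L) (hs : s • w = w) :
    Lvl2 (HE K E L ⊓ MulAction.stabilizer (L ≃ₐ[K] L) w) s
      (ph φ) φ.natDegree (fib φ hd (h + 1) w) (fib φ hd h w) := by
  classical
  obtain ⟨σ, hσH, hσw, y1, hy1, hσy1, hσ1, hσ3, hσ2⟩ := hsw
  set H := HE K E L ⊓ MulAction.stabilizer (L ≃ₐ[K] L) w with hH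
  have hit : ∀ (g : L ≃ₐ[K] L) (n : ℕ) (x : L), g ((ph φ)^[n] x) = (ph φ)^[n] (g x) :=
    fun g n x => iter_hom φ (g : L →ₐ[K] L) n x
  have hf : ∀ (g : L ≃ₐ[K] L) (x : L), g (ph φ x) = ph φ (g x) := fun g x => hit g 1 x
  have hfs : ∀ (g : L ≃ₐ[K] L) (x : L), g • (ph φ x) = ph φ (g • x) := fun g x => hit g 1 x
  have hits : ∀ (g : L ≃ₐ[K] L) (n : ℕ) (x : L), g • ((ph φ)^[n] x) = (ph φ)^[n] (g • x) :=
    fun g n x => hit g n x
  have htrg : ∀ n : ℕ, (∀ y y' : L, (ph φ)^[n] y = w → (ph φ)^[n] y' = w →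
      minpoly E y = minpoly E y') → ∀ y y' : L, (ph φ)^[n] y = w → (ph φ)^[n] y' = w →
      ∃ g ∈ H, g • y = y' := by
    intro n htr y y' hy hy'
    obtain ⟨g, hg, hgy⟩ := exists_HE (K := K) (htr y y' hy hy')
    refine ⟨g, Subgroup.mem_inf.mpr ⟨hg, ?_⟩, hgy⟩
    rw [MulAction.mem_stabilizer_iff]
    change g w = w
    conv_lhs => rw [← hy]
    rw [hit, hgy, hy']
  have hinv : ∀ g ∈ H, g • w = w := by
    intro g hg
    have h2 := (Subgroup.mem_inf.mp hg).2
    rw [MulAction.mem_stabilizer_iff] at h2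
    exact h2
  have hmemT : ∀ x, x ∈ fib φ hd (h + 1) w ↔ (ph φ)^[h + 1] x = w := fun x => mem_fib hd
  have hmemU : ∀ x, x ∈ fib φ hd h w ↔ (ph φ)^[h] x = w := fun x => mem_fib hd
  have hmem1 : ∀ u x : L, x ∈ fib φ hd 1 u ↔ ph φ x = u := by
    intro u x
    rw [mem_fib, Function.iterate_one]
  have hmaps : ∀ g : L ≃ₐ[K] L, g • w = w → ∀ n : ℕ, ∀ x : L, (ph φ)^[n] x = w →
      (ph φ)^[n] (g • x) = w := by
    intro g hg n x hx
    rw [← hits, hx, hg]
  have hTu : ∀ u z : L, (ph φ)^[h] u = w → ph φ z = u → (ph φ)^[h + 1] z = w := by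
    intro u z hu hz
    rw [Function.iterate_succ_apply, hz, hu]
  constructor
  · intro g x
    exact (hf g x).symm
  · intro x hx
    rw [hmemT] at hx
    rw [hmemU, ← hx, Function.iterate_succ_apply]
  · intro g hg x hx
    rw [hmemT] at hx ⊢
    exact hmaps g (hinv g hg) _ x hx
  · intro g hg x hx
    rw [hmemU] at hx ⊢
    exact hmaps g (hinv g hg) _ x hx
  · intro x hx
    rw [hmemU] at hx ⊢
    apply hmaps s⁻¹ _ _ x hx
    rw [inv_smul_eq_iff, hs]
  · intro x hx y hy
    rw [hmemU] at hx hy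
    exact htrg h htr0 x y hx hy
  · intro u _ S _ hS2
    have h2 : S ⊆ fib φ hd 1 u := fun y hy => (hmem1 u y).mpr (hS2 y hy)
    refine (Finset.card_le_card h2).trans ?_
    have h3 := card_fib (L := L) hd (m := 1) (y := u)
    rwa [pow_one] at h3
  · intro u hu g hg hgu
    rw [hmemU] at hu
    -- the local group
    let N : Subgroup (L ≃ₐ[K] L) :=
      { carrier := {r | r ∈ H ∧ ∀ z : L, (ph φ)^[h + 1] z = w → ph φ z ≠ u → r • z = z}
        mul_mem' := by
          rintro a b ⟨ha, ha'⟩ ⟨hb, hb'⟩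
          refine ⟨H.mul_mem ha hb, fun z hz hzu => ?_⟩
          rw [mul_smul, hb' z hz hzu, ha' z hz hzu]
        one_mem' := ⟨H.one_mem, fun z _ _ => one_smul _ _⟩
        inv_mem' := by
          rintro a ⟨ha, ha'⟩
          refine ⟨H.inv_mem ha, fun z hz hzu => ?_⟩
          rw [inv_smul_eq_iff, ha' z hz hzu] }
    have hmemN : ∀ r, r ∈ N ↔ (r ∈ H ∧ ∀ z : L, (ph φ)^[h + 1] z = w → ph φ z ≠ u →
      r • z = z) := fun r => Iff.rfl
    -- they fix the previous level
    have hNU : ∀ r ∈ N, ∀ v : L, (ph φ)^[h] v = w → r • v = v := by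
      intro r hr
      have h1 : ∀ v : L, (ph φ)^[h] v = w → v ≠ u → r • v = v := by
        intro v hv hvu
        obtain ⟨z, hz⟩ := hsurj v hv
        rw [← hz, hfs, hr.2 z (hTu v z hv hz) (by rw [hz]; exact hvu)]
      intro v hv
      by_cases hvu : v = u
      · by_contra h2
        have h3 := hmaps r (hinv r hr.1) h v hv
        have h4 := h1 (r • v) h3 (by rw [← hvu]; exact h2)
        exact h2 (MulAction.injective r h4)
      · exact h1 v hv hvu
    have hNF : ∀ n ∈ N, ∀ z ∈ fib φ hd 1 u, n • z ∈ fib φ hd 1 u := by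
      intro n hn z hz
      rw [hmem1] at hz ⊢
      rw [← hfs, hz, hNU n hn u hu]
    -- conjugates of `σ`
    have hσHs : σ ∈ H := Subgroup.mem_inf.mpr ⟨hσH, by
      rw [MulAction.mem_stabilizer_iff]; exact hσw⟩
    have hcyc : ∀ x ∈ fib φ hd 1 u, ∃ k ∈ H, k • y1 = x ∧ k * σ * k⁻¹ ∈ N := by
      intro x hx
      rw [hmem1] at hx
      obtain ⟨k, hk, hky⟩ := htrg (h + 1) htr y1 x hy1 (hTu u x hu hx)
      refine ⟨k, hk, hky, ?_⟩
      rw [hmemN]
      refine ⟨H.mul_mem (H.mul_mem hk hσHs) (H.inv_mem hk), fun z hz hzu => ?_⟩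
      have h1 : (ph φ)^[h + 1] (k⁻¹ • z) = w := hmaps k⁻¹ (hinv _ (H.inv_mem hk)) _ z hz
      have h2 : σ • (k⁻¹ • z) = k⁻¹ • z := by
        by_contra h3
        have h4 := hσ1 _ h1 h3
        apply hzu
        rw [← hfs, inv_smul_eq_iff, hfs, hky, hx] at h4
        exact h4
      rw [mul_smul, mul_smul, h2, smul_inv_smul]
    have hmoved : ∀ (k : L ≃ₐ[K] L) (x : L), k • y1 = x → (k * σ * k⁻¹) • x ≠ x := by
      intro k x hky h1
      rw [← hky, mul_smul, mul_smul, inv_smul_smul] at h1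
      exact hσy1 (MulAction.injective k h1)
    have hpow : ∀ (k : L ≃ₐ[K] L) (x : L) (j : ℕ), k • y1 = x →
        (k * σ * k⁻¹) ^ j • x = k • (σ ^ j • y1) := by
      intro k x j hky
      rw [conj_pow, ← hky, mul_smul, mul_smul, inv_smul_smul]
    have hdone : ∃ n ∈ N, ∀ z ∈ fib φ hd 1 u, (s * g * n) • z ≠ z := by
      rcases hcase with ⟨hp, hcase⟩ | ⟨ζ, hζ, hrot⟩
      · obtain ⟨hσe, hσj⟩ := hσ2 hp
        refine derange N (fib φ hd 1 u) e hp hNF ?_ ?_ ?_ (s * g)
        · intro x hx y hy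
          rw [hmem1] at hx hy
          obtain ⟨k, hk, hkx⟩ := htrg (h + 1) htr x y (hTu u x hu hx) (hTu u y hu hy)
          have hku : k • u = u := by
            rw [← hx, hfs, hkx, hy, hx]
          refine ⟨k, hkx, ?_, ?_⟩
          · intro z hz
            rw [hmem1] at hz ⊢
            rw [← hfs, hz, hku]
          · intro n hn
            rw [hmemN] at hn ⊢
            refine ⟨H.mul_mem (H.mul_mem hk hn.1) (H.inv_mem hk), fun z hz hzu => ?_⟩
            have h1 : (ph φ)^[h + 1] (k⁻¹ • z) = w := hmaps k⁻¹ (hinv _ (H.inv_mem hk)) _ z hz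
            have h2 : n • (k⁻¹ • z) = k⁻¹ • z := by
              apply hn.2 _ h1
              intro h3
              apply hzu
              rw [← hfs, inv_smul_eq_iff, hku] at h3
              exact h3
            rw [mul_smul, mul_smul, h2, smul_inv_smul]
        · intro x hx
          obtain ⟨k, hk, hky, hkN⟩ := hcyc x hx
          refine ⟨_, hkN, hmoved k x hky, ?_, ?_⟩
          · rw [hpow k x e hky]
            have h1 : σ ^ e • y1 = y1 := hσe
            rw [h1, hky]
          · intro z hz hzm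
            rw [hmem1] at hz
            have h1 : (ph φ)^[h + 1] (k⁻¹ • z) = w :=
              hmaps k⁻¹ (hinv _ (H.inv_mem hk)) _ z (hTu u z hu hz)
            obtain ⟨j, hj⟩ := hσj (k⁻¹ • z) h1 (by
              intro h2
              apply hzm
              have h3 : σ • (k⁻¹ • z) = k⁻¹ • z := h2
              rw [mul_smul, mul_smul, h3, smul_inv_smul])
            refine ⟨j, ?_⟩
            have h2 : σ ^ j • y1 = k⁻¹ • z := hj
            rw [hpow k x j hky, h2, smul_inv_smul]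
        · rcases hcase with h1 | ⟨h1, h2⟩
          · exact Or.inl h1
          · right
            rw [h2 u hu]
            exact h1
      · -- the rotational case
        have hrotg : ∀ (k : L ≃ₐ[K] L) (i : ℕ) (x : L),
            k • (algebraMap K L c + algebraMap K L ζ ^ i * (x - algebraMap K L c)) =
              algebraMap K L c + algebraMap K L ζ ^ i * (k • x - algebraMap K L c) := by
          intro k i x
          change k (algebraMap K L c + algebraMap K L ζ ^ i * (x - algebraMap K L c)) =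
              algebraMap K L c + algebraMap K L ζ ^ i * (k x - algebraMap K L c)
          rw [map_add, map_mul, map_pow, map_sub, k.commutes, k.commutes]
        apply derange_step
        intro n hn x hx hkx
        obtain ⟨k, hk, hky, hkN⟩ := hcyc x hx
        have hblk : ∀ z ∈ fib φ hd 1 u, (k * σ * k⁻¹) • z ≠ z → ∃ i : ℕ,
            z = algebraMap K L c + algebraMap K L ζ ^ i * (x - algebraMap K L c) := by
          intro z hz hzm
          rw [hmem1] at hz
          have h1 : (ph φ)^[h + 1] (k⁻¹ • z) = w :=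
            hmaps k⁻¹ (hinv _ (H.inv_mem hk)) _ z (hTu u z hu hz)
          obtain ⟨i, hi⟩ := hσ3 ζ hζ hrot (k⁻¹ • z) h1 (by
            intro h2
            apply hzm
            have h3 : σ • (k⁻¹ • z) = k⁻¹ • z := h2
            rw [mul_smul, mul_smul, h3, smul_inv_smul])
          refine ⟨i, ?_⟩
          rw [inv_smul_eq_iff, hrotg, hky] at hi
          exact hi
        refine ⟨_, hkN, hmoved k x hky, fun z hz hzf => ?_⟩
        by_contra hzm
        have hτz : (k * σ * k⁻¹) • ((k * σ * k⁻¹) • z) ≠ (k * σ * k⁻¹) • z :=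
          fun h2 => hzm (MulAction.injective _ h2)
        obtain ⟨i, hi⟩ := hblk _ (hNF _ hkN z hz) hτz
        rw [mul_smul (s * g * n), hi, hrotg, hkx, ← hi] at hzf
        exact hzm hzf
    obtain ⟨n, hn, hn2⟩ := hdone
    refine ⟨n, hn.1, ?_, ?_, ?_⟩
    · intro z hz hzu
      exact hn.2 z ((hmemT z).mp hz) hzu
    · intro v hv
      exact hNU n hn v ((hmemU v).mp hv)
    · intro z _ hzu
      exact hn2 z ((hmem1 u z).mpr hzu)

end gal

end Pool.Agent.Arb3
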