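import Pool.Agent.Arb3.NormP
import Pool.Agent.Arb2.Swap1

/-!
# Preimages near a critical point of higher multiplicity: local analysis
-/

set_option autoImplicit false

open Polynomial
open scoped WithZero

namespace Pool.Agent.Arb3

open Pool.Agent.TameArb
open Pool.Agent.Arb2 (hasse_map val_diff overComap)

/-- The conditions on the finite set `D` of nonzero elements that have to be units. -/
structure DP {K : Type} [Field K] (φ : K[X]) (c : K) (e B : ℕ) (D : Finset K) : Prop where
  ne : ∀ a ∈ D, a ≠ 0
  coeff : ∀ i, φ.coeff i ≠ 0 → φ.coeff i ∈ D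
  deg : (φ.natDegree : K) ∈ D
  crit : ∀ a, (derivative φ).eval a = 0 → a ≠ 0 → a ∈ D
  top : (hasseDeriv e φ).eval c ∈ D
  exp : (e : K) ∈ D
  diff : ∀ a, (derivative φ).eval a = 0 → ∀ i j, 1 ≤ i → i ≤ j → j ≤ B →
    (a = c → i ≠ j) → (ph φ)^[i] a - (ph φ)^[j] c ∈ D

section

variable {L : Type*} [Field L] {V : Valuation L ℤᵐ⁰}

/-- the number of zeros near a point -/
theorem roots_bound {P : L[X]} (hP : IntP V P) {a : L} (ha : V a ≤ 1) (e : ℕ)
    (he : V ((hasseDeriv e P).eval a) = 1) (S : Finset L) (hS1 : ∀ y ∈ S, V (y - a) < 1)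
    (hS2 : ∀ y ∈ S, P.eval y = 0) : S.card ≤ e := by
  classical
  induction e generalizing P S with
  | zero =>
    rw [Nat.le_zero, Finset.card_eq_zero, Finset.eq_empty_iff_forall_notMem]
    intro y hy
    have h1 := hS1 y hy
    have hyi : V y ≤ 1 := by
      have : y = (y - a) + a := by ring
      rw [this]; exact Valuation.map_add_le _ h1.le ha
    have h2 := cong_eval hP ha hyi
    rw [hS2 y hy, zero_sub, Valuation.map_neg] at h2
    rw [hasseDeriv_zero'] at he
    rw [he] at h2
    exact absurd h1 (not_lt.mpr h2)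
  | succ e ih =>
    rcases S.eq_empty_or_nonempty with rfl | ⟨y, hy⟩
    · simp
    · have h1 := hS1 y hy
      have hyi : V y ≤ 1 := by
        have : y = (y - a) + a := by ring
        rw [this]; exact Valuation.map_add_le _ h1.le ha
      set T := taylor y P with hT
      have hTi : IntP V T := hP.taylor hyi
      set S1 := divX T with hS1'
      have hS1c : ∀ i, S1.coeff i = T.coeff (i + 1) := fun i => coeff_divX
      have hS1i : IntP V S1 := fun i => by rw [hS1c]; exact hTi _
      set Q := taylor (-y) S1 with hQ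
      have hQi : IntP V Q := hS1i.taylor (by rwa [Valuation.map_neg])
      have hPQ : P = (X - C y) * Q := by
        have h3 : T = S1 * X := by
          have h4 := divX_mul_X_add T
          rw [hT, taylor_coeff_zero, hS2 y hy, C_0, add_zero] at h4
          exact h4.symm
        have h5 : taylor (-y) T = P := by
          rw [hT, taylor_taylor, neg_add_cancel, taylor_zero]
        rw [← h5, h3, taylor_mul, taylor_X, hQ, C_neg]
        ring
      have hQe : V ((hasseDeriv e Q).eval a) = 1 := by
        have h3 : (hasseDeriv (e + 1) P).eval a =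
            (hasseDeriv e Q).eval a + (a - y) * (hasseDeriv (e + 1) Q).eval a := by
          rw [← taylor_coeff, ← taylor_coeff, ← taylor_coeff, hPQ, taylor_mul, map_sub, taylor_X,
            taylor_C]
          have h4 : (X + C a - C y) * (taylor a) Q =
              (taylor a) Q * X + C (a - y) * (taylor a) Q := by
            rw [C_sub]; ring
          rw [h4, coeff_add, coeff_mul_X, coeff_C_mul]
        have h4 : V ((a - y) * (hasseDeriv (e + 1) Q).eval a) < 1 := by
          rw [map_mul, mul_comm]
          refine mul_lt_one_aux (eval_le (hQi.hasse _) ha) ?_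
          rw [Valuation.map_sub_swap]; exact h1
        have h5 : (hasseDeriv e Q).eval a = (hasseDeriv (e + 1) P).eval a -
            (a - y) * (hasseDeriv (e + 1) Q).eval a := by rw [h3]; ring
        rw [h5, Valuation.map_sub_eq_of_lt_left, he]
        rw [he]; exact h4
      have h6 := ih hQi hQe (S.erase y) (fun z hz => hS1 z (Finset.mem_of_mem_erase hz))
        (fun z hz => by
          have h7 := hS2 z (Finset.mem_of_mem_erase hz)
          rw [hPQ, eval_mul, eval_sub, eval_X, eval_C] at h7
          exact (mul_eq_zero.mp h7).resolve_left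
            (sub_ne_zero.mpr (Finset.ne_of_mem_erase hz)))
      rw [Finset.card_erase_of_mem hy] at h6
      omega

/-- the expansion at a critical point -/
theorem exists_H {P : L[X]} (hP : IntP V P) {a : L} (ha : V a ≤ 1) {e : ℕ}
    (hl : ∀ i, 0 < i → i < e → (hasseDeriv i P).eval a = 0) (he : 0 < e) :
    ∃ H : L[X], IntP V H ∧ H.eval 0 = (hasseDeriv e P).eval a ∧
      ∀ y, P.eval y = P.eval a + (y - a) ^ e * H.eval (y - a) := by
  set T := taylor a P with hT
  have hTi : IntP V T := hP.taylor ha
  have hdvd : X ^ e ∣ T - C (P.eval a) := by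
    rw [X_pow_dvd_iff]
    intro k hk
    rw [coeff_sub, coeff_C]
    rcases Nat.eq_zero_or_pos k with h0 | h0
    · rw [if_pos h0, h0, hT, taylor_coeff_zero, sub_self]
    · rw [if_neg h0.ne', sub_zero, hT, taylor_coeff]
      exact hl k h0 hk
  obtain ⟨H, hH⟩ := hdvd
  have hHc : ∀ i, H.coeff i = T.coeff (i + e) := by
    intro i
    have h1 := congrArg (fun p => p.coeff (i + e)) hH
    simp only [coeff_sub] at h1
    rw [coeff_C, if_neg (by omega), sub_zero, coeff_X_pow_mul] at h1
    exact h1.symm
  refine ⟨H, fun i => by rw [hHc]; exact hTi _, ?_, ?_⟩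
  · rw [← coeff_zero_eq_eval_zero, hHc, zero_add, hT, taylor_coeff]
  · intro y
    have h1 := congrArg (eval (y - a)) hH
    rw [eval_sub, eval_C, eval_mul, eval_pow, eval_X, hT, taylor_eval, sub_add_cancel] at h1
    rw [← h1]; ring

theorem H_unit {H : L[X]} (hH : IntP V H) (h0 : V (H.eval 0) = 1) {t : L} (ht : V t < 1) :
    V (H.eval t) = 1 := by
  have h1 := cong_eval hH (y := (0 : L)) (z := t) (by simp) ht.le
  rw [sub_zero] at h1
  have h2 : H.eval t = H.eval 0 + (H.eval t - H.eval 0) := by ring
  rw [h2, Valuation.map_add_eq_of_lt_left, h0]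
  rw [h0]; exact h1.trans_lt ht

/-- the value near a critical point -/
theorem val_near {P : L[X]} (hP : IntP V P) {a y : L} (ha : V a ≤ 1) {e : ℕ} (he : 0 < e)
    (hl : ∀ i, 0 < i → i < e → (hasseDeriv i P).eval a = 0)
    (h2 : V ((hasseDeriv e P).eval a) = 1)
    (hy : V (y - a) < 1) : V (P.eval y - P.eval a) = V (y - a) ^ e := by
  obtain ⟨H, hH, h0, hE⟩ := exists_H hP ha hl he
  rw [hE y, add_sub_cancel_left, map_mul, map_pow, H_unit hH (by rw [h0]; exact h2) hy, mul_one]

/-- ratios close to one -/
theorem ratio_close {e : ℕ} (heV : V (e : L) = 1) {ρ : L} (hρ : V (ρ - 1) < 1) :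
    V (ρ ^ e - 1) = V (ρ - 1) := by
  have h1 : ρ ^ e - 1 = (∑ i ∈ Finset.range e, ρ ^ i) * (ρ - 1) := (geom_sum_mul ρ e).symm
  have hρ1 : V ρ = 1 := by
    have : ρ = 1 + (ρ - 1) := by ring
    rw [this, Valuation.map_add_eq_of_lt_left, map_one]
    rw [map_one]; exact hρ
  have h2 : ∀ i, V (ρ ^ i - 1) < 1 := by
    intro i
    induction i with
    | zero => simp
    | succ i ih =>
      have : ρ ^ (i + 1) - 1 = (ρ ^ i - 1) * ρ + (ρ - 1) := by rw [pow_succ]; ring
      rw [this]
      apply Valuation.map_add_lt _ _ hρ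
      rw [map_mul, hρ1, mul_one]
      exact ih
  have h3 : V (∑ i ∈ Finset.range e, ρ ^ i) = 1 := by
    have h4 : ∑ i ∈ Finset.range e, ρ ^ i = (e : L) + ∑ i ∈ Finset.range e, (ρ ^ i - 1) := by
      rw [Finset.sum_sub_distrib, Finset.sum_const, Finset.card_range]
      simp
    rw [h4, Valuation.map_add_eq_of_lt_left, heV]
    rw [heV]
    apply Valuation.map_sum_lt _ one_ne_zero
    intro i _
    exact h2 i
  rw [h1, map_mul, h3, one_mul]

/-- points of a fibre near a critical point are well separated -/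
theorem sep {P : L[X]} (hP : IntP V P) {a y y' : L} (ha : V a ≤ 1) {e : ℕ} (he : 0 < e)
    (heV : V (e : L) = 1)
    (hl : ∀ i, 0 < i → i < e → (hasseDeriv i P).eval a = 0)
    (h2 : V ((hasseDeriv e P).eval a) = 1)
    (hy : V (y - a) < 1) (hy' : V (y' - a) < 1) (heq : P.eval y = P.eval y')
    (hlt : V (y' - y) < V (y - a)) : y' = y := by
  obtain ⟨H, hH, h0, hE⟩ := exists_H hP ha hl he
  set t := y - a with ht
  set t' := y' - a with ht'
  have ht0 : t ≠ 0 := by
    intro h
    rw [h, map_zero] at hlt
    exact absurd hlt (not_lt.mpr zero_le)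
  have hu := H_unit hH (by rw [h0]; exact h2) hy
  have hu' := H_unit hH (by rw [h0]; exact h2) hy'
  have h3 : t ^ e * H.eval t = t' ^ e * H.eval t' := by
    rw [hE y, hE y', ← ht, ← ht'] at heq
    exact add_left_cancel heq
  set ρ := t' / t with hρ
  have hρt : t' = ρ * t := by rw [hρ, div_mul_cancel₀ _ ht0]
  have hvt : V t ≠ 0 := (Valuation.ne_zero_iff _).mpr ht0
  have hρ1 : V (ρ - 1) * V t = V (y' - y) := by
    rw [← map_mul]
    congr 1
    rw [sub_mul, one_mul, ← hρt, ht, ht']
    ring
  have hρlt : V (ρ - 1) < 1 := by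
    by_contra hcon
    push Not at hcon
    rw [← hρ1] at hlt
    exact absurd hlt (not_lt.mpr (le_mul_of_one_le_left' hcon))
  have h4 := ratio_close heV hρlt
  have h5 : ρ ^ e * H.eval t' = H.eval t := by
    have h6 : t ^ e * H.eval t = t ^ e * (ρ ^ e * H.eval t') := by
      rw [h3, hρt, mul_pow]; ring
    exact (mul_left_cancel₀ (pow_ne_zero _ ht0) h6).symm
  have h6 : V (ρ ^ e - 1) ≤ V (t - t') := by
    have h7 : (ρ ^ e - 1) * H.eval t' = H.eval t - H.eval t' := by rw [← h5]; ring
    have h8 := cong_eval hH (y := t') (z := t) hy'.le hy.le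
    rw [← h7, map_mul, hu', mul_one] at h8
    exact h8
  have h7 : V (t - t') = V (ρ - 1) * V t := by
    rw [hρ1, ht, ht', Valuation.map_sub_swap]
    congr 1
    ring
  rw [h4, h7] at h6
  have h8 : V (ρ - 1) = 0 := by
    by_contra hcon
    have h9 : 0 < V (ρ - 1) := zero_lt_iff.mpr hcon
    have h10 : V (ρ - 1) * V t < V (ρ - 1) := mul_lt_of_lt_one_right h9 hy
    exact absurd h6 (not_le.mpr h10)
  rw [Valuation.zero_iff, sub_eq_zero] at h8
  rw [h8, one_mul] at hρt
  have : y' = t' + a := by rw [ht']; ring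
  rw [this, hρt, ht]; ring

end

section

variable {K : Type} [Field K] [CharZero K] {L : Type*} [Field L] [Algebra K L]
  {V : Valuation L ℤᵐ⁰} {φ : K[X]} {c : K} {e B : ℕ} {D : Finset K}

omit [CharZero K] in
theorem DP.good (hD : DP φ c e B D) (hd : 2 ≤ φ.natDegree)
    (hV : ∀ a ∈ D, V (algebraMap K L a) = 1) : Good (V.comap (algebraMap K L)) φ := by
  refine ⟨fun i => ?_, ?_⟩
  · by_cases h : φ.coeff i = 0
    · rw [h, map_zero]; exact zero_le
    · exact (hV _ (hD.coeff i h)).le
  · have h : φ.leadingCoeff ≠ 0 := leadingCoeff_ne_zero.mpr (by rintro rfl; simp at hd)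
    exact hV _ (hD.coeff _ h)

omit [CharZero K] in
theorem DP.crit_le (hD : DP φ c e B D) (hV : ∀ a ∈ D, V (algebraMap K L a) = 1) {a : K}
    (ha : (derivative φ).eval a = 0) : V (algebraMap K L a) ≤ 1 := by
  by_cases h : a = 0
  · rw [h, map_zero, map_zero]; exact zero_le
  · exact (hV _ (hD.crit a ha h)).le

theorem DP.crit_close (hD : DP φ c e B D) (hd : 2 ≤ φ.natDegree)
    (hV : ∀ a ∈ D, V (algebraMap K L a) = 1) (hs : (derivative φ).Splits) {x : L}
    (hx : V (((derivative φ).map (algebraMap K L)).eval x) < 1) :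
    ∃ a : K, (derivative φ).eval a = 0 ∧ V (x - algebraMap K L a) < 1 := by
  have hd0 : derivative φ ≠ 0 := by
    intro h
    have h1 := natDegree_derivative φ
    rw [h, natDegree_zero] at h1
    omega
  have hl : V (algebraMap K L (derivative φ).leadingCoeff) = 1 := by
    have h1 := hV _ (hD.coeff φ.natDegree (leadingCoeff_ne_zero.mpr (by rintro rfl; simp at hd)))
    rw [coeff_natDegree] at h1
    rw [leadingCoeff_derivative, map_mul, map_mul, hV _ hD.deg, h1, mul_one]
  by_contra hcon
  push Not at hcon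
  have hE : ((derivative φ).map (algebraMap K L)).eval x =
      algebraMap K L (derivative φ).leadingCoeff *
        (((derivative φ).roots.map (algebraMap K L)).map (x - ·)).prod := by
    rw [(hs.map (algebraMap K L)).eval_eq_prod_roots, leadingCoeff_map, hs.roots_map]
  rw [hE, map_mul, hl, one_mul, map_multiset_prod, Multiset.map_map, Multiset.map_map] at hx
  have h1 : 1 ≤ (((derivative φ).roots.map ((⇑V ∘ fun y => x - y) ∘ ⇑(algebraMap K L)))).prod := by
    apply Multiset.one_le_prod_of_one_le
    intro y hy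
    obtain ⟨a, ha, rfl⟩ := Multiset.mem_map.mp hy
    rw [mem_roots hd0] at ha
    exact hcon a ha
  exact absurd hx (not_lt.mpr h1)

variable (hD : DP φ c e B D) (hd : 2 ≤ φ.natDegree) (hV : ∀ a ∈ D, V (algebraMap K L a) = 1)
  (hs : (derivative φ).Splits) (hc : (derivative φ).eval c = 0)

include hD hd hV hs hc

/-- colliding points of a fibre are near the critical point -/
theorem DP.coll {h : ℕ} (h1 : 1 ≤ h) (hB : h ≤ B) {w y y' : L}
    (hcw : V ((ph φ)^[h] (algebraMap K L c) - w) < 1)
    (hy : (ph φ)^[h] y = w) (hy' : (ph φ)^[h] y' = w) (hyi : V y ≤ 1) (hyi' : V y' ≤ 1)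
    (hne : y ≠ y') (hcl : V (y - y') < 1) :
    V (y - algebraMap K L c) < 1 ∧ ph φ y = ph φ y' := by
  classical
  have ho := overComap (K := K) V
  have hg := hD.good hd hV
  have hci : V (algebraMap K L c) ≤ 1 := hD.crit_le hV hc
  have hex : ∃ i, (ph φ)^[i] y = (ph φ)^[i] y' := ⟨h, by rw [hy, hy']⟩
  set i := Nat.find hex with hi
  have hi1 : (ph φ)^[i] y = (ph φ)^[i] y' := Nat.find_spec hex
  have hih : i ≤ h := Nat.find_min' hex (by rw [hy, hy'])
  have hi0 : i ≠ 0 := by
    intro h0
    rw [h0] at hi1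
    exact hne hi1
  obtain ⟨k, hk⟩ : ∃ k, i = k + 1 := ⟨i - 1, by omega⟩
  have hlt : (ph φ)^[k] y ≠ (ph φ)^[k] y' := Nat.find_min hex (by omega)
  set a := (ph φ)^[k] y with ha
  set a' := (ph φ)^[k] y' with ha'
  have hai : V a ≤ 1 := ho.iter_le hg hyi k
  have haa : V (a - a') < 1 := ho.cong_iter hg hyi hyi' hcl k
  have heq : ph φ a = ph φ a' := by
    rw [hk, Function.iterate_succ_apply', Function.iterate_succ_apply'] at hi1
    exact hi1
  -- the derivative at `a` is not a unit
  have hder : V (((derivative φ).map (algebraMap K L)).eval a) < 1 := by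
    have hle : V ((derivative (φ.map (algebraMap K L))).eval a) ≤ 1 :=
      eval_le (ho.intP hg.int).derivative hai
    rw [derivative_map] at hle
    refine lt_of_le_of_ne hle fun h1 => hlt ?_
    have := eq_of_simple (ho.intP hg.int) hai (z := a') (by rw [Valuation.map_sub_swap]; exact haa)
      (by rw [← ph_eq_eval_map, ← ph_eq_eval_map, heq]) (by rw [derivative_map]; exact h1)
    exact this.symm
  obtain ⟨b, he, hae⟩ := hD.crit_close hd hV hs hder
  have hei : V (algebraMap K L b) ≤ 1 := hD.crit_le hV he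
  -- images
  have h2 : V ((ph φ)^[h - k] a - (ph φ)^[h - k] (algebraMap K L b)) < 1 :=
    ho.cong_iter hg hai hei hae _
  have h3 : (ph φ)^[h - k] a = w := by
    rw [ha, ← Function.iterate_add_apply, show h - k + k = h by omega, hy]
  rw [h3] at h2
  have h4 : V (algebraMap K L ((ph φ)^[h - k] b - (ph φ)^[h] c)) < 1 := by
    rw [map_sub, iter_algebraMap, iter_algebraMap]
    have : (ph φ)^[h - k] (algebraMap K L b) - (ph φ)^[h] (algebraMap K L c) =
        -((ph φ)^[h] (algebraMap K L c) - w) - (w - (ph φ)^[h - k] (algebraMap K L b)) := by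
      ring
    rw [this]
    exact Valuation.map_sub_lt _ (by rw [Valuation.map_neg]; exact hcw) h2
  have h5 : b = c ∧ h - k = h := by
    by_contra hcon
    have h6 := hV _ (hD.diff b he (h - k) h (by omega) (by omega) hB (fun h7 h8 =>
      hcon ⟨h7, h8⟩))
    rw [h6] at h4
    exact lt_irrefl _ h4
  have hk0 : k = 0 := by omega
  rw [hk0] at ha hk
  rw [hk] at hi1
  refine ⟨?_, hi1⟩
  have hay : a = y := by rw [ha]; rfl
  rw [h5.1, hay] at hae
  exact hae

/-- the valuation of the critical value -/
theorem DP.val (he : 0 < e) (hl : ∀ i, 0 < i → i < e → (hasseDeriv i φ).eval c = 0) {h : ℕ}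
    (h1 : 1 ≤ h) (hB : h ≤ B) {w y : L}
    (hy : (ph φ)^[h] y = w) (hyc : V (y - algebraMap K L c) < 1) :
    V ((ph φ)^[h] (algebraMap K L c) - w) = V (y - algebraMap K L c) ^ e := by
  have ho := overComap (K := K) V
  have hg := hD.good hd hV
  have hci : V (algebraMap K L c) ≤ 1 := hD.crit_le hV hc
  have hyi : V y ≤ 1 := by
    have : y = (y - algebraMap K L c) + algebraMap K L c := by ring
    rw [this]; exact Valuation.map_add_le _ hyc.le hci
  have hint := ho.intP hg.int
  have hev : ∀ i, (hasseDeriv i (φ.map (algebraMap K L))).eval (algebraMap K L c) =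
      algebraMap K L ((hasseDeriv i φ).eval c) := by
    intro i
    rw [hasse_map, eval_map_algebraMap, aeval_algebraMap_apply_eq_algebraMap_eval]
  have h2 := val_near hint hci he (fun i h0 h1 => by rw [hev, hl i h0 h1, map_zero])
    (by rw [hev]; exact hV _ hD.top) hyc
  -- further iterates
  have key : ∀ j, 1 ≤ j → j ≤ h → V ((ph φ)^[j] y - (ph φ)^[j] (algebraMap K L c)) =
      V (y - algebraMap K L c) ^ e := by
    intro j hj
    induction j, hj using Nat.le_induction with
    | base =>
      intro _
      rw [Function.iterate_one, ph_eq_eval_map, ph_eq_eval_map]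
      exact h2
    | succ j hj ih =>
      intro hjh
      have h3 := ih (by omega)
      rw [Function.iterate_succ_apply', Function.iterate_succ_apply', ← h3, ph_eq_eval_map,
        ph_eq_eval_map]
      apply val_diff hint (ho.iter_le hg hci j) (ho.cong_iter hg hyi hci hyc j)
      have hle : V ((derivative (φ.map (algebraMap K L))).eval
          ((ph φ)^[j] (algebraMap K L c))) ≤ 1 :=
        eval_le hint.derivative (ho.iter_le hg hci j)
      refine le_antisymm hle (not_lt.mp fun hlt => ?_)
      rw [derivative_map] at hlt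
      obtain ⟨b, he, hae⟩ := hD.crit_close hd hV hs hlt
      have hei : V (algebraMap K L b) ≤ 1 := hD.crit_le hV he
      have h4 := ho.cong hg (ho.iter_le hg hci j) hei hae
      rw [← Function.iterate_succ_apply' (ph φ)] at h4
      have h5 : V (algebraMap K L ((ph φ)^[1] b - (ph φ)^[j + 1] c)) < 1 := by
        rw [map_sub, iter_algebraMap, iter_algebraMap, Function.iterate_one,
          Valuation.map_sub_swap]
        exact h4
      rw [hV _ (hD.diff b he 1 (j + 1) le_rfl (by omega) (by omega)
        (fun _ => by omega))] at h5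
      exact lt_irrefl _ h5
  have h3 := key h h1 le_rfl
  rw [hy] at h3
  rw [Valuation.map_sub_swap, h3]

end

end Pool.Agent.Arb3
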