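import Pool.Agent.Arb3.Cyc1
import Pool.Agent.Arb2.Swap

/-!
# Cycles from inertia groups
-/

set_option autoImplicit false

open Polynomial NumberField IsDedekindDomain
open scoped WithZero Pointwise

namespace Pool.Agent.Arb3

open Pool.Agent.TameArb
open Pool.Agent.Arb2 (hasse_map val_diff overComap Un)

theorem exists_inert (K L : Type) [Field K] [NumberField K] [Field L] [NumberField L]
    [Algebra K L] [IsGalois K L] (v : HeightOneSpectrum (𝓞 K)) :
    ∃ (w : HeightOneSpectrum (𝓞 L)) (e : ℕ), e ≠ 0 ∧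
      (∀ x : K, v.valuation K x ^ e = w.valuation L (algebraMap K L x)) ∧
      w.asIdeal.LiesOver v.asIdeal ∧ (1 < e → ∃ σ : L ≃ₐ[K] L, σ ≠ 1 ∧
        (∀ x, w.valuation L (σ x) = w.valuation L x) ∧
        ∀ x, w.valuation L x ≤ 1 → w.valuation L (σ x - x) < 1) := by
  classical
  obtain ⟨w, hw⟩ := exists_above (L := L) v
  have hwp : w.asIdeal.IsPrime := w.isPrime
  have hvp : v.asIdeal.IsPrime := v.isPrime
  set e := v.asIdeal.ramificationIdx' w.asIdeal with he
  have he0 : e ≠ 0 :=
    Ideal.IsDedekindDomain.ramificationIdx'_ne_zero_of_liesOver w.asIdeal v.ne_bot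
  have hval : ∀ x : K, v.valuation K x ^ e = w.valuation L (algebraMap K L x) :=
    HeightOneSpectrum.valuation_liesOver L v w
  set I : Subgroup (L ≃ₐ[K] L) := w.asIdeal.inertia (L ≃ₐ[K] L) with hI
  have hIcard : Nat.card I = e := by
    rw [hI, Ideal.card_inertia_eq_ramificationIdxIn v.asIdeal w.asIdeal,
      Ideal.ramificationIdxIn_eq_ramificationIdx v.asIdeal w.asIdeal (L ≃ₐ[K] L),
      ← Ideal.ramificationIdx'_eq_ramificationIdx v.asIdeal w.asIdeal v.ne_bot]
  have hmem : ∀ σ ∈ I, ∀ x : 𝓞 L, σ • x - x ∈ w.asIdeal := fun σ hσ => hσ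
  have hst : ∀ σ ∈ I, ∀ x : 𝓞 L, σ • x ∈ w.asIdeal ↔ x ∈ w.asIdeal := by
    intro σ hσ x
    have h1 := hmem σ hσ x
    constructor
    · intro h2
      have h3 : x = σ • x - (σ • x - x) := by ring
      rw [h3]; exact sub_mem h2 h1
    · intro h2
      have h3 : σ • x = (σ • x - x) + x := by ring
      rw [h3]; exact add_mem h1 h2
  have hI2 : ∀ σ ∈ I, ∀ x, w.valuation L x ≤ 1 → w.valuation L (σ x - x) < 1 := by
    intro σ hσ x hx
    have h1 := valuation_frob_sub w σ 1 (hst σ hσ) (fun y => by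
      rw [pow_one]; exact hmem σ hσ y) x hx
    rwa [pow_one] at h1
  refine ⟨w, e, he0, hval, hw, fun he1 => ?_⟩
  have hne : I ≠ ⊥ := by
    intro h
    rw [h, Subgroup.card_bot] at hIcard
    omega
  obtain ⟨a, ha⟩ := Subgroup.ne_bot_iff_exists_ne_one.mp hne
  exact ⟨a.1, fun h => ha (Subtype.ext h), valuation_smul a.1 w (hst a.1 a.2), hI2 a.1 a.2⟩

section tame

variable {M L : Type*} [Field M] [Field L] [Algebra M L] {V : Valuation L ℤᵐ⁰}

/-- ratios under the powers of an element of the inertia group -/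
theorem ratio_pow {σ : L ≃ₐ[M] L} (hσV : ∀ x, V (σ x) = V x)
    (hσ : ∀ x, V x ≤ 1 → V (σ x - x) < 1) {τ : L} (hτ : τ ≠ 0) (j : ℕ) :
    V ((σ ^ j) τ / τ - (σ τ / τ) ^ j) < 1 := by
  have hvτ : V τ ≠ 0 := (Valuation.ne_zero_iff _).mpr hτ
  set ρ := σ τ / τ with hρ
  have hρV : V ρ = 1 := by rw [hρ, map_div₀, hσV, div_self hvτ]
  induction j with
  | zero => simp [hτ]
  | succ j ih =>
    set u := (σ ^ j) τ / τ with hu
    have huV : V u ≤ 1 := by
      have : u = (u - ρ ^ j) + ρ ^ j := by ring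
      rw [this]
      refine Valuation.map_add_le _ ih.le ?_
      rw [map_pow, hρV, one_pow]
    have h1 : (σ ^ (j + 1)) τ / τ = σ u * ρ := by
      have hστ : σ τ ≠ 0 := (_root_.map_ne_zero _).mpr hτ
      rw [pow_succ', AlgEquiv.mul_apply, hu, map_div₀, hρ]
      field_simp
    have h2 : (σ ^ (j + 1)) τ / τ - ρ ^ (j + 1) = (σ u - u) * ρ + (u - ρ ^ j) * ρ := by
      rw [h1, pow_succ]; ring
    rw [h2]
    apply Valuation.map_add_lt
    · rw [map_mul, hρV, mul_one]; exact hσ u huV
    · rw [map_mul, hρV, mul_one]; exact ih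

end tame

/-- **A cycle from a valuation that is not divisible by the multiplicity.** -/
theorem cyc {K M E : Type} [Field K] [CharZero K] [Field M] [NumberField M] [Field E]
    [NumberField E] [Algebra K M] [Algebra K E] [Algebra M E] [IsScalarTower K M E]
    [IsGalois M E] {φ : K[X]} {c : K} {e B : ℕ} {D : Finset K}
    (hD : DP φ c e B D) (hd : 2 ≤ φ.natDegree) (hs : (derivative φ).Splits)
    (hc : (derivative φ).eval c = 0) (he : 2 ≤ e)
    (hl : ∀ i, 0 < i → i < e → (hasseDeriv i φ).eval c = 0) {h : ℕ} (h1 : 1 ≤ h) (hB : h ≤ B)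
    (w : M)
    (T : Finset E) (hT : ∀ y, y ∈ T ↔ (ph φ)^[h] y = algebraMap M E w)
    (hsplit : ((itp φ h).map (algebraMap K E) - C (algebraMap M E w)).Splits)
    (hgen : ∀ σ : E ≃ₐ[M] E, (∀ y ∈ T, σ y = y) → σ = 1)
    (hcw : (ph φ)^[h] (algebraMap K M c) ≠ w)
    (v : HeightOneSpectrum (𝓞 M)) (hv : Un D v) (hvw : v.valuation M w ≤ 1)
    (hnd : ¬ ∃ m : ℤ, v.valuation M ((ph φ)^[h] (algebraMap K M c) - w) =
      WithZero.exp (e * m)) :
    ∃ σ : E ≃ₐ[M] E, ∃ y1 ∈ T, σ y1 ≠ y1 ∧ (∀ z ∈ T, σ z ≠ z → ph φ z = ph φ y1) ∧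
      (∀ ζ : K, IsPrimitiveRoot ζ e →
        (∀ x : E, ph φ (algebraMap K E c + algebraMap K E ζ * (x - algebraMap K E c)) = ph φ x) →
        ∀ z ∈ T, σ z ≠ z → ∃ i : ℕ,
          z = algebraMap K E c + algebraMap K E ζ ^ i * (y1 - algebraMap K E c)) ∧
      (e.Prime → (σ ^ e) y1 = y1 ∧ ∀ z ∈ T, σ z ≠ z → ∃ j, (σ ^ j) y1 = z) := by
  classical
  obtain ⟨P, ε, he0, hval, hP, hin⟩ := exists_inert M E v
  set V := P.valuation E with hVdef
  have hV : ∀ a ∈ D, V (algebraMap K E a) = 1 := by
    intro a ha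
    rw [IsScalarTower.algebraMap_apply K M E, ← hval, hv a ha, one_pow]
  have hVM : ∀ a ∈ D, v.valuation M (algebraMap K M a) = 1 := hv
  have hoM := overComap (K := K) (v.valuation M)
  have hgM := hD.good hd hVM
  have ho := overComap (K := K) V
  have hg := hD.good hd hV
  have hci : V (algebraMap K E c) ≤ 1 := hD.crit_le hV hc
  have hciM : v.valuation M (algebraMap K M c) ≤ 1 := hD.crit_le hVM hc
  set δ := (ph φ)^[h] (algebraMap K M c) - w with hδ
  have hδ0 : δ ≠ 0 := sub_ne_zero.mpr hcw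
  have hδle : v.valuation M δ ≤ 1 := Valuation.map_sub_le _ (hoM.iter_le hgM hciM h) hvw
  have hδlt : v.valuation M δ < 1 := by
    refine lt_of_le_of_ne hδle fun h2 => hnd ⟨0, ?_⟩
    rw [h2]; simp
  have hδE : algebraMap M E δ = (ph φ)^[h] (algebraMap K E c) - algebraMap M E w := by
    rw [hδ, map_sub, IsScalarTower.algebraMap_apply K M E]
    congr 1
    exact iter_hom φ (IsScalarTower.toAlgHom K M E) h _
  have hclose : V ((ph φ)^[h] (algebraMap K E c) - algebraMap M E w) < 1 := by
    rw [← hδE, ← hval]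
    exact pow_lt_one₀ zero_le hδlt he0
  obtain ⟨y, hy, hcy⟩ := ho.exists_root_close hg hd hsplit hclose
  rw [Valuation.map_sub_swap] at hcy
  -- the ramification index is greater than one
  have hval2 := hD.val hd hV hs hc (by omega : 0 < e) hl h1 hB hy hcy
  rw [← hδE, ← hval] at hval2
  have hvδ0 : v.valuation M δ ≠ 0 := (Valuation.ne_zero_iff _).mpr hδ0
  have hyc0 : V (y - algebraMap K E c) ≠ 0 := by
    intro h0
    rw [h0, zero_pow (by omega)] at hval2
    exact pow_ne_zero _ hvδ0 hval2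
  have he1 : 1 < ε := by
    rcases Nat.lt_or_ge 1 ε with h2 | h2
    · exact h2
    · exfalso
      have hε1 : ε = 1 := by omega
      rw [hε1, pow_one] at hval2
      apply hnd
      refine ⟨WithZero.log (V (y - algebraMap K E c)), ?_⟩
      rw [hval2]
      conv_lhs => rw [← WithZero.exp_log hyc0]
      rw [← WithZero.exp_nsmul, nsmul_eq_mul]
  obtain ⟨σ, hσ1, hσV, hσ⟩ := hin he1
  -- the action on the fibre
  have hwE : V (algebraMap M E w) ≤ 1 := by
    rw [← hval]; exact pow_le_one' hvw _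
  have hTi : ∀ z ∈ T, V z ≤ 1 := by
    intro z hz
    apply ho.le_of_iter hg hd (n := h)
    rw [(hT z).mp hz]; exact hwE
  have hσK : ∀ (σ : E ≃ₐ[M] E) (n : ℕ) (x : E), σ ((ph φ)^[n] x) = (ph φ)^[n] (σ x) := by
    intro σ n x
    exact iter_hom φ (σ.restrictScalars K : E →ₐ[K] E) n x
  have hσT : ∀ (σ : E ≃ₐ[M] E), ∀ z ∈ T, σ z ∈ T := by
    intro σ z hz
    rw [hT, ← hσK, (hT z).mp hz, σ.commutes]
  have hcl : ∀ z z', V (z - algebraMap K E c) < 1 → V (z' - algebraMap K E c) < 1 →
      V (z - z') < 1 := by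
    intro y y' a b
    have : y - y' = (y - algebraMap K E c) - (y' - algebraMap K E c) := by ring
    rw [this]; exact Valuation.map_sub_lt _ a b
  have hcoll : ∀ z ∈ T, ∀ z' ∈ T, z ≠ z' → V (z - z') < 1 →
      V (z - algebraMap K E c) < 1 ∧ ph φ z = ph φ z' := by
    intro z hz z' hz' hne hzz
    exact hD.coll hd hV hs hc h1 hB hclose ((hT z).mp hz) ((hT z').mp hz') (hTi z hz) (hTi z' hz')
      hne hzz
  have hnear : ∀ z ∈ T, ∀ z' ∈ T, V (z - algebraMap K E c) < 1 → V (z' - algebraMap K E c) < 1 →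
      ph φ z = ph φ z' := by
    intro z hz z' hz' a b
    by_cases hzz : z = z'
    · rw [hzz]
    · exact (hcoll z hz z' hz' hzz (hcl _ _ a b)).2
  obtain ⟨y1, hy1, hy1σ⟩ : ∃ y1 ∈ T, σ y1 ≠ y1 := by
    by_contra hcon
    push Not at hcon
    exact hσ1 (hgen σ hcon)
  have hmoved : ∀ z ∈ T, σ z ≠ z → V (z - algebraMap K E c) < 1 := by
    intro z hz hne
    have h3 := hσ z (hTi z hz)
    exact (hcoll z hz (σ z) (hσT σ z hz) hne.symm (by rw [Valuation.map_sub_swap]; exact h3)).1
  have hy1c := hmoved y1 hy1 hy1σ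
  have hcfix : ∀ (σ : E ≃ₐ[M] E), σ (algebraMap K E c) = algebraMap K E c := by
    intro σ
    rw [IsScalarTower.algebraMap_apply K M E, σ.commutes]
  have hint := ho.intP hg.int
  have hev : ∀ i, (hasseDeriv i (φ.map (algebraMap K E))).eval (algebraMap K E c) =
      algebraMap K E ((hasseDeriv i φ).eval c) := by
    intro i
    rw [hasse_map, eval_map_algebraMap, aeval_algebraMap_apply_eq_algebraMap_eval]
  have hl' : ∀ i, 0 < i → i < e →
      (hasseDeriv i (φ.map (algebraMap K E))).eval (algebraMap K E c) = 0 := by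
    intro i h0 h1
    rw [hev, hl i h0 h1, map_zero]
  have htop : V ((hasseDeriv e (φ.map (algebraMap K E))).eval (algebraMap K E c)) = 1 := by
    rw [hev]; exact hV _ hD.top
  -- at most `e` points of a fibre are near the critical point
  have hbound : ∀ S : Finset E, (∀ x ∈ S, V (x - algebraMap K E c) < 1) →
      (∀ x ∈ S, ph φ x = ph φ y1) → S.card ≤ e := by
    intro S hS1 hS2
    refine roots_bound (P := φ.map (algebraMap K E) - C ((φ.map (algebraMap K E)).eval y1)) ?_
      hci e ?_ S hS1 ?_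
    · intro i
      rw [coeff_sub, coeff_C]
      refine Valuation.map_sub_le _ (hint i) ?_
      split_ifs
      · exact eval_le hint (hTi y1 hy1)
      · simp
    · rw [map_sub, hasseDeriv_C _ _ (by omega : 0 < e), sub_zero]
      exact htop
    · intro x hx
      rw [eval_sub, eval_C, sub_eq_zero, ← ph_eq_eval_map, ← ph_eq_eval_map]
      exact hS2 x hx
  have hy1c0 : y1 - algebraMap K E c ≠ 0 := by
    intro h0
    apply hy1σ
    rw [sub_eq_zero.mp h0, hcfix]
  refine ⟨σ, y1, hy1, hy1σ, fun z hz hne => hnear z hz y1 hy1 (hmoved z hz hne) hy1c,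
    ?_, fun hpr => ?_⟩
  · intro ζ hζ hrot z hz hne
    by_contra hcon
    push Not at hcon
    have hζE : IsPrimitiveRoot (algebraMap K E ζ) e :=
      hζ.map_of_injective (algebraMap K E).injective
    have hrot' : ∀ i : ℕ, ph φ (algebraMap K E c +
        algebraMap K E ζ ^ i * (y1 - algebraMap K E c)) = ph φ y1 := by
      intro i
      induction i with
      | zero => rw [pow_zero, one_mul, add_sub_cancel]
      | succ i ih =>
        rw [← ih, ← hrot (algebraMap K E c + algebraMap K E ζ ^ i * (y1 - algebraMap K E c))]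
        congr 1
        ring
    have hVζ : V (algebraMap K E ζ) = 1 := by
      have h2 : V (algebraMap K E ζ) ^ e = 1 := by rw [← map_pow, hζE.pow_eq_one, map_one]
      exact (pow_eq_one_iff_left (by omega : e ≠ 0)).mp h2
    set O : Finset E := (Finset.range e).image
      (fun i => algebraMap K E c + algebraMap K E ζ ^ i * (y1 - algebraMap K E c)) with hO
    have hOcard : O.card = e := by
      rw [hO, Finset.card_image_of_injOn, Finset.card_range]
      intro i hi j hj hij
      rw [Finset.coe_range, Set.mem_Iio] at hi hj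
      exact hζE.pow_inj hi hj (mul_right_cancel₀ hy1c0 (add_left_cancel hij))
    have hzO : z ∉ O := by
      intro hmem
      obtain ⟨i, -, hi⟩ := Finset.mem_image.mp hmem
      exact hcon i hi.symm
    have h2 := hbound (insert z O) ?_ ?_
    · rw [Finset.card_insert_of_notMem hzO, hOcard] at h2
      omega
    · intro x hx
      rcases Finset.mem_insert.mp hx with rfl | hx
      · exact hmoved _ hz hne
      · obtain ⟨i, -, rfl⟩ := Finset.mem_image.mp hx
        rw [add_sub_cancel_left, map_mul, map_pow, hVζ, one_pow, one_mul]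
        exact hy1c
    · intro x hx
      rcases Finset.mem_insert.mp hx with rfl | hx
      · exact hnear _ hz y1 hy1 (hmoved _ hz hne) hy1c
      · obtain ⟨i, -, rfl⟩ := Finset.mem_image.mp hx
        exact hrot' i
  -- the orbit of `y1`
  have hσjT : ∀ j : ℕ, (σ ^ j) y1 ∈ T := fun j => hσT (σ ^ j) y1 hy1
  have hσjV : ∀ (j : ℕ) (x : E), V ((σ ^ j) x) = V x := by
    intro j
    induction j with
    | zero => intro x; rfl
    | succ j ih =>
      intro x
      rw [pow_succ', AlgEquiv.mul_apply, hσV, ih]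
  have hσjc : ∀ j : ℕ, V ((σ ^ j) y1 - algebraMap K E c) = V (y1 - algebraMap K E c) := by
    intro j
    have h2 : (σ ^ j) y1 - algebraMap K E c = (σ ^ j) (y1 - algebraMap K E c) := by
      rw [map_sub, hcfix]
    rw [h2, hσjV]
  have heV : V ((e : ℕ) : E) = 1 := by
    have := hV _ hD.exp
    rwa [map_natCast] at this
  have hsep : ∀ z ∈ T, ∀ z' ∈ T, V (z - algebraMap K E c) < 1 → V (z' - algebraMap K E c) < 1 →
      V (z' - z) < V (z - algebraMap K E c) → z' = z := by
    intro z hz z' hz' a b hlt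
    refine sep hint hci (by omega) heV hl' htop a b ?_ hlt
    rw [← ph_eq_eval_map, ← ph_eq_eval_map]
    exact hnear z hz z' hz' a b
  set τ := y1 - algebraMap K E c with hτ
  have hτ0 : τ ≠ 0 := by
    intro h0
    have h2 : y1 = algebraMap K E c := sub_eq_zero.mp h0
    apply hy1σ
    rw [h2, hcfix]
  have hvτ : V τ ≠ 0 := (Valuation.ne_zero_iff _).mpr hτ0
  set ρ := σ τ / τ with hρ
  have hρV : V ρ = 1 := by rw [hρ, map_div₀, hσV, div_self hvτ]
  -- the power of the ratio
  have hρe : V (ρ ^ e - 1) < 1 := by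
    obtain ⟨H, hH, hH0, hE⟩ := exists_H hint hci hl' (by omega : 0 < e)
    have hu := H_unit hH (by rw [hH0]; exact htop) hy1c
    have h2 := hσjc 1
    rw [pow_one] at h2
    have hc2 : V (σ y1 - algebraMap K E c) < 1 := by rw [h2]; exact hy1c
    have hu' := H_unit hH (by rw [hH0]; exact htop) hc2
    have h3 : (φ.map (algebraMap K E)).eval y1 = (φ.map (algebraMap K E)).eval (σ y1) := by
      rw [← ph_eq_eval_map, ← ph_eq_eval_map]
      exact hnear y1 hy1 (σ y1) (hσT σ y1 hy1) hy1c hc2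
    rw [hE y1, hE (σ y1)] at h3
    have h4 := add_left_cancel h3
    have h5 : σ y1 - algebraMap K E c = σ τ := by
      rw [hτ, map_sub, hcfix]
    rw [h5, ← hτ] at h4
    rw [h5] at hu'
    have h6 : ρ ^ e * H.eval (σ τ) = H.eval τ := by
      rw [hρ, div_pow, div_mul_eq_mul_div, ← h4, mul_div_cancel_left₀ _ (pow_ne_zero _ hτ0)]
    have h7 : (ρ ^ e - 1) * H.eval (σ τ) = H.eval τ - H.eval (σ τ) := by rw [← h6]; ring
    have hτi : V τ ≤ 1 := hy1c.le
    have h8 := cong_eval hH (y := σ τ) (z := τ) (by rw [hσV]; exact hτi) hτi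
    rw [← h7, map_mul, hu', mul_one] at h8
    refine h8.trans_lt ?_
    rw [Valuation.map_sub_swap]
    exact hσ τ hτi
  have hfixe : (σ ^ e) y1 = y1 := by
    apply hsep y1 hy1 _ (hσjT e) hy1c (by rw [hσjc]; exact hy1c)
    have h2 := ratio_pow hσV hσ hτ0 e
    have h3 : V ((σ ^ e) τ / τ - 1) < 1 := by
      have : (σ ^ e) τ / τ - 1 = ((σ ^ e) τ / τ - ρ ^ e) + (ρ ^ e - 1) := by ring
      rw [this]
      exact Valuation.map_add_lt _ h2 hρe
    have h4 : (σ ^ e) y1 - y1 = ((σ ^ e) τ / τ - 1) * τ := by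
      rw [sub_mul, div_mul_cancel₀ _ hτ0, one_mul, hτ, map_sub, hcfix]; ring
    rw [h4, map_mul]
    exact mul_lt_of_lt_one_left (zero_lt_iff.mpr hvτ) h3
  refine ⟨hfixe, ?_⟩
  -- the orbit has `e` elements
  have hinj : Set.InjOn (fun j : ℕ => (σ ^ j) y1) (Finset.range e : Set ℕ) := by
    have key : ∀ j k : ℕ, j < k → k < e → (σ ^ j) y1 ≠ (σ ^ k) y1 := by
      intro j k hjk hke heq
      -- `σ ^ (k - j)` fixes `y1`
      have h2 : (σ ^ (k - j)) y1 = y1 := by
        have h3 : σ ^ k = σ ^ j * σ ^ (k - j) := by rw [← pow_add, Nat.add_sub_cancel' hjk.le]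
        rw [h3, AlgEquiv.mul_apply] at heq
        exact ((σ ^ j).injective heq).symm
      have hcop : Nat.Coprime (k - j) e := by
        rw [Nat.coprime_comm, Nat.Prime.coprime_iff_not_dvd hpr]
        intro hdvd
        have := Nat.le_of_dvd (by omega) hdvd
        omega
      -- Bezout
      have h3 : Function.IsPeriodicPt (fun x => σ x) (k - j) y1 := by
        rw [Function.IsPeriodicPt, Function.IsFixedPt]
        have h4 : ∀ m : ℕ, (fun x => σ x)^[m] y1 = (σ ^ m) y1 := by
          intro m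
          induction m with
          | zero => rfl
          | succ m ih => rw [Function.iterate_succ_apply', ih, pow_succ', AlgEquiv.mul_apply]
        rw [h4, h2]
      have h4 : Function.IsPeriodicPt (fun x => σ x) e y1 := by
        rw [Function.IsPeriodicPt, Function.IsFixedPt]
        have h4 : ∀ m : ℕ, (fun x => σ x)^[m] y1 = (σ ^ m) y1 := by
          intro m
          induction m with
          | zero => rfl
          | succ m ih => rw [Function.iterate_succ_apply', ih, pow_succ', AlgEquiv.mul_apply]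
        rw [h4, hfixe]
      have h5 := h3.gcd h4
      rw [hcop] at h5
      exact hy1σ h5
    intro j hj k hk hjk
    rw [Finset.coe_range, Set.mem_Iio] at hj hk
    rcases lt_trichotomy j k with h2 | h2 | h2
    · exact absurd hjk (key j k h2 hk)
    · exact h2
    · exact absurd hjk.symm (key k j h2 hj)
  set O : Finset E := (Finset.range e).image (fun j => (σ ^ j) y1) with hO
  have hOcard : O.card = e := by
    rw [hO, Finset.card_image_of_injOn hinj, Finset.card_range]
  intro z hz hne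
  by_contra hcon
  push Not at hcon
  have hzO : z ∉ O := by
    intro hmem
    obtain ⟨j, -, hj⟩ := Finset.mem_image.mp hmem
    exact hcon j hj
  have hzc := hmoved z hz hne
  have hSc : (insert z O).card ≤ e := by
    refine hbound (insert z O) ?_ ?_
    · intro x hx
      rcases Finset.mem_insert.mp hx with rfl | hx
      · exact hzc
      · obtain ⟨j, -, rfl⟩ := Finset.mem_image.mp hx
        rw [hσjc]; exact hy1c
    · intro x hx
      rcases Finset.mem_insert.mp hx with rfl | hx
      · exact hnear _ hz y1 hy1 hzc hy1c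
      · obtain ⟨j, -, rfl⟩ := Finset.mem_image.mp hx
        exact hnear _ (hσjT j) y1 hy1 (by rw [hσjc]; exact hy1c) hy1c
  rw [Finset.card_insert_of_notMem hzO, hOcard] at hSc
  omega

end Pool.Agent.Arb3
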