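import Pool.Agent.Arb3.Auto3
import Pool.Agent.Arb2.Ext

/-!
# The theorem for critical points of higher multiplicity
-/

set_option autoImplicit false

open Polynomial NumberField IsDedekindDomain Module
open scoped WithZero

namespace Pool.Agent.Arb3

open Pool.Agent.TameArb
open Pool.Agent.Arb2 (Grow AutoProp posDens_of_ext ph_map_eq hasse_map)

/-- **Polynomials with a critical point of infinite orbit that the other critical points
do not meet.** -/
theorem posDens_of_crit3 {K : Type} [Field K] [NumberField K] {φ : K[X]}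
    (hd : 2 ≤ φ.natDegree) (c : AlgebraicClosure K) {e : ℕ} (he2 : 2 ≤ e)
    (hl : ∀ i, 0 < i → i < e → aeval c (hasseDeriv i φ) = 0)
    (htop : aeval c (hasseDeriv e φ) ≠ 0)
    (hcase : e = 2 ∨ (e.Prime ∧ ¬ e ∣ φ.natDegree) ∨
      ∃ A : (AlgebraicClosure K)[X],
        φ.map (algebraMap K (AlgebraicClosure K)) = A.comp ((X - C c) ^ e))
    (hinj : Function.Injective fun n : ℕ => (ph φ)^[n] c)
    (hdist : ∀ a : AlgebraicClosure K, aeval a (derivative φ) = 0 → a ≠ c → ∀ i j : ℕ, 1 ≤ i →
      i ≤ j → (ph φ)^[i] a ≠ (ph φ)^[j] c) (Γ Γ0 : Finset K)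
    (hΓ : ∀ γ ∈ Γ, ∀ n, 0 < n → (ph φ)^[n] γ ≠ γ)
    (hgrow : ∀ γ ∈ Γ, γ ∉ Γ0 → ∃ A, Grow φ γ A)
    (v0 : HeightOneSpectrum (𝓞 K)) (hv0 : Good (v0.valuation K) φ)
    (hΓ0 : ∀ γ ∈ Γ0, v0.valuation K γ ≤ 1 ∧ ¬ PerMod (v0.valuation K) φ γ) :
    PosDens (GP φ Γ) := by
  have he0 : e ≠ 0 := by omega
  have hne : derivative φ ≠ 0 := by
    intro h
    have h1 := derivative_eq_zero.mp h
    omega
  have hX0 : (X ^ e - 1 : K[X]) ≠ 0 := (monic_X_pow_sub_C (1 : K) he0).ne_zero
  obtain ⟨F, _, _, _, _, hs0⟩ := exists_split K (derivative φ * (X ^ e - 1))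
  have hprod0 : (derivative φ * (X ^ e - 1)).map (algebraMap K F) ≠ 0 :=
    (Polynomial.map_ne_zero_iff (algebraMap K F).injective).mpr (mul_ne_zero hne hX0)
  have hs : ((derivative φ).map (algebraMap K F)).Splits :=
    hs0.of_dvd hprod0 (Polynomial.map_dvd _ (dvd_mul_right _ _))
  have hs2 : ((X ^ e - 1 : K[X]).map (algebraMap K F)).Splits :=
    hs0.of_dvd hprod0 (Polynomial.map_dvd _ (dvd_mul_left _ _))
  set φ' := φ.map (algebraMap K F) with hφ'
  have hd' : 2 ≤ φ'.natDegree := by rwa [hφ', natDegree_map]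
  let ι : F →ₐ[K] AlgebraicClosure K := IsAlgClosed.lift
  have hιinj : ∀ x y : F, ι x = ι y → x = y := fun x y h => ι.toRingHom.injective h
  have hιc : (ι : F →+* AlgebraicClosure K).comp (algebraMap K F) =
      algebraMap K (AlgebraicClosure K) := ι.comp_algebraMap
  have hrange : ∀ P : K[X], P ≠ 0 → (P.map (algebraMap K F)).Splits →
      ∀ x : AlgebraicClosure K, aeval x P = 0 → ∃ x' : F, ι x' = x := by
    intro P hP hsP x hx
    have h1 : ((P.map (algebraMap K F)).map (ι : F →+* AlgebraicClosure K)).IsRoot x := by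
      rw [IsRoot.def, map_map, eval_map, hιc, ← aeval_def]
      exact hx
    exact hsP.mem_range_of_isRoot
      ((Polynomial.map_ne_zero_iff (algebraMap K F).injective).mpr hP) h1
  have hdφ : derivative φ' = (derivative φ).map (algebraMap K F) := by
    rw [hφ', derivative_map]
  obtain ⟨c', hc'⟩ := hrange _ hne hs c (by
    have h1 := hl 1 Nat.one_pos (by omega)
    rwa [hasseDeriv_one] at h1)
  -- the root of unity
  have : NeZero (e : AlgebraicClosure K) := ⟨Nat.cast_ne_zero.mpr he0⟩
  obtain ⟨ζ', hζ'⟩ := (IsSepClosed.hasEnoughRootsOfUnity (AlgebraicClosure K) e).exists_primitiveRoot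
  obtain ⟨ζ, hζ⟩ := hrange _ hX0 hs2 ζ' (by
    rw [map_sub, map_pow, aeval_X, map_one, hζ'.pow_eq_one, sub_self])
  have hζp : IsPrimitiveRoot ζ e := by
    rw [← hζ] at hζ'
    exact IsPrimitiveRoot.of_map_of_injective (f := ι) hζ' ι.toRingHom.injective
  have hev : ∀ (P : K[X]) (x : F), ι ((P.map (algebraMap K F)).eval x) = aeval (ι x) P := by
    intro P x
    rw [eval_map_algebraMap, aeval_algHom_apply]
  have hit : ∀ (n : ℕ) (x : F), ι ((ph φ')^[n] x) = (ph φ)^[n] (ι x) := by
    intro n x
    rw [hφ', ph_map_eq, iter_hom]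
  have hA : AutoProp F φ' := by
    intro Γ hΓ hgrow E _ _ _ _ g1
    refine auto3 hd' (by rw [hdφ]; exact hs) (c := c') ?_ he2 ?_ ?_ ?_ ?_ ?_ Γ hΓ hgrow E g1
    · apply hιinj
      rw [hdφ, hev, hc', map_zero]
      have h1 := hl 1 Nat.one_pos (by omega)
      rwa [hasseDeriv_one] at h1
    · intro i h0 h1
      apply hιinj
      rw [hφ', hasse_map, hev, hc', map_zero]
      exact hl i h0 h1
    · intro h
      apply htop
      rw [← hc', ← hev, ← hasse_map, ← hφ', h, map_zero]
    · rcases hcase with h | h | ⟨A, hA⟩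
      · exact Or.inl h
      · right; left
        rw [hφ', natDegree_map]
        exact h
      · right; right
        refine ⟨ζ, hζp, ?_⟩
        apply Polynomial.map_injective (ι : F →+* AlgebraicClosure K) ι.toRingHom.injective
        have h1 : φ'.map (ι : F →+* AlgebraicClosure K) =
            φ.map (algebraMap K (AlgebraicClosure K)) := by
          rw [hφ', map_map, hιc]
        have hc'' : (ι : F →+* AlgebraicClosure K) c' = c := hc'
        have hζ'' : (ι : F →+* AlgebraicClosure K) ζ = ζ' := hζ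
        rw [Polynomial.map_comp, h1, hA, Polynomial.map_add, Polynomial.map_mul,
          Polynomial.map_sub, map_C, map_C, map_X, hc'', hζ'', comp_assoc]
        congr 1
        rw [pow_comp, sub_comp, X_comp, C_comp, add_sub_cancel_left, mul_pow, ← C_pow,
          hζ'.pow_eq_one, C_1, one_mul]
    · intro i j hij
      apply hinj
      have h1 : (ph φ')^[i] c' = (ph φ')^[j] c' := hij
      show (ph φ)^[i] c = (ph φ)^[j] c
      rw [← hc', ← hit, ← hit, h1]
    · intro a ha hac i j hi hij h
      refine hdist (ι a) ?_ ?_ i j hi hij ?_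
      · rw [← hev, ← hdφ, ha, map_zero]
      · intro h1
        exact hac (hιinj _ _ (by rw [h1, hc']))
      · rw [← hc', ← hit, ← hit, h]
  exact posDens_of_ext hA hd Γ Γ0 hΓ hgrow v0 hv0 hΓ0

/-- the derivatives at a point of given multiplicity -/
theorem hasse_of_mult {K : Type} [Field K] {φ : K[X]} (hd : 0 < φ.natDegree)
    (c : AlgebraicClosure K) {e : ℕ}
    (he : (φ.map (algebraMap K (AlgebraicClosure K)) - C (aeval c φ)).rootMultiplicity c = e) :
    (∀ i, 0 < i → i < e → aeval c (hasseDeriv i φ) = 0) ∧ aeval c (hasseDeriv e φ) ≠ 0 := by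
  set P := φ.map (algebraMap K (AlgebraicClosure K)) - C (aeval c φ) with hP
  have hPd : P.natDegree = φ.natDegree := by rw [hP, natDegree_sub_C, natDegree_map]
  have hP0 : P ≠ 0 := by
    intro h0
    rw [h0, natDegree_zero] at hPd
    omega
  have hT0 : taylor c P ≠ 0 := by
    intro h0
    exact hP0 (taylor_injective c (by rw [h0, map_zero]))
  have htr : (taylor c P).natTrailingDegree = e := by
    rw [taylor_apply, ← rootMultiplicity_eq_natTrailingDegree, he]
  have hco : ∀ i, 0 < i → (taylor c P).coeff i = aeval c (hasseDeriv i φ) := by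
    intro i hi
    rw [taylor_coeff, hP, map_sub, hasseDeriv_C _ _ hi, sub_zero, hasse_map,
      eval_map_algebraMap]
  have hroot : P.eval c = 0 := by
    rw [hP, eval_sub, eval_C, eval_map_algebraMap, sub_self]
  have he0 : 0 < e := by
    rw [← he]
    exact (rootMultiplicity_pos hP0).mpr hroot
  constructor
  · intro i h0 h1
    rw [← hco i h0]
    exact coeff_eq_zero_of_lt_natTrailingDegree (by rw [htr]; exact h1)
  · rw [← hco e he0]
    have h1 : (taylor c P).trailingCoeff ≠ 0 := trailingCoeff_nonzero_iff_nonzero.mpr hT0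
    rw [trailingCoeff, htr] at h1
    exact h1

end Pool.Agent.Arb3
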