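import Pool.Agent.Arb2.Kill

/-!
# Few elements of a coset of a tree group have fixed points, second version

Here the stabilizer of each vertex contains enough elements supported on its children.
-/

set_option autoImplicit false

namespace Pool.Agent.Arb3

open Finset
open Pool.Agent.Arb2 (HH mem_HH FixU)

section level

variable {G Ω : Type*} [Group G] [MulAction G Ω]

/-- One level `T` of the tree with parent map `f` and previous level `U`. -/
structure Lvl2 (H : Subgroup G) (s : G) (f : Ω → Ω) (d : ℕ) (T U : Finset Ω) : Prop where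
  hf : ∀ (g : G) (x : Ω), f (g • x) = g • f x
  par : ∀ x ∈ T, f x ∈ U
  inv : ∀ g ∈ H, ∀ x ∈ T, g • x ∈ T
  invU : ∀ g ∈ H, ∀ x ∈ U, g • x ∈ U
  sinv : ∀ x ∈ U, s⁻¹ • x ∈ U
  tr : ∀ x ∈ U, ∀ y ∈ U, ∃ g ∈ H, g • x = y
  sib : ∀ u ∈ U, ∀ S ⊆ T, (∀ y ∈ S, f y = u) → S.card ≤ d
  der : ∀ u ∈ U, ∀ g ∈ H, (s * g) • u = u → ∃ r ∈ H, (∀ z ∈ T, f z ≠ u → r • z = z) ∧
    (∀ v ∈ U, r • v = v) ∧ ∀ z ∈ T, f z = u → (s * g * r) • z ≠ z

variable {H : Subgroup G} {s : G} {f : Ω → Ω} {d : ℕ} {T U : Finset Ω}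

open Classical in
/-- representatives -/
theorem exists_R (hd : 0 < d) (hL : Lvl2 H s f d T U) : ∃ R : Ω → Finset G, ∀ u ∈ U,
    (R u).card ≤ d ^ d ∧ (∀ r ∈ R u, r ∈ H ∧ (∀ z ∈ T, f z ≠ u → r • z = z) ∧
      ∀ v ∈ U, r • v = v) ∧
    ∀ g ∈ H, (s * g) • u = u → ∃ r ∈ R u, ∀ z ∈ T, f z = u → (s * g * r) • z ≠ z := by
  set F : Ω → Finset Ω := fun u => T.filter (fun z => f z = u) with hF
  set Q : Ω → G → Prop := fun u r => r ∈ H ∧ (∀ z ∈ T, f z ≠ u → r • z = z) ∧
      ∀ v ∈ U, r • v = v with hQ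
  have hQ1 : ∀ u, Q u 1 := fun u => ⟨H.one_mem, fun z _ _ => one_smul _ _,
    fun z _ => one_smul _ _⟩
  refine ⟨fun u => (univ : Finset (F u → F u)).image (fun a =>
    if h : ∃ r, Q u r ∧ ∀ z : F u, r • (z : Ω) = a z then h.choose else 1), ?_⟩
  intro u hu
  refine ⟨?_, ?_, ?_⟩
  · refine card_image_le.trans ?_
    rw [card_univ, Fintype.card_fun, Fintype.card_coe]
    have h1 : (F u).card ≤ d := hL.sib u hu _ (filter_subset _ _)
      (fun y hy => (mem_filter.mp hy).2)
    exact (Nat.pow_le_pow_left h1 _).trans (Nat.pow_le_pow_right hd h1)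
  · intro r hr
    obtain ⟨a, -, rfl⟩ := mem_image.mp hr
    by_cases h : ∃ r, Q u r ∧ ∀ z : F u, r • (z : Ω) = a z
    · rw [dif_pos h]
      exact h.choose_spec.1
    · rw [dif_neg h]
      exact hQ1 u
  · intro g hg hgu
    obtain ⟨r, hr, h1, h2, h3⟩ := hL.der u hu g hg hgu
    have hmaps : ∀ z ∈ F u, r • z ∈ F u := by
      intro z hz
      obtain ⟨hzT, hzu⟩ := mem_filter.mp hz
      exact mem_filter.mpr ⟨hL.inv r hr z hzT, by rw [hL.hf, hzu, h2 u hu]⟩
    set a : F u → F u := fun z => ⟨r • (z : Ω), hmaps z z.2⟩ with ha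
    have h : ∃ r, Q u r ∧ ∀ z : F u, r • (z : Ω) = a z := ⟨r, ⟨hr, h1, h2⟩, fun z => rfl⟩
    refine ⟨_, mem_image.mpr ⟨a, mem_univ _, rfl⟩, ?_⟩
    intro z hz hzu
    rw [dif_pos h, mul_smul, h.choose_spec.2 ⟨z, mem_filter.mpr ⟨hz, hzu⟩⟩]
    have h4 := h3 z hz hzu
    rw [mul_smul] at h4
    exact h4

open Classical in
/-- the fixed vertices -/
noncomputable def fx (s : G) (U : Finset Ω) (g : G) : Finset Ω :=
  U.filter (fun u => (s * g) • u = u)

theorem mem_fx {g : G} {u : Ω} : u ∈ fx s U g ↔ u ∈ U ∧ (s * g) • u = u := by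
  classical
  rw [fx, mem_filter]

open Classical in
theorem card_hit2 [Fintype G] (hL : Lvl2 H s f d T U) {y z : Ω} (hy : y ∈ U) (hz : z ∈ U) :
    U.card * ((HH H).filter (fun g => g • y = z)).card = (HH H).card := by
  have h1 : (HH H).card = ∑ z' ∈ U, ((HH H).filter (fun g => g • y = z')).card :=
    card_eq_sum_card_fiberwise (fun g hg => hL.invU g (mem_HH.mp hg) y hy)
  rw [h1, ← smul_eq_mul, ← sum_const]
  refine sum_congr rfl fun z' hz' => ?_
  obtain ⟨k, hk, hkz⟩ := hL.tr z hz z' hz'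
  refine card_bij (fun g _ => k * g) ?_ ?_ ?_
  · intro g hg
    rw [mem_filter] at hg ⊢
    exact ⟨mem_HH.mpr (H.mul_mem hk (mem_HH.mp hg.1)), by rw [mul_smul, hg.2, hkz]⟩
  · intro a _ b _ hab
    exact mul_left_cancel hab
  · intro g hg
    rw [mem_filter] at hg
    refine ⟨k⁻¹ * g, ?_, by group⟩
    rw [mem_filter]
    refine ⟨mem_HH.mpr (H.mul_mem (H.inv_mem hk) (mem_HH.mp hg.1)), ?_⟩
    rw [mul_smul, hg.2, ← hkz, inv_smul_smul]

theorem sum_fx [Fintype G] (hL : Lvl2 H s f d T U) (hU : U.Nonempty) :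
    ∑ g ∈ HH H, (fx s U g).card = (HH H).card := by
  classical
  have h1 : ∑ g ∈ HH H, (fx s U g).card =
      ∑ x ∈ U, ((HH H).filter (fun g => g • x = s⁻¹ • x)).card := by
    simp only [fx, card_filter]
    rw [sum_comm]
    refine sum_congr rfl fun x _ => sum_congr rfl fun g _ => ?_
    have : ((s * g) • x = x) ↔ (g • x = s⁻¹ • x) := by
      rw [mul_smul, smul_eq_iff_eq_inv_smul]
    simp only [this]
  have h2 : ∀ x ∈ U, U.card * ((HH H).filter (fun g => g • x = s⁻¹ • x)).card = (HH H).card :=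
    fun x hx => card_hit2 hL hx (hL.sinv x hx)
  have h3 : U.card * ∑ g ∈ HH H, (fx s U g).card = U.card * (HH H).card := by
    rw [h1, mul_sum, sum_congr rfl h2, sum_const, smul_eq_mul]
  exact Nat.eq_of_mul_eq_mul_left hU.card_pos h3

open Classical in
theorem markov2 [Fintype G] (hL : Lvl2 H s f d T U) (hU : U.Nonempty) (m : ℕ) :
    (m + 1) * ((HH H).filter (fun g => m < (fx s U g).card)).card ≤ (HH H).card := by
  rw [← sum_fx hL hU, mul_comm, ← smul_eq_mul, ← sum_const]
  refine (sum_le_sum (f := fun _ => m + 1) (g := fun g => (fx s U g).card) ?_).trans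
    (sum_le_sum_of_subset (filter_subset _ _))
  intro g hg
  exact (mem_filter.mp hg).2

/-- a product of elements fixing a point -/
theorem prod_fix (l : List Ω) (r : Ω → G) (z : Ω) (h : ∀ u ∈ l, r u • z = z) :
    (l.map r).prod • z = z := by
  induction l with
  | nil => simp
  | cons a l ih =>
    rw [List.map_cons, List.prod_cons, mul_smul, ih (fun u hu => h u (List.mem_cons_of_mem _ hu)),
      h a List.mem_cons_self]

/-- a product of elements with only one moving a point -/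
theorem prod_one (l : List Ω) (hl : l.Nodup) (r : Ω → G) (u0 : Ω) (hu0 : u0 ∈ l) (z : Ω)
    (h : ∀ u ∈ l, u ≠ u0 → r u • z = z) (h' : ∀ u ∈ l, u ≠ u0 → r u • r u0 • z = r u0 • z) :
    (l.map r).prod • z = r u0 • z := by
  induction l with
  | nil => simp at hu0
  | cons a l ih =>
    rw [List.map_cons, List.prod_cons, mul_smul]
    rw [List.nodup_cons] at hl
    by_cases ha : a = u0
    · subst ha
      rw [prod_fix l r z]
      intro u hu
      exact h u (List.mem_cons_of_mem _ hu) (fun h2 => hl.1 (h2 ▸ hu))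
    · have hu : u0 ∈ l := by
        rcases List.mem_cons.mp hu0 with h2 | h2
        · exact absurd h2.symm ha
        · exact h2
      rw [ih hl.2 hu (fun u hu => h u (List.mem_cons_of_mem _ hu))
        (fun u hu => h' u (List.mem_cons_of_mem _ hu))]
      exact h' a List.mem_cons_self ha

open Classical in
/-- comparison of the elements with fixed vertices on two levels -/
theorem drop_aux2 [Fintype G] (hd : 0 < d) (hL : Lvl2 H s f d T U) (m : ℕ) :
    ((HH H).filter (fun g => FixU s U g ∧ (fx s U g).card ≤ m)).card ≤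
      (d ^ d) ^ m * ((HH H).filter (fun g => ¬ FixU s T g ∧ FixU s U g)).card := by
  obtain ⟨R, hR⟩ := exists_R hd hL
  -- the chosen representatives
  have hr : ∀ (g : G) (u : Ω), ∃ r : G, g ∈ H → u ∈ fx s U g →
      r ∈ R u ∧ ∀ z ∈ T, f z = u → (s * g * r) • z ≠ z := by
    intro g u
    by_cases h : g ∈ H ∧ u ∈ fx s U g
    · obtain ⟨hu, hgu⟩ := mem_fx.mp h.2
      obtain ⟨r, hr⟩ := (hR u hu).2.2 g h.1 hgu
      exact ⟨r, fun _ _ => hr⟩
    · exact ⟨1, fun h1 h2 => absurd ⟨h1, h2⟩ h⟩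
  choose r hr using hr
  set pr : G → G := fun g => ((fx s U g).toList.map (r g)).prod with hpr
  have hmem : ∀ {g u}, u ∈ (fx s U g).toList ↔ u ∈ fx s U g := fun {g u} => mem_toList
  have hpH : ∀ g ∈ H, pr g ∈ H := by
    intro g hg
    apply Subgroup.list_prod_mem
    intro x hx
    obtain ⟨u, hu, rfl⟩ := List.mem_map.mp hx
    have hu' := hmem.mp hu
    exact ((hR u (mem_fx.mp hu').1).2.1 _ (hr g u hg hu').1).1
  have hpU : ∀ g ∈ H, ∀ v ∈ U, pr g • v = v := by
    intro g hg v hv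
    apply prod_fix
    intro u hu
    have hu' := hmem.mp hu
    exact ((hR u (mem_fx.mp hu').1).2.1 _ (hr g u hg hu').1).2.2 v hv
  have hfx : ∀ g ∈ H, fx s U (g * pr g) = fx s U g := by
    intro g hg
    ext u
    rw [mem_fx, mem_fx]
    refine and_congr_right fun hu => ?_
    rw [← mul_assoc, mul_smul, hpU g hg u hu]
  have hnofix : ∀ g ∈ H, ¬ FixU s T (g * pr g) := by
    rintro g hg ⟨z, hz, hzf⟩
    have h1 : (s * g) • f z = f z := by
      have h2 := hL.hf (s * (g * pr g)) z
      rw [hzf, ← mul_assoc, mul_smul, hpU g hg _ (hL.par z hz)] at h2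
      exact h2.symm
    have hu : f z ∈ fx s U g := mem_fx.mpr ⟨hL.par z hz, h1⟩
    have h2 : pr g • z = r g (f z) • z := by
      apply prod_one _ (nodup_toList _) (r g) (f z) (hmem.mpr hu)
      · intro u hu' hne
        have hu'' := hmem.mp hu'
        exact ((hR u (mem_fx.mp hu'').1).2.1 _ (hr g u hg hu'').1).2.1 z hz (Ne.symm hne)
      · intro u hu' hne
        have hu'' := hmem.mp hu'
        obtain ⟨h3, h4, h5⟩ := (hR (f z) (hL.par z hz)).2.1 _ (hr g (f z) hg hu).1
        apply ((hR u (mem_fx.mp hu'').1).2.1 _ (hr g u hg hu'').1).2.1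
        · exact hL.inv _ h3 z hz
        · rw [hL.hf, h5 _ (hL.par z hz)]
          exact Ne.symm hne
    apply (hr g (f z) hg hu).2 z hz rfl
    rw [mul_smul, ← h2, ← mul_smul, mul_assoc]
    exact hzf
  refine card_le_mul_card_image_of_maps_to (f := fun g => g * pr g) ?_ _ ?_
  · intro g hg
    obtain ⟨hgH, hgU, _⟩ := mem_filter.mp hg
    have hgH' := mem_HH.mp hgH
    refine mem_filter.mpr ⟨mem_HH.mpr (H.mul_mem hgH' (hpH g hgH')), hnofix g hgH', ?_⟩
    obtain ⟨u, hu, hgu⟩ := hgU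
    exact ⟨u, hu, by rw [← mul_assoc, mul_smul, hpU g hgH' u hu, hgu]⟩
  · intro g' _
    set A := fx s U g' with hA
    set S := ((HH H).filter (fun g => FixU s U g ∧ (fx s U g).card ≤ m)).filter
      (fun g => g * pr g = g') with hS
    have hSm : ∀ g ∈ S, g ∈ H ∧ fx s U g = A ∧ g * pr g = g' ∧ A.card ≤ m := by
      intro g hg
      obtain ⟨hg1, hg2⟩ := mem_filter.mp hg
      obtain ⟨hgH, _, hgm⟩ := mem_filter.mp hg1
      have h1 := hfx g (mem_HH.mp hgH)
      rw [hg2] at h1
      exact ⟨mem_HH.mp hgH, h1.symm, hg2, by rw [hA, h1]; exact hgm⟩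
    rcases S.eq_empty_or_nonempty with h0 | ⟨g1, hg1⟩
    · rw [h0, card_empty]; exact Nat.zero_le _
    have hAm := (hSm g1 hg1).2.2.2
    have h1 : S.card ≤ (A.pi R).card := by
      refine card_le_card_of_injOn (fun g => fun u _ => r g u) ?_ ?_
      · intro g hg
        obtain ⟨h1, h2, h3, _⟩ := hSm g (mem_coe.mp hg)
        rw [mem_coe, mem_pi]
        intro u hu
        exact (hr g u h1 (by rw [h2]; exact hu)).1
      · intro a ha b hb hab
        obtain ⟨ha1, ha2, ha3, _⟩ := hSm a (mem_coe.mp ha)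
        obtain ⟨hb1, hb2, hb3, _⟩ := hSm b (mem_coe.mp hb)
        have h4 : pr a = pr b := by
          rw [hpr]
          simp only
          rw [ha2, hb2]
          congr 1
          apply List.map_congr_left
          intro u hu
          exact congrFun (congrFun hab u) (mem_toList.mp hu)
        have h5 : a * pr a = b * pr b := ha3.trans hb3.symm
        rw [h4] at h5
        exact mul_right_cancel h5
    rw [card_pi] at h1
    refine h1.trans ?_
    calc ∏ u ∈ A, (R u).card ≤ ∏ _u ∈ A, d ^ d := prod_le_prod' (fun u hu => (hR u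
          (mem_fx.mp hu).1).1)
      _ = (d ^ d) ^ A.card := by rw [prod_const]
      _ ≤ (d ^ d) ^ m := Nat.pow_le_pow_right (pow_pos hd _) hAm

open Classical in
/-- the number of elements with a fixed vertex of the level drops -/
theorem drop2 [Fintype G] (hd : 0 < d) (hL : Lvl2 H s f d T U) (hU : U.Nonempty) {ε : ℝ}
    (hε : 0 < ε) {m : ℕ} (hm : 2 / ε ≤ m + 1)
    (h : ε * (HH H).card ≤ ((HH H).filter (fun g => FixU s T g)).card) :
    ((HH H).filter (fun g => FixU s T g)).card + ε / (2 * ((d : ℝ) ^ d) ^ m) * (HH H).card ≤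
      ((HH H).filter (fun g => FixU s U g)).card := by
  set A := (HH H).filter (fun g => FixU s T g) with hA
  set D := (HH H).filter (fun g => FixU s U g) with hD
  set S0 := (HH H).filter (fun g => ¬ FixU s T g ∧ FixU s U g) with hS0
  set S := (HH H).filter (fun g => FixU s U g ∧ (fx s U g).card ≤ m) with hS
  set P := (HH H).filter (fun g => m < (fx s U g).card) with hP
  have hAD : A ⊆ D := by
    intro g hg
    rw [hA, mem_filter] at hg
    obtain ⟨hgH, x, hx, hxf⟩ := hg
    rw [hD, mem_filter]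
    exact ⟨hgH, f x, hL.par x hx, by rw [← hL.hf, hxf]⟩
  have h1 : D ⊆ S ∪ P := by
    intro g hg
    rw [hD, mem_filter] at hg
    rw [mem_union, hS, hP, mem_filter, mem_filter]
    by_cases h2 : (fx s U g).card ≤ m
    · exact Or.inl ⟨hg.1, hg.2, h2⟩
    · exact Or.inr ⟨hg.1, not_le.mp h2⟩
  have h2 : D.card ≤ S.card + P.card := (card_le_card h1).trans (card_union_le _ _)
  have h3 : A.card + S0.card ≤ D.card := by
    rw [← card_union_of_disjoint]
    · apply card_le_card
      intro g hg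
      rcases mem_union.mp hg with hg | hg
      · exact hAD hg
      · rw [hS0, mem_filter] at hg
        rw [hD, mem_filter]
        exact ⟨hg.1, hg.2.2⟩
    · rw [disjoint_left]
      intro g hg hg'
      rw [hA, mem_filter] at hg
      rw [hS0, mem_filter] at hg'
      exact hg'.2.1 hg.2
  have h4 := drop_aux2 hd hL m
  have h5 := markov2 hL hU m
  have h6 := card_le_card hAD
  have hn0 : (0 : ℝ) ≤ (HH H).card := Nat.cast_nonneg _
  have h2' : (D.card : ℝ) ≤ S.card + P.card := by exact_mod_cast h2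
  have h3' : (A.card : ℝ) + S0.card ≤ D.card := by exact_mod_cast h3
  have h4' : (S.card : ℝ) ≤ ((d : ℝ) ^ d) ^ m * S0.card := by exact_mod_cast h4
  have h5' : ((m : ℝ) + 1) * P.card ≤ (HH H).card := by exact_mod_cast h5
  have h6' : (A.card : ℝ) ≤ D.card := by exact_mod_cast h6
  have hm' : 2 ≤ ((m : ℝ) + 1) * ε := by rwa [div_le_iff₀ hε] at hm
  have hP' : (P.card : ℝ) ≤ ε / 2 * (HH H).card := by
    have h7 : (0 : ℝ) ≤ P.card := Nat.cast_nonneg _
    nlinarith
  have h8 : ε / 2 * (HH H).card ≤ ((d : ℝ) ^ d) ^ m * S0.card := by linarith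
  have hdR : (0 : ℝ) < d := by exact_mod_cast hd
  have hpos : (0 : ℝ) < ((d : ℝ) ^ d) ^ m := by positivity
  have h10 : ε / (2 * ((d : ℝ) ^ d) ^ m) * (HH H).card ≤ S0.card := by
    rw [div_mul_eq_mul_div, div_le_iff₀ (by positivity)]
    linarith
  linarith

end level

open Classical in
/-- **Few fixed vertices.** -/
theorem kill2 (d : ℕ) (hd : 0 < d) (ε : ℝ) (hε : 0 < ε) : ∃ B : ℕ, ∀ (G Ω : Type) [Group G]
    [Fintype G] [MulAction G Ω] (H : Subgroup G) (s : G) (f : Ω → Ω) (T : ℕ → Finset Ω),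
    (∀ h < B, (T h).Nonempty ∧ Lvl2 H s f d (T (h + 1)) (T h)) →
    (((HH H).filter (fun g => FixU s (T B) g)).card : ℝ) ≤ ε * (HH H).card := by
  obtain ⟨m, hm⟩ := exists_nat_ge (2 / ε)
  have hm' : 2 / ε ≤ (m : ℝ) + 1 := by linarith
  have hdR : (0 : ℝ) < d := by exact_mod_cast hd
  set δ : ℝ := ε / (2 * ((d : ℝ) ^ d) ^ m) with hδ
  have hδ0 : 0 < δ := by positivity
  obtain ⟨B, hB⟩ := exists_nat_gt (1 / δ)
  refine ⟨B, ?_⟩
  intro G Ω _ _ _ H s f T hT
  by_contra hcon
  push Not at hcon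
  set t : ℕ → ℕ := fun h => ((HH H).filter (fun g => FixU s (T h) g)).card with ht
  have hpos : (0 : ℝ) < (HH H).card := by
    have : (1 : G) ∈ HH H := mem_HH.mpr H.one_mem
    exact_mod_cast card_pos.mpr ⟨1, this⟩
  have key : ∀ k ≤ B, ε * (HH H).card + k * (δ * (HH H).card) ≤ t (B - k) := by
    intro k
    induction k with
    | zero =>
      intro _
      simp only [Nat.cast_zero, zero_mul, add_zero, Nat.sub_zero]
      exact hcon.le
    | succ k ih =>
      intro hk
      have h1 := ih (by omega)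
      obtain ⟨h2, h3⟩ := hT (B - (k + 1)) (by omega)
      rw [show B - (k + 1) + 1 = B - k by omega] at h3
      have h4 := drop2 hd h3 h2 hε hm' (le_trans (by
        have : (0 : ℝ) ≤ k * (δ * (HH H).card) := by positivity
        linarith) h1)
      push_cast
      have h5 : (t (B - k) : ℝ) + δ * (HH H).card ≤ t (B - (k + 1)) := h4
      linarith
  have h1 := key B le_rfl
  rw [Nat.sub_self] at h1
  have h2 : t 0 ≤ (HH H).card := card_le_card (filter_subset _ _)
  have h2' : (t 0 : ℝ) ≤ (HH H).card := by exact_mod_cast h2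
  rw [div_lt_iff₀ hδ0] at hB
  have h3 : (HH H).card < B * (δ * (HH H).card) := by
    have := mul_lt_mul_of_pos_right hB hpos
    linarith
  have h4 : 0 < ε * (HH H).card := mul_pos hε hpos
  linarith

end Pool.Agent.Arb3
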