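import Pool.Agent.Arb3.WindowP
import Pool.Agent.Arb2.NormEven

/-!
# Norms of elements with valuations divisible by `n`
-/

set_option autoImplicit false

open IsDedekindDomain NumberField UniqueFactorizationMonoid
open scoped WithZero

namespace Pool.Agent.Arb3

open Pool.Agent.Arb (valuation_eq_count)
open Pool.Agent.Arb2 (Un Un.over)

theorem norm_pow {F M : Type} [Field F] [NumberField F] [Field M] [NumberField M] [Algebra F M]
    {n : ℕ} (hn : 0 < n) (p : HeightOneSpectrum (𝓞 F)) (α : M) (hα : α ≠ 0)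
    (h : ∀ P : HeightOneSpectrum (𝓞 M), P.asIdeal.LiesOver p.asIdeal →
      ∃ m : ℤ, P.valuation M α = WithZero.exp (n * m)) :
    ∃ m : ℤ, p.valuation F (Algebra.norm F α) = WithZero.exp (n * m) := by
  classical
  obtain ⟨x, y, hy, hxy⟩ := IsFractionRing.div_surjective (A := 𝓞 M) α
  have hy0 : y ≠ 0 := nonZeroDivisors.ne_zero hy
  have hyM : (y : M) ≠ 0 := RingOfIntegers.coe_ne_zero_iff.2 hy0
  have hxy' : α * (y : M) = (x : M) := by
    rw [← hxy]
    exact div_mul_cancel₀ _ hyM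
  have hx0M : (x : M) ≠ 0 := by
    rw [← hxy']; exact mul_ne_zero hα hyM
  have hxne : x ≠ 0 := RingOfIntegers.coe_ne_zero_iff.1 hx0M
  obtain ⟨β, hβ⟩ : ∃ β : 𝓞 M, β = x * y ^ (n - 1) := ⟨_, rfl⟩
  have hβ0 : β ≠ 0 := by rw [hβ]; exact mul_ne_zero hxne (pow_ne_zero _ hy0)
  have hn1 : n = (n - 1) + 1 := by omega
  have hβM : (β : M) = α * (y : M) ^ n := by
    have h1 : ((x * y ^ (n - 1) : 𝓞 M) : M) = (x : M) * (y : M) ^ (n - 1) := by
      push_cast
      rfl
    rw [hβ, h1, ← hxy']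
    conv_rhs => rw [hn1, pow_succ]
    ring
  have hspan0 : Ideal.span {β} ≠ (⊥ : Ideal (𝓞 M)) := by
    rw [Ne, Ideal.span_singleton_eq_bot]; exact hβ0
  set S : Finset (Ideal (𝓞 M)) := (normalizedFactors (Ideal.span {β})).toFinset.filter
    (fun P => ¬ P.LiesOver p.asIdeal) with hS
  have hcount : ∀ P ∈ normalizedFactors (Ideal.span {β}), P ∉ S →
      n ∣ ((normalizedFactors (Ideal.span {β})).count P) := by
    intro P hP hPS
    have hpr := prime_of_normalized_factor P hP
    set v : HeightOneSpectrum (𝓞 M) := ⟨P, Ideal.isPrime_of_prime hpr, hpr.ne_zero⟩ with hv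
    have hvS : v.asIdeal.LiesOver p.asIdeal := by
      by_contra hcon
      apply hPS
      rw [hS, Finset.mem_filter, Multiset.mem_toFinset]
      exact ⟨hP, hcon⟩
    obtain ⟨k, hk⟩ := h v hvS
    have h1 := valuation_eq_count v β hβ0
    have h2 := valuation_eq_count v y hy0
    rw [hβM, map_mul, map_pow, hk, h2, ← WithZero.exp_nsmul, ← WithZero.exp_add,
      WithZero.exp_inj] at h1
    have h3 : ((normalizedFactors (Ideal.span {β})).count v.asIdeal : ℤ) =
        n * ((normalizedFactors (Ideal.span {y})).count v.asIdeal - k) := by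
      simp only [nsmul_eq_mul] at h1
      linarith
    have h4 : (n : ℤ) ∣ ((normalizedFactors (Ideal.span {β})).count v.asIdeal : ℤ) := by
      rw [h3]; exact dvd_mul_right _ _
    exact Int.natCast_dvd_natCast.mp h4
  obtain ⟨b, hb0, k, hk, hkS, hdec⟩ := ideal_decomp hn S (Ideal.span {β}) hspan0 hcount
  -- the norm of the ideal
  have h1 := congrArg (Ideal.relNorm (𝓞 F)) hdec
  rw [Ideal.relNorm_singleton, map_mul, map_pow, map_prod] at h1
  set ν := Algebra.intNorm (𝓞 F) (𝓞 M) β with hν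
  have hν0 : ν ≠ 0 := by
    intro h0
    have h2 : Ideal.relNorm (𝓞 F) (Ideal.span {β}) = ⊥ := by
      rw [Ideal.relNorm_singleton, ← hν, h0, Ideal.span_singleton_eq_bot]
    exact hspan0 (Ideal.relNorm_eq_bot_iff.mp h2)
  have hνspan : Ideal.span {ν} ≠ (0 : Ideal (𝓞 F)) := by
    rw [Ne, Ideal.zero_eq_bot, Ideal.span_singleton_eq_bot]; exact hν0
  have hT0 : ∏ P ∈ S, Ideal.relNorm (𝓞 F) (P ^ k P) ≠ 0 := by
    intro h0
    rw [h0, mul_zero] at h1
    exact hνspan h1
  have hb0' : Ideal.relNorm (𝓞 F) b ≠ 0 := by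
    intro h0
    exact hb0 (Ideal.relNorm_eq_bot_iff.mp h0)
  have hTc : (normalizedFactors (∏ P ∈ S, Ideal.relNorm (𝓞 F) (P ^ k P))).count p.asIdeal = 0 := by
    rw [Multiset.count_eq_zero]
    intro hmem
    have hdvd := dvd_of_mem_normalizedFactors hmem
    have hpp : Prime p.asIdeal := p.prime
    obtain ⟨P, hP, hPd⟩ := (hpp.dvd_finsetProd_iff _).mp hdvd
    have hPS := Finset.mem_filter.mp hP
    have hPpr := prime_of_normalized_factor P (Multiset.mem_toFinset.mp hPS.1)
    have hPprime : P.IsPrime := Ideal.isPrime_of_prime hPpr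
    have hlo : P.LiesOver (P.under (𝓞 F)) := ⟨rfl⟩
    obtain ⟨s, hs⟩ := Ideal.exists_relNorm_eq_pow_of_isPrime P (P.under (𝓞 F))
    rw [map_pow, hs, ← pow_mul] at hPd
    have h3 := hpp.dvd_of_dvd_pow hPd
    -- both are maximal
    have h4 : P.under (𝓞 F) ≤ p.asIdeal := Ideal.le_of_dvd h3
    have h5 : P.under (𝓞 F) ≠ ⊥ := by
      intro h6
      exact hPpr.ne_zero (Ideal.eq_bot_of_comap_eq_bot h6)
    have h6 : (P.under (𝓞 F)).IsPrime := inferInstance
    have h7 : (P.under (𝓞 F)).IsMaximal := h6.isMaximal h5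
    have h8 : P.under (𝓞 F) = p.asIdeal := h7.eq_of_le p.isPrime.ne_top h4
    exact hPS.2 ⟨h8.symm⟩
  have h2 : (normalizedFactors (Ideal.span {ν})).count p.asIdeal =
      n * (normalizedFactors (Ideal.relNorm (𝓞 F) b)).count p.asIdeal := by
    rw [h1, normalizedFactors_mul (pow_ne_zero _ hb0') hT0, Multiset.count_add, hTc, add_zero,
      normalizedFactors_pow, Multiset.count_nsmul]
  have h3 := valuation_eq_count p ν hν0
  rw [h2] at h3
  have h4 : ((ν : 𝓞 F) : F) = Algebra.norm F (α * (y : M) ^ n) := by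
    rw [← hβM]
    exact Algebra.algebraMap_intNorm (K := F) (L := M) β
  have hny : Algebra.norm F (y : M) ≠ 0 := Algebra.norm_ne_zero_iff.mpr hyM
  rw [h4, map_mul, map_mul, map_pow, map_pow] at h3
  have hvy : p.valuation F (Algebra.norm F (y : M)) ≠ 0 := (Valuation.ne_zero_iff _).mpr hny
  refine ⟨-((normalizedFactors (Ideal.relNorm (𝓞 F) b)).count p.asIdeal : ℤ) -
    WithZero.log (p.valuation F (Algebra.norm F (y : M))), ?_⟩
  rw [← WithZero.exp_log hvy] at h3
  have h5 : p.valuation F (Algebra.norm F α) =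
      WithZero.exp (-((n * (normalizedFactors (Ideal.relNorm (𝓞 F) b)).count p.asIdeal : ℕ) : ℤ)) /
        (WithZero.exp (WithZero.log (p.valuation F (Algebra.norm F (y : M))))) ^ n := by
    rw [eq_div_iff (pow_ne_zero _ WithZero.exp_ne_zero)]
    exact h3
  rw [h5, ← WithZero.exp_nsmul, ← WithZero.exp_sub]
  congr 1
  simp only [nsmul_eq_mul]
  push_cast
  ring

theorem PowOff.norm {n : ℕ} (hn : 0 < n) {K F M : Type} [Field K] [Field F] [NumberField F]
    [Field M] [NumberField M]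
    [Algebra K F] [Algebra K M] [Algebra F M] [IsScalarTower K F M] {D : Finset K} {α : M}
    (hα : α ≠ 0) (h : PowOff n D α) : PowOff n D (Algebra.norm F α) := by
  intro p hp
  exact norm_pow hn p α hα fun P hP => h P (Un.over.mpr hp)

theorem PowOff.extend {n : ℕ} {K F M : Type} [Field K] [Field F] [NumberField F] [Field M]
    [NumberField M] [Algebra K F] [Algebra K M] [Algebra F M] [IsScalarTower K F M]
    {D : Finset K} {a : F} (h : PowOff n D a) : PowOff n D (algebraMap F M a) := by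
  intro P hP
  set p := P.under (𝓞 F) with hp
  have hlo : P.asIdeal.LiesOver p.asIdeal := ⟨rfl⟩
  obtain ⟨m, hm⟩ := h p (Un.over.mp hP)
  refine ⟨(p.asIdeal.ramificationIdx' P.asIdeal : ℤ) * m, ?_⟩
  rw [← HeightOneSpectrum.valuation_liesOver M p P a, hm, ← WithZero.exp_nsmul]
  congr 1
  simp only [nsmul_eq_mul]
  ring

end Pool.Agent.Arb3
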