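import Pool.Agent.Arb3.RungeP1
import Pool.Agent.Arb2.Runge

/-!
# Runge's method: a bounded number of values in windows that are powers
-/

set_option autoImplicit false

open Filter Topology NumberField Polynomial

namespace Pool.Agent.Arb3

open Pool.Agent.Arb (av wt wt_pos plS prod_ge small_zero exists_bound)
open Pool.Agent.TameArb (itp itp_succ itp_natDegree)
open Pool.Agent.Arb2 (Nr La tends_v eval_bound ev_bound ev_small ev_lower degree_sub_lead ev_grow
  tends_eval Esc esc_or fin_eval_le exists_T orbit_le_one exists_esc orbit_itp)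

section glob

variable {M : Type*} [Field M] [NumberField M] {n : ℕ}

/-- Two power values with a common phase at all places cannot be at the distance `j`. -/
theorem claim (hn : 1 ≤ n) {ζ : M} (hζ : IsPrimitiveRoot ζ n) {φ : M[X]} (hd : 2 ≤ φ.natDegree)
    {z : ℕ → M} (hz : ∀ n, z (n + 1) = φ.eval (z n)) (hinj : Function.Injective z)
    {g : M[X]} {E : ℕ} {b : M} (hb : b ≠ 0) (hgd : g.natDegree = n * E)
    (hgl : g.leadingCoeff = b ^ n)
    {T : Finset (FinitePlace M)} (hT : ∀ w ∉ T, (∀ i, w (φ.coeff i) ≤ 1) ∧ w (z 0) ≤ 1)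
    {j : ℕ} (hns : ¬ ∃ Q, g ^ (n - 1) * g.comp (itp φ j) = Q ^ n) :
    ∃ N, ∀ k ≥ N, ∀ s s', s ^ n = g.eval (z k) → s' ^ n = g.eval (z (k + j)) →
      (∀ p ∈ plS T, ∃ ω, Ph (av p) n E b (z k) s ω ∧ Ph (av p) n E b (z (k + j)) s' ω) →
      False := by
  classical
  have hn0 : 0 < n := hn
  set ψ := itp φ j with hψdef
  have hψ : 0 < ψ.natDegree := by
    rw [hψdef, itp_natDegree]
    exact pow_pos (by omega) _
  have hψ0 : ψ ≠ 0 := by rintro h; rw [h] at hψ; simp at hψ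
  have hl0 := leadingCoeff_ne_zero.mpr hψ0
  set D := (n - 1) * E + E * ψ.natDegree with hD
  set β := b ^ n * ψ.leadingCoeff ^ E with hβ
  have hβ0 : β ≠ 0 := by positivity
  have hg : Nr g (C (b ^ n) * X ^ (n * E)) (n * E) := nr_lc hgd hgl
  have hG : Nr (g ^ (n - 1) * g.comp ψ) (C (β ^ n) * X ^ (n * D)) (n * D) := by
    have h1 := nr_pow hg (n - 1)
    have h2 : Nr (g.comp ψ) (C (b ^ n * ψ.leadingCoeff ^ (n * E)) * X ^ (n * E * ψ.natDegree))
        (n * E * ψ.natDegree) :=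
      nr_lc (by rw [natDegree_comp, hgd]) (by rw [leadingCoeff_comp hψ.ne', hgl, hgd])
    have h3 := nr_mul h1 h2
    have h4 : (b ^ n) ^ (n - 1) * (b ^ n * ψ.leadingCoeff ^ (n * E)) = β ^ n := by
      rw [hβ, ← mul_assoc, ← pow_succ, Nat.sub_add_cancel hn, mul_pow, ← pow_mul ψ.leadingCoeff,
        mul_comm E]
    have h5 : (n - 1) * (n * E) + n * E * ψ.natDegree = n * D := by rw [hD]; ring
    rwa [h4, h5] at h3
  obtain ⟨Q, hQ1, hQ2⟩ := exists_root (g ^ (n - 1) * g.comp ψ) hn (Nat.cast_ne_zero.mpr hn0.ne')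
    hβ0 hG
  -- a larger set of places
  obtain ⟨T₁, hT₁⟩ := exists_T Q
  obtain ⟨T₂, hT₂⟩ := exists_T g
  set T' := T ∪ (T₁ ∪ T₂) with hT'
  have hw' : ∀ w ∉ T', ((∀ i, w (φ.coeff i) ≤ 1) ∧ w (z 0) ≤ 1) ∧ (∀ i, w (Q.coeff i) ≤ 1) ∧
      ∀ i, w (g.coeff i) ≤ 1 := by
    intro w hw
    rw [hT', Finset.mem_union, Finset.mem_union, not_or, not_or] at hw
    exact ⟨hT w hw.1, hT₁ w hw.2.1, hT₂ w hw.2.2⟩
  have hesc : ∀ p ∈ plS T', Esc (av p) z → p ∈ plS T := by
    intro p hp h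
    rcases p with w | w
    · rw [plS, Finset.inl_mem_disjSum]
      exact Finset.mem_univ _
    · rw [plS, Finset.inr_mem_disjSum]
      by_contra hw
      have h3 := (tends_v (av (Sum.inr w))).comp h
      have h4 := h3.eventually_gt_atTop 1
      obtain ⟨k, hk⟩ := h4.exists
      exact absurd (orbit_le_one hz (hT w hw).1 (hT w hw).2 k) (not_le.mpr hk)
  -- bounds at the places where the orbit is bounded
  have hB : ∀ p : InfinitePlace M ⊕ FinitePlace M, ∃ B : ℝ, (∃ R : ℝ, 0 ≤ R ∧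
      ∀ k, av p (z k) ≤ R) → ∀ k s s', s ^ n = g.eval (z k) → s' ^ n = g.eval (z (k + j)) →
      av p (s ^ (n - 1) * s' - Q.eval (z k)) ≤ B := by
    intro p
    by_cases h : ∃ R : ℝ, 0 ≤ R ∧ ∀ k, av p (z k) ≤ R
    · obtain ⟨R, hR0, hR⟩ := h
      obtain ⟨C₁, hC₁, h3⟩ := eval_bound (av p) g
      obtain ⟨C₂, hC₂, h4⟩ := eval_bound (av p) Q
      set A := C₁ * max 1 R ^ g.natDegree with hA
      have hA0 : 0 ≤ A := by positivity
      have hgb : ∀ k, av p (g.eval (z k)) ≤ A := by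
        intro k
        refine (h3 _ _ le_rfl).trans ?_
        exact mul_le_mul_of_nonneg_left (pow_le_pow_left₀ (by positivity)
          (max_le_max le_rfl (hR k)) _) hC₁
      have hs : ∀ k s, s ^ n = g.eval (z k) → av p s ≤ A + 1 := by
        intro k s hs
        have h5 := hgb k
        rw [← hs, map_pow] at h5
        by_contra hcon
        push Not at hcon
        have h6 : (1 : ℝ) ≤ av p s := by linarith
        have h7 : av p s ≤ av p s ^ n := le_self_pow₀ h6 hn0.ne'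
        linarith
      refine ⟨(A + 1) ^ (n - 1) * (A + 1) + C₂ * max 1 R ^ Q.natDegree, fun _ k s s' h5 h6 => ?_⟩
      rw [sub_eq_add_neg]
      refine ((av p).add_le _ _).trans (add_le_add ?_ ?_)
      · rw [map_mul, map_pow]
        exact mul_le_mul (pow_le_pow_left₀ ((av p).nonneg _) (hs k s h5) _) (hs _ s' h6)
          ((av p).nonneg _) (by positivity)
      · rw [(av p).map_neg]
        refine (h4 _ _ le_rfl).trans ?_
        exact mul_le_mul_of_nonneg_left (pow_le_pow_left₀ (by positivity)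
          (max_le_max le_rfl (hR k)) _) hC₂
    · exact ⟨0, fun h' => absurd h' h⟩
  choose B hB using hB
  obtain ⟨ε, hε, h1⟩ := small_zero T' fun p => max 1 (B p)
  obtain ⟨p₀, hp₀, hesc₀⟩ := exists_esc hd hz hinj (T := T') fun w hw => (hw' w hw).1
  obtain ⟨N₁, hN₁⟩ := exists_bound (plS T')
      (P := fun p N => Esc (av p) z → ∀ k ≥ N, ∀ s s', s ^ n = g.eval (z k) →
        s' ^ n = g.eval (z (k + j)) →
        (∃ ω, Ph (av p) n E b (z k) s ω ∧ Ph (av p) n E b (z (k + j)) s' ω) →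
        av p (s ^ (n - 1) * s' - Q.eval (z k)) ≤ min ε 1)
      (fun p m n hmn h h3 k hk => h h3 k (hmn.trans hk))
      (fun p _ => by
        by_cases hv : Esc (av p) z
        · have h3 := loc_small (av p) hn hζ hb hψ hg hQ1 hQ2 (lt_min hε one_pos)
          obtain ⟨N, hN⟩ := eventually_atTop.mp (hv.eventually h3)
          refine ⟨N, fun _ k hk s s' h4 h5 h6 => ?_⟩
          rw [orbit_itp hz k j] at h5 h6
          exact hN k hk s s' h4 h5 h6
        · exact ⟨0, fun h => absurd h hv⟩)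
  -- the polynomial `R`
  have hR0 : g ^ (n - 1) * g.comp ψ - Q ^ n ≠ 0 := fun h => hns ⟨Q, sub_eq_zero.mp h⟩
  have hfin : {k : ℕ | (g ^ (n - 1) * g.comp ψ - Q ^ n).eval (z k) = 0}.Finite := by
    have h3 : {k : ℕ | (g ^ (n - 1) * g.comp ψ - Q ^ n).eval (z k) = 0} ⊆
        z ⁻¹' ((g ^ (n - 1) * g.comp ψ - Q ^ n).roots.toFinset : Set M) := by
      intro k hk
      rw [Set.mem_preimage, Finset.mem_coe, Multiset.mem_toFinset, mem_roots hR0]
      exact hk
    exact (Set.Finite.preimage (hinj.injOn) (Finset.finite_toSet _)).subset h3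
  obtain ⟨N₂, hN₂⟩ : ∃ N, ∀ k ≥ N, (g ^ (n - 1) * g.comp ψ - Q ^ n).eval (z k) ≠ 0 := by
    obtain ⟨N, hN⟩ := hfin.bddAbove
    refine ⟨N + 1, fun k hk h => ?_⟩
    have := hN h
    omega
  refine ⟨max N₁ N₂, fun k hk s s' hs hs' hsg => ?_⟩
  have hk1 : N₁ ≤ k := (le_max_left _ _).trans hk
  have hk2 : N₂ ≤ k := (le_max_right _ _).trans hk
  have h3 : s ^ (n - 1) * s' - Q.eval (z k) = 0 := by
    refine h1 _ (fun w hw => ?_) (fun p hp => ?_) ⟨p₀, hp₀, ?_⟩
    · obtain ⟨⟨w1, w2⟩, w3, w4⟩ := hw' w hw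
      have hsq : ∀ m t, t ^ n = g.eval (z m) → w t ≤ 1 := by
        intro m t ht
        have h3 : w t ^ n ≤ 1 := by
          rw [← map_pow, ht]
          exact fin_eval_le w w4 (orbit_le_one hz w1 w2 m)
        by_contra hcon
        push Not at hcon
        have := one_lt_pow₀ hcon hn0.ne'
        linarith
      rw [sub_eq_add_neg]
      refine (FinitePlace.add_le w _ _).trans (max_le ?_ ?_)
      · rw [map_mul, map_pow]
        exact mul_le_one₀ (pow_le_one₀ (apply_nonneg w _) (hsq k s hs)) (apply_nonneg w _)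
          (hsq _ s' hs')
      · rw [map_neg_eq_map]
        exact fin_eval_le w w3 (orbit_le_one hz w1 w2 k)
    · rcases esc_or (av p) hd hz with hv | hR
      · exact ((hN₁ p hp hv k hk1 s s' hs hs' (hsg p (hesc p hp hv))).trans
          (min_le_right _ _)).trans (le_max_left _ _)
      · exact (hB p hR k s s' hs hs').trans (le_max_right _ _)
    · exact (hN₁ p₀ hp₀ hesc₀ k hk1 s s' hs hs' (hsg p₀ (hesc p₀ hp₀ hesc₀))).trans
        (min_le_left _ _)
  refine hN₂ k hk2 ?_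
  have h4 : s ^ (n - 1) * s' = Q.eval (z k) := sub_eq_zero.mp h3
  rw [eval_sub, eval_mul, eval_pow, eval_pow, eval_comp, ← orbit_itp hz k j, ← hs, ← hs', ← h4,
    mul_pow, ← pow_mul, ← pow_mul, mul_comm n (n - 1), sub_self]

/-- **Few powers**: in every window far out there are at most `C` values that are powers. -/
theorem few_powers (hn : 1 ≤ n) {ζ : M} (hζ : IsPrimitiveRoot ζ n) {φ : M[X]}
    (hd : 2 ≤ φ.natDegree) {z : ℕ → M}
    (hz : ∀ n, z (n + 1) = φ.eval (z n)) (hinj : Function.Injective z)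
    {g : M[X]} {E : ℕ} {b : M} (hb : b ≠ 0) (hgd : g.natDegree = n * E)
    (hgl : g.leadingCoeff = b ^ n)
    (hns : ∀ j, 0 < j → ¬ ∃ Q, g ^ (n - 1) * g.comp (itp φ j) = Q ^ n) :
    ∃ C : ℕ, ∀ W : ℕ, ∃ n0 : ℕ, ∀ k ≥ n0, ∀ I ⊆ Finset.Icc k (k + W),
      (∀ i ∈ I, ∃ t, g.eval (z i) = t ^ n) → I.card ≤ C := by
  classical
  obtain ⟨T₁, hT₁⟩ := exists_T φ
  obtain ⟨T₂, hT₂⟩ := exists_T (C (z 0))
  set T := T₁ ∪ T₂ with hTdef
  have hT : ∀ w ∉ T, (∀ i, w (φ.coeff i) ≤ 1) ∧ w (z 0) ≤ 1 := by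
    intro w hw
    rw [hTdef, Finset.mem_union, not_or] at hw
    refine ⟨hT₁ w hw.1, ?_⟩
    have h := hT₂ w hw.2 0
    rwa [coeff_C_zero] at h
  refine ⟨((plS T).pi (fun _ => Mu n M)).card, fun W => ?_⟩
  obtain ⟨N, hN⟩ := exists_bound (Finset.Icc 1 W)
      (P := fun j N => ∀ k ≥ N, ∀ s s', s ^ n = g.eval (z k) → s' ^ n = g.eval (z (k + j)) →
      (∀ p ∈ plS T, ∃ ω, Ph (av p) n E b (z k) s ω ∧ Ph (av p) n E b (z (k + j)) s' ω) → False)
      (fun j m n hmn h k hk => h k (hmn.trans hk))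
      (fun j hj => claim hn hζ hd hz hinj hb hgd hgl hT (hns j (Finset.mem_Icc.1 hj).1))
  refine ⟨N, fun k hk I hI hsq => ?_⟩
  by_contra hcon
  push Not at hcon
  choose! t ht using hsq
  choose ph hph using fun (i : ℕ) (p : InfinitePlace M ⊕ FinitePlace M) =>
    exists_ph (av p) (n := n) hn E b (z i) (t i)
  set pat : ℕ → (p : InfinitePlace M ⊕ FinitePlace M) → p ∈ plS T → M := fun i p _ => ph i p
    with hpat
  have hmap : Set.MapsTo pat I ((plS T).pi (fun _ => Mu n M)) := by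
    intro i _
    rw [Finset.mem_coe, Finset.mem_pi]
    intro p _
    exact (hph i p).1
  obtain ⟨i₁, hi₁, i₂, hi₂, hne, heq⟩ := Finset.exists_ne_map_eq_of_card_lt_of_maps_to hcon hmap
  have main : ∀ i₁ ∈ I, ∀ i₂ ∈ I, i₁ < i₂ → pat i₁ = pat i₂ → False := by
    intro i₁ hi₁ i₂ hi₂ hlt heq
    have h3 := Finset.mem_Icc.1 (hI hi₁)
    have h4 := Finset.mem_Icc.1 (hI hi₂)
    have h5 : i₁ + (i₂ - i₁) = i₂ := by omega
    refine hN (i₂ - i₁) (Finset.mem_Icc.2 ⟨by omega, by omega⟩) i₁ (by omega) (t i₁) (t i₂)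
      (ht i₁ hi₁).symm ?_ ?_
    · rw [h5]
      exact (ht i₂ hi₂).symm
    · intro p hp
      rw [h5]
      refine ⟨ph i₁ p, hph i₁ p, ?_⟩
      have h6 : ph i₁ p = ph i₂ p := congrFun (congrFun heq p) hp
      rw [h6]
      exact hph i₂ p
  rcases lt_or_gt_of_ne hne with h | h
  · exact main i₁ hi₁ i₂ hi₂ h heq
  · exact main i₂ hi₂ i₁ hi₁ h heq.symm

end glob

end Pool.Agent.Arb3
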