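import Pool.Agent.Arb2.Runge1

/-!
# Runge's method for powers: local analysis at one absolute value
-/

set_option autoImplicit false

open Filter Topology Polynomial

namespace Pool.Agent.Arb3

open Pool.Agent.Arb2 (Nr La tends_v eval_bound ev_bound ev_small ev_lower degree_sub_lead ev_grow
  tends_eval Esc esc_or)

section

variable {F : Type*} [Field F]

theorem nr_iff {P Q : F[X]} {n : ℕ} : Nr P Q n ↔ ∀ m, n ≤ m → P.coeff m = Q.coeff m := by
  rw [Nr, degree_lt_iff_coeff_zero]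
  refine forall₂_congr fun m _ => ?_
  rw [coeff_sub, sub_eq_zero]

theorem nr_lead {P : F[X]} {n : ℕ} {a : F} :
    Nr P (C a * X ^ n) n ↔ P.coeff n = a ∧ P.natDegree ≤ n := by
  rw [nr_iff]
  constructor
  · intro h
    refine ⟨?_, ?_⟩
    · rw [h n le_rfl, coeff_C_mul_X_pow, if_pos rfl]
    · rw [natDegree_le_iff_coeff_eq_zero]
      intro m hm
      rw [h m hm.le, coeff_C_mul_X_pow, if_neg (by omega)]
  · rintro ⟨h1, h2⟩ m hm
    rw [coeff_C_mul_X_pow]
    split_ifs with h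
    · rw [h, h1]
    · exact coeff_eq_zero_of_natDegree_lt (by omega)

theorem nr_mul {P Q : F[X]} {m n : ℕ} {a b : F} (hP : Nr P (C a * X ^ m) m)
    (hQ : Nr Q (C b * X ^ n) n) : Nr (P * Q) (C (a * b) * X ^ (m + n)) (m + n) := by
  rw [nr_lead] at hP hQ ⊢
  refine ⟨?_, natDegree_mul_le.trans (Nat.add_le_add hP.2 hQ.2)⟩
  rw [coeff_mul_add_eq_of_natDegree_le hP.2 hQ.2, hP.1, hQ.1]

theorem nr_pow {P : F[X]} {m : ℕ} {a : F} (hP : Nr P (C a * X ^ m) m) (k : ℕ) :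
    Nr (P ^ k) (C (a ^ k) * X ^ (k * m)) (k * m) := by
  induction k with
  | zero =>
    rw [nr_lead]
    simp
  | succ k ih =>
    have h := nr_mul ih hP
    rw [pow_succ, pow_succ, Nat.succ_mul]
    exact h

theorem nr_sum {ι : Type*} (s : Finset ι) (P : ι → F[X]) (a : ι → F) {m : ℕ}
    (h : ∀ i ∈ s, Nr (P i) (C (a i) * X ^ m) m) :
    Nr (∑ i ∈ s, P i) (C (∑ i ∈ s, a i) * X ^ m) m := by
  rw [nr_lead]
  refine ⟨?_, ?_⟩
  · rw [finsetSum_coeff]
    exact Finset.sum_congr rfl fun i hi => (nr_lead.mp (h i hi)).1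
  · exact natDegree_sum_le_of_forall_le _ _ fun i hi => (nr_lead.mp (h i hi)).2

theorem nr_lc {P : F[X]} {n : ℕ} {a : F} (hn : P.natDegree = n)
    (ha : P.leadingCoeff = a) : Nr P (C a * X ^ n) n := by
  rw [nr_lead]
  exact ⟨by rw [← hn, ← ha]; rfl, hn.le⟩

/-- the polynomial part of an `n`-th root -/
theorem root_aux (G : F[X]) {n : ℕ} (hn : 1 ≤ n) (hnF : (n : F) ≠ 0) {D : ℕ} {β : F} (hβ : β ≠ 0)
    (hG : Nr G (C (β ^ n) * X ^ (n * D)) (n * D)) (k : ℕ) (hk : k ≤ D) :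
    ∃ Q : F[X], Nr Q (C β * X ^ D) D ∧ Nr G (Q ^ n) (n * D - k) := by
  induction k with
  | zero =>
    refine ⟨C β * X ^ D, ?_, ?_⟩
    · rw [nr_iff]; intro m _; rfl
    · rw [Nat.sub_zero]
      have h : (C β * X ^ D : F[X]) ^ n = C (β ^ n) * X ^ (n * D) := by
        rw [mul_pow, ← C_pow, ← pow_mul, mul_comm D]
      rw [h]
      exact hG
  | succ k ih =>
    obtain ⟨Q, h3, h4⟩ := ih (by omega)
    have hnD : D ≤ n * D := Nat.le_mul_of_pos_left _ hn
    set N := n * D - (k + 1) with hN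
    set r := D - (k + 1) with hr
    set t := (G - Q ^ n).coeff N with ht
    set e := t / (n * β ^ (n - 1)) with he
    have hβ2 : (n : F) * β ^ (n - 1) ≠ 0 := mul_ne_zero hnF (pow_ne_zero _ hβ)
    set R : F[X] := C e * X ^ r with hR
    have hQ' : Nr (Q + R) (C β * X ^ D) D := by
      rw [nr_iff] at h3 ⊢
      intro m hm
      have hRm : R.coeff m = 0 := by rw [hR, coeff_C_mul_X_pow, if_neg (by omega)]
      rw [coeff_add, h3 m hm, hRm, add_zero]
    refine ⟨Q + R, hQ', ?_⟩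
    -- the difference of the powers
    set S1 : F[X] := ∑ i ∈ Finset.range n, (Q + R) ^ i * Q ^ (n - 1 - i) with hS0
    have hdiff : S1 * R = (Q + R) ^ n - Q ^ n := by
      have h := (Commute.all (Q + R) Q).geom_sum₂_mul n
      rw [add_sub_cancel_left] at h
      exact h
    have hS1 : Nr S1 (C (n * β ^ (n - 1)) * X ^ ((n - 1) * D)) ((n - 1) * D) := by
      have h5 := nr_sum (Finset.range n) (fun i => (Q + R) ^ i * Q ^ (n - 1 - i))
        (fun _ => β ^ (n - 1)) (m := (n - 1) * D) (by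
          intro i hi
          rw [Finset.mem_range] at hi
          have h6 := nr_mul (nr_pow hQ' i) (nr_pow h3 (n - 1 - i))
          rw [← pow_add, ← add_mul, show i + (n - 1 - i) = n - 1 by omega] at h6
          exact h6)
      rw [Finset.sum_const, Finset.card_range, nsmul_eq_mul] at h5
      exact h5
    have hexp : n * D = (n - 1) * D + D := by
      obtain ⟨n', rfl⟩ : ∃ n', n = n' + 1 := ⟨n - 1, by omega⟩
      rw [Nat.add_sub_cancel, Nat.succ_mul]
    rw [nr_iff]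
    intro m hm
    have h6 : (Q + R) ^ n = Q ^ n + S1 * R := by rw [hdiff]; ring
    rw [h6, coeff_add, hR, ← mul_assoc, mul_comm S1 (C e), mul_assoc, coeff_C_mul,
      coeff_mul_X_pow', if_pos (by omega)]
    rw [nr_lead] at hS1
    rcases Nat.eq_or_lt_of_le hm with hm | hm
    · rw [← hm, show N - r = (n - 1) * D by omega, hS1.1, he, div_mul_cancel₀ _ hβ2, ht,
        coeff_sub]
      ring
    · rw [coeff_eq_zero_of_natDegree_lt (p := S1) (by omega), mul_zero, add_zero]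
      exact (nr_iff.mp h4) m (by omega)

theorem exists_root (G : F[X]) {n : ℕ} (hn : 1 ≤ n) (hnF : (n : F) ≠ 0) {D : ℕ} {β : F}
    (hβ : β ≠ 0) (hG : Nr G (C (β ^ n) * X ^ (n * D)) (n * D)) :
    ∃ Q : F[X], Nr Q (C β * X ^ D) D ∧ Nr G (Q ^ n) ((n - 1) * D) := by
  obtain ⟨Q, h3, h4⟩ := root_aux G hn hnF hβ hG D le_rfl
  refine ⟨Q, h3, ?_⟩
  have hexp : n * D = (n - 1) * D + D := by
    obtain ⟨n', rfl⟩ : ∃ n', n = n' + 1 := ⟨n - 1, by omega⟩
    rw [Nat.add_sub_cancel, Nat.succ_mul]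
  rwa [hexp, Nat.add_sub_cancel] at h4

end

section loc

variable {F : Type*} [Field F] (v : AbsoluteValue F ℝ) {n : ℕ}

/-- the `n`-th roots of unity -/
noncomputable abbrev Mu (n : ℕ) (F : Type*) [Field F] : Finset F := nthRootsFinset n (1 : F)

theorem mu_v (hn : 0 < n) {ω : F} (h : ω ∈ Mu n F) : v ω = 1 := by
  rw [mem_nthRootsFinset hn] at h
  have h1 : v ω ^ n = 1 := by rw [← map_pow, h, map_one]
  exact (pow_eq_one_iff_of_nonneg (v.nonneg _) hn.ne').mp h1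

theorem mu_pow (hn : 0 < n) {ω : F} (h : ω ∈ Mu n F) : ω ^ n = 1 := (mem_nthRootsFinset hn _).mp h

/-- the phase of an `n`-th root of `g(z)` -/
def Ph (n E : ℕ) (b z s ω : F) : Prop :=
  ω ∈ Mu n F ∧ ∀ ω' ∈ Mu n F, v (s - ω * (b * z ^ E)) ≤ v (s - ω' * (b * z ^ E))

theorem exists_ph (hn : 0 < n) (E : ℕ) (b z s : F) : ∃ ω, Ph v n E b z s ω := by
  have hne : (Mu n F).Nonempty := ⟨1, by rw [mem_nthRootsFinset hn, one_pow]⟩
  obtain ⟨ω, h1, h2⟩ := Finset.exists_min_image (Mu n F) (fun ω => v (s - ω * (b * z ^ E))) hne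
  exact ⟨ω, h1, h2⟩

theorem ph_small (hn : 0 < n) {ζ : F} (hζ : IsPrimitiveRoot ζ n) {g : F[X]} {E : ℕ} {b : F}
    (hg : Nr g (C (b ^ n) * X ^ (n * E)) (n * E)) {ε : ℝ} (hε : 0 < ε) :
    ∀ᶠ z in La v, ∀ s : F, s ^ n = g.eval z → ∀ ω, Ph v n E b z s ω →
      v (s - ω * (b * z ^ E)) ≤ ε * v z ^ E := by
  filter_upwards [ev_small v hg (pow_pos hε n)] with z h1 s hs ω hω
  obtain ⟨hω1, hω2⟩ := hω
  have h2 : ∏ ω' ∈ Mu n F, v (s - ω' * (b * z ^ E)) ≤ (ε * v z ^ E) ^ n := by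
    rw [← map_prod, ← hζ.pow_sub_pow_eq_prod_sub_mul s (b * z ^ E) hn]
    have h3 : s ^ n - (b * z ^ E) ^ n = (g - C (b ^ n) * X ^ (n * E)).eval z := by
      rw [eval_sub, ← hs, eval_mul, eval_C, eval_pow, eval_X, mul_pow, ← pow_mul, mul_comm E]
    rw [h3]
    refine h1.trans (le_of_eq ?_)
    rw [mul_pow, ← pow_mul, mul_comm E]
  have h4 : 0 ≤ ε * v z ^ E := mul_nonneg hε.le (pow_nonneg (v.nonneg _) _)
  by_contra hcon
  push Not at hcon
  have h5 : (ε * v z ^ E) ^ n < ∏ ω' ∈ Mu n F, v (s - ω' * (b * z ^ E)) := by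
    calc (ε * v z ^ E) ^ n < v (s - ω * (b * z ^ E)) ^ n := pow_lt_pow_left₀ hcon h4 hn.ne'
      _ = ∏ ω' ∈ Mu n F, v (s - ω * (b * z ^ E)) := by
          rw [Finset.prod_const, hζ.card_nthRootsFinset]
      _ ≤ _ := Finset.prod_le_prod (fun _ _ => v.nonneg _) (fun ω' h => hω2 ω' h)
  linarith

/-- powers of close elements -/
theorem pow_close {s a : F} {δ M : ℝ} (hδ : v (s - a) ≤ δ) (hs : v s ≤ M)
    (ha : v a ≤ M) (m : ℕ) : v (s ^ m - a ^ m) ≤ m * (δ * M ^ (m - 1)) := by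
  have hM : 0 ≤ M := (v.nonneg _).trans hs
  have hδ0 : 0 ≤ δ := (v.nonneg _).trans hδ
  rw [← (Commute.all s a).geom_sum₂_mul m, map_mul]
  have h1 : v (∑ i ∈ Finset.range m, s ^ i * a ^ (m - 1 - i)) ≤ m * M ^ (m - 1) := by
    refine (v.sum_le _ _).trans ?_
    have h2 : ∀ i ∈ Finset.range m, v (s ^ i * a ^ (m - 1 - i)) ≤ M ^ (m - 1) := by
      intro i hi
      rw [Finset.mem_range] at hi
      rw [map_mul, map_pow, map_pow]
      calc v s ^ i * v a ^ (m - 1 - i) ≤ M ^ i * M ^ (m - 1 - i) :=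
            mul_le_mul (pow_le_pow_left₀ (v.nonneg _) hs _) (pow_le_pow_left₀ (v.nonneg _) ha _)
              (pow_nonneg (v.nonneg _) _) (pow_nonneg hM _)
        _ = M ^ (m - 1) := by rw [← pow_add]; congr 1; omega
    refine (Finset.sum_le_sum h2).trans (le_of_eq ?_)
    rw [Finset.sum_const, Finset.card_range, nsmul_eq_mul]
  calc v (∑ i ∈ Finset.range m, s ^ i * a ^ (m - 1 - i)) * v (s - a) ≤
        (m * M ^ (m - 1)) * δ := mul_le_mul h1 hδ (v.nonneg _) (by positivity)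
    _ = _ := by ring

/-- products of two roots with the same phase -/
theorem prod_small (hn : 1 ≤ n) {ζ : F} (hζ : IsPrimitiveRoot ζ n) {g ψ : F[X]} {E : ℕ} {b : F}
    (hψ : 0 < ψ.natDegree)
    (hg : Nr g (C (b ^ n) * X ^ (n * E)) (n * E)) {ε : ℝ} (hε : 0 < ε) :
    ∀ᶠ z in La v, ∀ s s' : F, s ^ n = g.eval z → s' ^ n = g.eval (ψ.eval z) →
      (∃ ω, Ph v n E b z s ω ∧ Ph v n E b (ψ.eval z) s' ω) →
      v (s ^ (n - 1) * s' - (C (b ^ n) * X ^ ((n - 1) * E) * ψ ^ E).eval z) ≤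
        ε * v z ^ ((n - 1) * E + E * ψ.natDegree) := by
  obtain ⟨C₁, hC₁, h1⟩ := ev_bound v ψ le_rfl
  -- the constant
  set M := v b + 1 with hM
  have hM0 : 0 < M := by have := v.nonneg b; positivity
  set A := (n * M ^ (n - 1) + M ^ (n - 1)) * C₁ ^ E with hA
  have hA0 : 0 ≤ A := by positivity
  set δ := min 1 (ε / (A + 1)) with hδ
  have hδ0 : 0 < δ := lt_min one_pos (by positivity)
  have hδ1 : δ ≤ 1 := min_le_left _ _
  have hδA : δ * A ≤ ε := by
    calc δ * A ≤ ε / (A + 1) * (A + 1) :=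
          mul_le_mul (min_le_right _ _) (by linarith) hA0 (by positivity)
      _ = ε := by field_simp
  have h2 := ph_small v (by omega) hζ hg hδ0
  have h3 := (tends_eval v hψ).eventually h2
  filter_upwards [h1, h2, h3] with z h4 h5 h6 s s' hs hs' hsg
  obtain ⟨ω, hω1, hω2⟩ := hsg
  set w := ψ.eval z with hw
  have h7 := h5 s hs ω hω1
  have h8 := h6 s' hs' ω hω2
  have hvω : v ω = 1 := mu_v v (by omega) hω1.1
  have hωn : ω ^ n = 1 := mu_pow (by omega) hω1.1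
  have hvz : 0 ≤ v z ^ E := pow_nonneg (v.nonneg _) _
  have hvw : 0 ≤ v w ^ E := pow_nonneg (v.nonneg _) _
  have hvb : 0 ≤ v b := v.nonneg _
  set a := ω * (b * z ^ E) with ha
  set a' := ω * (b * w ^ E) with ha'
  have hva : v a = v b * v z ^ E := by rw [ha, map_mul, map_mul, map_pow, hvω, one_mul]
  have hva' : v a' = v b * v w ^ E := by rw [ha', map_mul, map_mul, map_pow, hvω, one_mul]
  have hsM : v s ≤ M * v z ^ E := by
    have : s = (s - a) + a := by ring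
    rw [this]
    refine (v.add_le _ _).trans ?_
    rw [hva, hM, add_mul]
    have : δ * v z ^ E ≤ 1 * v z ^ E := mul_le_mul_of_nonneg_right hδ1 hvz
    linarith
  have haM : v a ≤ M * v z ^ E := by
    rw [hva, hM]
    exact mul_le_mul_of_nonneg_right (by linarith) hvz
  have hsM' : v s' ≤ M * v w ^ E := by
    have : s' = (s' - a') + a' := by ring
    rw [this]
    refine (v.add_le _ _).trans ?_
    rw [hva', hM, add_mul]
    have : δ * v w ^ E ≤ 1 * v w ^ E := mul_le_mul_of_nonneg_right hδ1 hvw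
    linarith
  have hpe : (C (b ^ n) * X ^ ((n - 1) * E) * ψ ^ E).eval z = a ^ (n - 1) * a' := by
    rw [eval_mul, eval_mul, eval_C, eval_pow, eval_X, eval_pow, ← hw]
    have h9 : a ^ (n - 1) * a' = (ω ^ (n - 1) * ω) * ((b ^ (n - 1) * b) *
        (z ^ ((n - 1) * E) * w ^ E)) := by
      rw [ha, ha', mul_pow, mul_pow, ← pow_mul, mul_comm E]; ring
    rw [h9, ← pow_succ, ← pow_succ, Nat.sub_add_cancel hn, hωn, one_mul]
    ring
  rw [hpe]
  have h10 : s ^ (n - 1) * s' - a ^ (n - 1) * a' =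
      (s ^ (n - 1) - a ^ (n - 1)) * s' + a ^ (n - 1) * (s' - a') := by ring
  rw [h10]
  have h11 := pow_close v h7 hsM haM (n - 1)
  have h12 : v ((s ^ (n - 1) - a ^ (n - 1)) * s') ≤
      (n * M ^ (n - 1)) * (δ * (v z ^ ((n - 1) * E) * v w ^ E)) := by
    rw [map_mul]
    rcases Nat.eq_or_lt_of_le hn with hn1 | hn1
    · rw [← hn1]
      simp only [Nat.sub_self, pow_zero, sub_self, map_zero, zero_mul]
      positivity
    · have h13 : ((n - 1 : ℕ) : ℝ) * (δ * v z ^ E * (M * v z ^ E) ^ (n - 1 - 1)) * (M * v w ^ E) ≤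
          (n * M ^ (n - 1)) * (δ * (v z ^ ((n - 1) * E) * v w ^ E)) := by
        have e1 : (n - 1) * E = E + (n - 1 - 1) * E := by
          obtain ⟨k, hk⟩ : ∃ k, n = k + 2 := ⟨n - 2, by omega⟩
          rw [show n - 1 - 1 = k by omega, show n - 1 = k + 1 by omega]
          ring
        have e2 : M ^ (n - 1) = M ^ (n - 1 - 1) * M := by
          rw [← pow_succ]; congr 1; omega
        have e3 : ((n - 1 : ℕ) : ℝ) ≤ n := by exact_mod_cast Nat.sub_le n 1
        rw [e1, e2, pow_add, mul_pow, ← pow_mul, mul_comm E (n - 1 - 1)]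
        have e4 : 0 ≤ δ * v z ^ E * (M ^ (n - 1 - 1) * v z ^ ((n - 1 - 1) * E)) *
            (M * v w ^ E) := by positivity
        calc ((n - 1 : ℕ) : ℝ) * (δ * v z ^ E * (M ^ (n - 1 - 1) * v z ^ ((n - 1 - 1) * E))) *
              (M * v w ^ E) = ((n - 1 : ℕ) : ℝ) *
                (δ * v z ^ E * (M ^ (n - 1 - 1) * v z ^ ((n - 1 - 1) * E)) * (M * v w ^ E)) := by
              ring
          _ ≤ n * (δ * v z ^ E * (M ^ (n - 1 - 1) * v z ^ ((n - 1 - 1) * E)) *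
                (M * v w ^ E)) := mul_le_mul_of_nonneg_right e3 e4
          _ = _ := by ring
      refine le_trans (mul_le_mul h11 hsM' (v.nonneg _) (by positivity)) h13
  have h14 : v (a ^ (n - 1) * (s' - a')) ≤
      M ^ (n - 1) * (δ * (v z ^ ((n - 1) * E) * v w ^ E)) := by
    rw [map_mul, map_pow]
    calc v a ^ (n - 1) * v (s' - a') ≤ (M * v z ^ E) ^ (n - 1) * (δ * v w ^ E) :=
          mul_le_mul (pow_le_pow_left₀ (v.nonneg _) haM _) h8 (v.nonneg _) (by positivity)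
      _ = _ := by rw [mul_pow, ← pow_mul, mul_comm E]; ring
  have h16 : v w ^ E ≤ C₁ ^ E * v z ^ (E * ψ.natDegree) := by
    calc v w ^ E ≤ (C₁ * v z ^ ψ.natDegree) ^ E := pow_le_pow_left₀ (v.nonneg _) h4 _
      _ = _ := by rw [mul_pow, ← pow_mul, mul_comm ψ.natDegree]
  calc v ((s ^ (n - 1) - a ^ (n - 1)) * s' + a ^ (n - 1) * (s' - a')) ≤
        (n * M ^ (n - 1)) * (δ * (v z ^ ((n - 1) * E) * v w ^ E)) +
          M ^ (n - 1) * (δ * (v z ^ ((n - 1) * E) * v w ^ E)) :=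
        (v.add_le _ _).trans (add_le_add h12 h14)
    _ = (n * M ^ (n - 1) + M ^ (n - 1)) * δ * (v z ^ ((n - 1) * E) * v w ^ E) := by ring
    _ ≤ (n * M ^ (n - 1) + M ^ (n - 1)) * δ *
          (v z ^ ((n - 1) * E) * (C₁ ^ E * v z ^ (E * ψ.natDegree))) :=
        mul_le_mul_of_nonneg_left (mul_le_mul_of_nonneg_left h16
          (pow_nonneg (v.nonneg _) _)) (by positivity)
    _ = δ * A * v z ^ ((n - 1) * E + E * ψ.natDegree) := by rw [hA, pow_add]; ring
    _ ≤ _ := mul_le_mul_of_nonneg_right hδA (pow_nonneg (v.nonneg _) _)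

/-- the main local estimate -/
theorem loc_small (hn : 1 ≤ n) {ζ : F} (hζ : IsPrimitiveRoot ζ n) {g ψ Q : F[X]} {E : ℕ} {b : F}
    (hb : b ≠ 0) (hψ : 0 < ψ.natDegree)
    (hg : Nr g (C (b ^ n) * X ^ (n * E)) (n * E))
    (hQ1 : Nr Q (C (b ^ n * ψ.leadingCoeff ^ E) * X ^ ((n - 1) * E + E * ψ.natDegree))
      ((n - 1) * E + E * ψ.natDegree))
    (hQ2 : Nr (g ^ (n - 1) * g.comp ψ) (Q ^ n) ((n - 1) * ((n - 1) * E + E * ψ.natDegree)))
    {ε : ℝ} (hε : 0 < ε) :
    ∀ᶠ z in La v, ∀ s s' : F, s ^ n = g.eval z → s' ^ n = g.eval (ψ.eval z) →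
      (∃ ω, Ph v n E b z s ω ∧ Ph v n E b (ψ.eval z) s' ω) →
      v (s ^ (n - 1) * s' - Q.eval z) ≤ ε := by
  classical
  set D := (n - 1) * E + E * ψ.natDegree with hD
  set β := b ^ n * ψ.leadingCoeff ^ E with hβ
  have hψ0 : ψ ≠ 0 := by rintro rfl; simp at hψ
  have hβ0 : β ≠ 0 := by
    have := leadingCoeff_ne_zero.mpr hψ0
    positivity
  have hvβ : 0 < v β := v.pos hβ0
  -- the distance to the other roots of unity
  obtain ⟨κ, hκ0, hκ⟩ : ∃ κ : ℝ, 0 < κ ∧ ∀ ω ∈ (Mu n F).erase 1, κ ≤ v (1 - ω) := by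
    rcases ((Mu n F).erase 1).eq_empty_or_nonempty with h | h
    · exact ⟨1, one_pos, fun ω hω => by rw [h] at hω; simp at hω⟩
    · obtain ⟨ω, h1, h2⟩ := Finset.exists_min_image _ (fun ω => v (1 - ω)) h
      refine ⟨v (1 - ω), v.pos ?_, h2⟩
      rw [sub_ne_zero]
      exact (Finset.ne_of_mem_erase h1).symm
  have hP1 : Nr (C (b ^ n) * X ^ ((n - 1) * E) * ψ ^ E) (C β * X ^ D) D := by
    have h5 : Nr (C (b ^ n) * X ^ ((n - 1) * E) : F[X]) (C (b ^ n) * X ^ ((n - 1) * E))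
        ((n - 1) * E) := by rw [nr_iff]; intro m _; rfl
    have h6 := nr_mul h5 (nr_pow (nr_lc (P := ψ) rfl rfl) E)
    exact h6
  have hPQ : Nr Q (C (b ^ n) * X ^ ((n - 1) * E) * ψ ^ E) D := by
    rw [nr_iff] at hQ1 hP1 ⊢
    intro m hm
    rw [hQ1 m hm, hP1 m hm]
  set δ := min (κ * v β / 8) (v β / 8) with hδ
  have hδ0 : 0 < δ := lt_min (by positivity) (by positivity)
  set lam := κ * v β / 4 with hlam
  have hlam0 : 0 < lam := by positivity
  filter_upwards [prod_small v hn hζ hψ hg hδ0, ev_small v hPQ hδ0, ev_lower v hQ1 hβ0,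
    ev_small v hQ2 (by positivity : 0 < ε * lam ^ (n - 1)),
    (tends_v v).eventually_gt_atTop 0] with z h3 h4 h5 h6 h7 s s' hs hs' hsg
  have h8 := h3 s s' hs hs' hsg
  have hz : 0 < v z ^ D := pow_pos h7 _
  set Y := s ^ (n - 1) * s' with hY
  have h9 : v (Y - Q.eval z) ≤ 2 * δ * v z ^ D := by
    have h10 : Y - Q.eval z = (Y - (C (b ^ n) * X ^ ((n - 1) * E) * ψ ^ E).eval z) +
        -((Q - C (b ^ n) * X ^ ((n - 1) * E) * ψ ^ E).eval z) := by
      rw [eval_sub]; ring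
    rw [h10]
    refine (v.add_le _ _).trans ?_
    rw [v.map_neg]
    linarith
  -- the other factors
  have h10 : ∀ ω ∈ (Mu n F).erase 1, lam * v z ^ D ≤ v (Y - ω * Q.eval z) := by
    intro ω hω
    have h11 : (1 - ω) * Q.eval z = (Y - ω * Q.eval z) + -(Y - Q.eval z) := by ring
    have h12 : v (1 - ω) * v (Q.eval z) ≤ v (Y - ω * Q.eval z) + v (Y - Q.eval z) := by
      rw [← map_mul, h11]
      refine (v.add_le _ _).trans ?_
      rw [v.map_neg]
    have h13 : κ * (v β / 2 * v z ^ D) ≤ v (1 - ω) * v (Q.eval z) :=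
      mul_le_mul (hκ ω hω) h5 (by positivity) (v.nonneg _)
    have h14 : 2 * δ * v z ^ D ≤ κ * v β / 4 * v z ^ D := by
      refine mul_le_mul_of_nonneg_right ?_ hz.le
      have := min_le_left (κ * v β / 8) (v β / 8)
      linarith
    rw [hlam]
    nlinarith
  have h1mem : (1 : F) ∈ Mu n F := by rw [mem_nthRootsFinset (by omega), one_pow]
  have h11 : v (Y - Q.eval z) * (lam * v z ^ D) ^ (n - 1) ≤
      ε * lam ^ (n - 1) * v z ^ ((n - 1) * D) := by
    have h12 : ∏ ω ∈ Mu n F, v (Y - ω * Q.eval z) = v ((g ^ (n - 1) * g.comp ψ - Q ^ n).eval z) := by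
      rw [← map_prod, ← hζ.pow_sub_pow_eq_prod_sub_mul Y (Q.eval z) (by omega), eval_sub, eval_mul,
        eval_pow, eval_pow, eval_comp, ← hs, ← hs', hY, mul_pow, ← pow_mul, ← pow_mul,
        mul_comm n (n - 1)]
    have h13 : (lam * v z ^ D) ^ (n - 1) ≤ ∏ ω ∈ (Mu n F).erase 1, v (Y - ω * Q.eval z) := by
      have h14 : ((Mu n F).erase 1).card = n - 1 := by
        rw [Finset.card_erase_of_mem h1mem, hζ.card_nthRootsFinset]
      rw [← h14, ← Finset.prod_const]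
      exact Finset.prod_le_prod (fun _ _ => by positivity) h10
    have h15 : v (Y - Q.eval z) * ∏ ω ∈ (Mu n F).erase 1, v (Y - ω * Q.eval z) =
        ∏ ω ∈ Mu n F, v (Y - ω * Q.eval z) := by
      rw [← Finset.mul_prod_erase _ _ h1mem, one_mul]
    calc v (Y - Q.eval z) * (lam * v z ^ D) ^ (n - 1) ≤
          v (Y - Q.eval z) * ∏ ω ∈ (Mu n F).erase 1, v (Y - ω * Q.eval z) :=
          mul_le_mul_of_nonneg_left h13 (v.nonneg _)
      _ = v ((g ^ (n - 1) * g.comp ψ - Q ^ n).eval z) := by rw [h15, h12]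
      _ ≤ _ := h6
  have h12 : v (Y - Q.eval z) * (lam * v z ^ D) ^ (n - 1) ≤ ε * (lam * v z ^ D) ^ (n - 1) := by
    refine h11.trans (le_of_eq ?_)
    rw [mul_pow, ← pow_mul, mul_comm D]; ring
  exact le_of_mul_le_mul_right h12 (by positivity)

end loc

end Pool.Agent.Arb3
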