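import Pool.Agent.Arb3.RungeP
import Pool.Agent.Arb2.Sparse

/-!
# The set of power values is sparse
-/

set_option autoImplicit false

open Polynomial

namespace Pool.Agent.Arb3

open Pool.Agent.TameArb (itp itp_succ itp_natDegree itp_eval itp_aeval ph ph_eq_eval)
open Pool.Agent.Arb2 (sparse itp_lc orbit_itp)

section

variable {M : Type*} [Field M]

/-- multiplicities of a simple zero -/
theorem not_power {Ω : Type*} [Field Ω] [Algebra M Ω] {P h g G : M[X]} {a n : ℕ} (hn : 1 ≤ n)
    (hg : g = P ^ a * h)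
    (hs : P.Separable) {u : Ω} (hu : aeval u P = 0) (hh : aeval u h ≠ 0)
    (hG : aeval u G ≠ 0) (hQ : ∃ Q, g ^ (n - 1) * G = Q ^ n) : n ∣ a := by
  classical
  obtain ⟨Q, hQ⟩ := hQ
  have hP0 : P.map (algebraMap M Ω) ≠ 0 := by
    have := hs.ne_zero
    exact (Polynomial.map_ne_zero_iff (algebraMap M Ω).injective).mpr this
  have hh0 : h.map (algebraMap M Ω) ≠ 0 := by
    intro h0
    apply hh
    rw [← eval_map_algebraMap, h0, eval_zero]
  have hG0 : G.map (algebraMap M Ω) ≠ 0 := by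
    intro h0
    apply hG
    rw [← eval_map_algebraMap, h0, eval_zero]
  have h1 : (P.map (algebraMap M Ω)).roots.count u = 1 := by
    apply le_antisymm (count_roots_le_one (hs.map (f := algebraMap M Ω)) u)
    rw [Nat.one_le_iff_ne_zero, Ne, Multiset.count_eq_zero, not_not, mem_roots hP0, IsRoot.def,
      eval_map_algebraMap]
    exact hu
  have h2 : ∀ {q : M[X]}, aeval u q ≠ 0 → (q.map (algebraMap M Ω)).roots.count u = 0 := by
    intro q hq
    rw [Multiset.count_eq_zero]
    intro hmem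
    apply hq
    rw [← eval_map_algebraMap]
    exact (mem_roots'.mp hmem).2
  have hg0 : g.map (algebraMap M Ω) ≠ 0 := by
    rw [hg, Polynomial.map_mul, Polynomial.map_pow]
    exact mul_ne_zero (pow_ne_zero _ hP0) hh0
  have h3 : (g.map (algebraMap M Ω)).roots.count u = a := by
    have h4 : g.map (algebraMap M Ω) = P.map (algebraMap M Ω) ^ a * h.map (algebraMap M Ω) := by
      rw [hg, Polynomial.map_mul, Polynomial.map_pow]
    rw [h4, roots_mul (by rw [← h4]; exact hg0), roots_pow, Multiset.count_add,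
      Multiset.count_nsmul, h1, h2 hh, mul_one, add_zero]
  have h5 := congrArg (fun q => (q.map (algebraMap M Ω)).roots.count u) hQ
  rw [Polynomial.map_mul, Polynomial.map_pow, Polynomial.map_pow,
    roots_mul (mul_ne_zero (pow_ne_zero _ hg0) hG0), roots_pow, roots_pow, Multiset.count_add,
    Multiset.count_nsmul, Multiset.count_nsmul, h3, h2 hG, add_zero] at h5
  have h6 : n ∣ (n - 1) * a := ⟨_, h5⟩
  have h7 : Nat.Coprime n (n - 1) := by
    rcases Nat.eq_or_lt_of_le hn with h | h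
    · rw [← h]; simp
    · exact (Nat.coprime_self_sub_right hn).mpr (Nat.coprime_one_right n)
  exact h7.dvd_of_dvd_mul_left h6

/-- the polynomial `(φ(X) - x)^a (φ^(j+1)(X) - x)` -/
noncomputable def gq (φ : M[X]) (x : M) (a j : ℕ) : M[X] := (φ - C x) ^ a * (itp φ (j + 1) - C x)

theorem sub_data {φ : M[X]} (hd : 2 ≤ φ.natDegree) (x : M) (j : ℕ) :
    (itp φ (j + 1) - C x).natDegree = φ.natDegree ^ (j + 1) ∧
      (itp φ (j + 1) - C x).leadingCoeff = (itp φ (j + 1)).leadingCoeff := by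
  refine ⟨by rw [natDegree_sub_C, itp_natDegree], ?_⟩
  rw [leadingCoeff, leadingCoeff, natDegree_sub_C, coeff_sub, coeff_C_of_ne_zero, sub_zero]
  rw [itp_natDegree]
  exact (pow_pos (by omega) _).ne'

theorem itp_one (φ : M[X]) : itp φ 1 = φ := by rw [itp_succ]; simp [itp]

theorem orbit_ne {φ : M[X]} (hd : 2 ≤ φ.natDegree) {x : M}
    (hx : ∀ n, 0 < n → (ph φ)^[n] x ≠ x) : ∃ u : AlgebraicClosure M,
      aeval u (φ - C x) = 0 ∧ ∀ m, 0 < m → aeval u (itp φ (m + 1) - C x) ≠ 0 := by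
  obtain ⟨u, hu⟩ := IsAlgClosed.exists_aeval_eq_zero (AlgebraicClosure M) (φ - C x) (by
    rw [degree_sub_C (natDegree_pos_iff_degree_pos.mp (by omega))]
    exact (natDegree_pos_iff_degree_pos.mp (by omega)).ne')
  refine ⟨u, hu, ?_⟩
  have hφu : ph φ u = algebraMap M (AlgebraicClosure M) x := by
    rw [map_sub, aeval_C, sub_eq_zero] at hu
    exact hu
  intro m hm h
  rw [map_sub, aeval_C, itp_aeval, sub_eq_zero, Function.iterate_succ_apply, hφu,
    ← Pool.Agent.TameArb.iter_algebraMap] at h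
  exact hx m hm ((algebraMap M (AlgebraicClosure M)).injective h)

theorem aeval_comp_itp {φ : M[X]} {x : M} (u : AlgebraicClosure M) (i m : ℕ) :
    aeval u ((itp φ (m + 1) - C x).comp (itp φ i)) = aeval u (itp φ (i + m + 1) - C x) := by
  rw [aeval_comp, map_sub, map_sub, itp_aeval, itp_aeval, itp_aeval, aeval_C, aeval_C,
    ← Function.iterate_add_apply, show m + 1 + i = i + m + 1 by omega]

end

section

variable {M : Type*} [Field M] [NumberField M] {n : ℕ}

/-- the indices with power values form a sparse set -/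
theorem sparse_powers (hn : 2 ≤ n) {ζ : M} (hζ : IsPrimitiveRoot ζ n) {φ : M[X]}
    (hd : 2 ≤ φ.natDegree) (hnd : n ∣ φ.natDegree ∨ n.Prime) {z : ℕ → M}
    (hz : ∀ n, z (n + 1) = φ.eval (z n)) (hinj : Function.Injective z)
    {r : M} (hlc : φ.leadingCoeff = r ^ n) {x : M}
    (hx : ∀ n, 0 < n → (ph φ)^[n] x ≠ x) (hs : (φ - C x).Separable) (J : ℕ) :
    ∃ C : ℕ, ∀ W : ℕ, ∃ n0 : ℕ, ∀ k ≥ n0, ∀ I ⊆ Finset.Icc k (k + W),
      (∀ i ∈ I, ∃ t, z (i + 1) - x = t ^ n) → (J + 1) * I.card ≤ C + W := by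
  have hφ0 : φ ≠ 0 := by rintro rfl; simp at hd
  have hr0 : r ≠ 0 := by
    rintro rfl
    rw [zero_pow (by omega)] at hlc
    exact hφ0 (leadingCoeff_eq_zero.mp hlc)
  obtain ⟨u, hu, hu2⟩ := orbit_ne hd hx
  obtain ⟨hd1, hl1⟩ := sub_data hd x 0
  rw [zero_add, itp_one, pow_one] at hd1
  rw [zero_add, itp_one] at hl1
  have hφx0 : φ - C x ≠ 0 := by
    intro h
    rw [h, natDegree_zero] at hd1
    omega
  have hcomp : ∀ i, 0 < i → aeval u ((φ - C x).comp (itp φ i)) ≠ 0 := by
    intro i hi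
    have h1 := aeval_comp_itp (φ := φ) (x := x) u i 0
    rw [zero_add, itp_one] at h1
    rw [h1, add_zero]
    exact hu2 i hi
  by_cases hdv : n ∣ φ.natDegree
  · obtain ⟨E, hE⟩ := hdv
    obtain ⟨C', hC⟩ := few_powers (by omega) hζ hd hz hinj (g := φ - C x) (E := E) hr0
      (by rw [hd1, hE]) (by rw [hl1, hlc]) (fun j hj hcon => by
        have h1 := not_power (P := φ - C x) (h := 1) (a := 1) (by omega) (by ring) hs hu
          (by rw [map_one]; exact one_ne_zero) (hcomp j hj) hcon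
        have h2 := Nat.le_of_dvd one_pos h1
        omega)
    refine ⟨(J + 1) * C', fun W => ?_⟩
    obtain ⟨n0, hn0⟩ := hC W
    refine ⟨n0, fun k hk I hI h => ?_⟩
    have h1 := hn0 k hk I hI (fun i hi => by
      obtain ⟨t, ht⟩ := h i hi
      exact ⟨t, by rw [eval_sub, eval_C, ← hz]; exact ht⟩)
    exact (Nat.mul_le_mul_left _ h1).trans (Nat.le_add_right _ _)
  · have hp := hnd.resolve_left hdv
    apply sparse (fun i => ∃ t, z (i + 1) - x = t ^ n)
    intro j hj
    obtain ⟨hd2, hl2⟩ := sub_data hd x j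
    obtain ⟨e, he⟩ := itp_lc φ hd (j + 1)
    set a := (n - 1) * φ.natDegree ^ j with ha
    have hj0 : itp φ (j + 1) - C x ≠ 0 := by
      intro h
      rw [h, natDegree_zero] at hd2
      have : 0 < φ.natDegree ^ (j + 1) := pow_pos (by omega) _
      omega
    obtain ⟨C', hC⟩ := few_powers (by omega) hζ hd hz hinj (g := gq φ x a j)
      (E := φ.natDegree ^ (j + 1)) (b := r ^ (a + e)) (pow_ne_zero _ hr0) (by
        rw [gq, natDegree_mul (pow_ne_zero _ hφx0) hj0, natDegree_pow, hd1, hd2, ha]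
        obtain ⟨k, rfl⟩ : ∃ k, n = k + 1 := ⟨n - 1, by omega⟩
        rw [Nat.add_sub_cancel]
        ring) (by
        rw [gq, leadingCoeff_mul, leadingCoeff_pow, hl1, hl2, he, hlc]
        ring) (fun i hi hcon => by
        have h1 := not_power (P := φ - C x) (h := itp φ (j + 1) - C x) (a := a) (by omega) rfl hs
          hu (hu2 j hj) (by
            rw [gq, mul_comp, pow_comp, map_mul, map_pow]
            refine mul_ne_zero (pow_ne_zero _ (hcomp i hi)) ?_
            rw [aeval_comp_itp]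
            exact hu2 _ (by omega)) hcon
        rcases (Nat.Prime.dvd_mul hp).mp h1 with h2 | h2
        · have := Nat.le_of_dvd (by omega) h2
          omega
        · exact hdv (hp.dvd_of_dvd_pow h2))
    refine ⟨C', fun W => ?_⟩
    obtain ⟨n0, hn0⟩ := hC W
    refine ⟨n0, fun k hk I hI h => hn0 k hk I hI fun i hi => ?_⟩
    obtain ⟨⟨t1, h1⟩, t2, h2⟩ := h i hi
    have h3 : (gq φ x a j).eval (z i) = (z (i + 1) - x) ^ a * (z (i + j + 1) - x) := by
      rw [gq, eval_mul, eval_pow, eval_sub, eval_sub, eval_C, ← hz, ← orbit_itp hz i (j + 1)]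
      rfl
    exact ⟨t1 ^ a * t2, by rw [h3, h1, h2]; ring⟩

end

end Pool.Agent.Arb3
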